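import Mathlib

/-!
# Labels for the prisms `C_(4m+2) × P_(2n+1)`

The vertices are written as `(i, t)`, where `i` is the row and `t` is the position on the cycle
counted from the diagonal. For even `t = 2 s` the label is `lowLab m i s`, for odd `t = 2 s + 1` it
is `q + 1 - hpos m i s`, where `q` is the number of edges.
-/

set_option autoImplicit false

namespace Pool.Agent.R67.AL

/-- Labels of the lower class. -/
def lowLab (m i s : ℕ) : ℕ :=
  if i = 0 then (if s = m + 1 then 3 * m + 2 else s)
  else if i = 1 then
    (if s = 0 then 6 * m + 3 else if s = m then 7 * m + 3 else if s = m + 1 then m + 1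
      else 4 * m + 2 + s)
  else (4 * m + 2) * i + s + 1

/-- Distances of the labels of the upper class from `q + 1`. -/
def hpos (m i s : ℕ) : ℕ :=
  if i = 0 then (if s = m then 5 * m + 3 else s + 1)
  else if i = 1 then
    (if s = 0 then 8 * m + 5 else if s = m then m + 1 else if s = 2 * m then 4 * m + 2
      else 4 * m + 3 + s)
  else if i = 2 then (if s = 2 * m then 6 * m + 4 else 8 * m + 6 + s)
  else if i % 2 = 1 then (if s = 2 * m then (4 * m + 2) * i + (4 * m + 1) else (4 * m + 2) * i + s)
  else (if s = 2 * m then (4 * m + 2) * i - 2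
    else if m - 1 ≤ s then (4 * m + 2) * i + s + 2 else (4 * m + 2) * i + s)

/-- Adjacency of the low vertex `(i, 2 s)` and the high vertex `(j, 2 u + 1)`. -/
def Ed (m i s j u : ℕ) : Prop :=
  (j = i ∧ (u = s ∨ u + 1 = s ∨ (s = 0 ∧ u = 2 * m))) ∨
  (j = i + 1 ∧ (u + 1 = s ∨ (s = 0 ∧ u = 2 * m))) ∨
  (i = j + 1 ∧ u = s)

/-- The value `w` is attained by an edge among the rows `0, …, 2 n`. -/
def Att (m n w : ℕ) : Prop :=
  ∃ i s j u : ℕ, i ≤ 2 * n ∧ j ≤ 2 * n ∧ s ≤ 2 * m ∧ u ≤ 2 * m ∧ Ed m i s j u ∧
    lowLab m i s + hpos m j u = w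

theorem low0 {m s : ℕ} : lowLab m 0 s = if s = m + 1 then 3 * m + 2 else s := by
  simp [lowLab]

theorem low1 {m s : ℕ} : lowLab m 1 s = if s = 0 then 6 * m + 3 else if s = m then 7 * m + 3
    else if s = m + 1 then m + 1 else 4 * m + 2 + s := by
  simp [lowLab]

theorem lowI {m i s : ℕ} (hi : 2 ≤ i) : lowLab m i s = (4 * m + 2) * i + s + 1 := by
  unfold lowLab
  rw [if_neg (by omega), if_neg (by omega)]

theorem low2 {m s : ℕ} : lowLab m 2 s = 8 * m + s + 5 := by
  rw [lowI le_rfl]; ring

theorem low3 {m s : ℕ} : lowLab m 3 s = 12 * m + s + 7 := by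
  rw [lowI (by omega)]; ring

theorem hp0 {m s : ℕ} : hpos m 0 s = if s = m then 5 * m + 3 else s + 1 := by
  simp [hpos]

theorem hp1 {m s : ℕ} : hpos m 1 s = if s = 0 then 8 * m + 5 else if s = m then m + 1
    else if s = 2 * m then 4 * m + 2 else 4 * m + 3 + s := by
  simp [hpos]

theorem hp2 {m s : ℕ} : hpos m 2 s = if s = 2 * m then 6 * m + 4 else 8 * m + 6 + s := by
  simp [hpos]

theorem hpG {m i s : ℕ} (hi : 3 ≤ i) (ho : i % 2 = 1) : hpos m i s =
    if s = 2 * m then (4 * m + 2) * i + (4 * m + 1) else (4 * m + 2) * i + s := by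
  unfold hpos
  rw [if_neg (by omega), if_neg (by omega), if_neg (by omega), if_pos ho]

theorem hp3 {m s : ℕ} : hpos m 3 s =
    if s = 2 * m then 16 * m + 7 else 12 * m + 6 + s := by
  rw [hpG le_rfl (by norm_num)]
  split_ifs <;> ring

theorem hpK {m i s : ℕ} (hi : 4 ≤ i) (ho : i % 2 = 0) : hpos m i s =
    if s = 2 * m then (4 * m + 2) * i - 2
    else if m - 1 ≤ s then (4 * m + 2) * i + s + 2 else (4 * m + 2) * i + s := by
  unfold hpos
  rw [if_neg (by omega), if_neg (by omega), if_neg (by omega), if_neg (by omega)]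

theorem att_row0 {m n r : ℕ} (hm : 2 ≤ m) (hn : 1 ≤ n) (hr : r < 4 * m + 2) :
    Att m n (r + 1) := by
  by_cases h1 : r = 2 * m + 1
  · exact ⟨1, m + 1, 1, m, by omega, by omega, by omega, by omega, by unfold Ed; omega, by
      simp only [low0, low1, low2, low3, hp0, hp1, hp2, hp3]; split_ifs <;> first | contradiction | omega⟩
  by_cases h2 : r = 2 * m + 2
  · exact ⟨1, m + 1, 0, m + 1, by omega, by omega, by omega, by omega, by unfold Ed; omega, by
      simp only [low0, low1, low2, low3, hp0, hp1, hp2, hp3]; split_ifs <;> first | contradiction | omega⟩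
  by_cases h3 : r = 4 * m + 1
  · exact ⟨0, 0, 1, 2 * m, by omega, by omega, by omega, by omega, by unfold Ed; omega, by
      simp only [low0, low1, low2, low3, hp0, hp1, hp2, hp3]; split_ifs <;> first | contradiction | omega⟩
  by_cases h4 : r = 2 * m
  · exact ⟨0, 0, 0, 2 * m, by omega, by omega, by omega, by omega, by unfold Ed; omega, by
      simp only [low0, low1, low2, low3, hp0, hp1, hp2, hp3]; split_ifs <;> first | contradiction | omega⟩
  rcases Nat.even_or_odd' r with ⟨s, hs | hs⟩
  · exact ⟨0, s, 0, s, by omega, by omega, by omega, by omega, by unfold Ed; omega, by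
      simp only [low0, low1, low2, low3, hp0, hp1, hp2, hp3]; split_ifs <;> first | contradiction | omega⟩
  · exact ⟨0, s + 1, 0, s, by omega, by omega, by omega, by omega, by unfold Ed; omega, by
      simp only [low0, low1, low2, low3, hp0, hp1, hp2, hp3]; split_ifs <;> first | contradiction | omega⟩

theorem att_v01 {m n r : ℕ} (hm : 2 ≤ m) (hn : 1 ≤ n) (hr : r < 4 * m + 2) :
    Att m n (4 * m + 2 + r + 1) := by
  by_cases h0 : r = 0
  · exact ⟨0, m + 1, 1, m, by omega, by omega, by omega, by omega, by unfold Ed; omega, by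
      simp only [low0, low1, low2, low3, hp0, hp1, hp2, hp3]; split_ifs <;> first | contradiction | omega⟩
  by_cases h1 : r = 1
  · exact ⟨0, m + 1, 0, m + 1, by omega, by omega, by omega, by omega, by unfold Ed; omega, by
      simp only [low0, low1, low2, low3, hp0, hp1, hp2, hp3]; split_ifs <;> first | contradiction | omega⟩
  by_cases h2 : r = 2 * m
  · exact ⟨0, m, 0, m, by omega, by omega, by omega, by omega, by unfold Ed; omega, by
      simp only [low0, low1, low2, low3, hp0, hp1, hp2, hp3]; split_ifs <;> first | contradiction | omega⟩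
  by_cases h3 : r = 2 * m + 1
  · exact ⟨1, 0, 0, 0, by omega, by omega, by omega, by omega, by unfold Ed; omega, by
      simp only [low0, low1, low2, low3, hp0, hp1, hp2, hp3]; split_ifs <;> first | contradiction | omega⟩
  by_cases h4 : r = 2 * m + 2
  · exact ⟨1, m + 1, 1, m + 1, by omega, by omega, by omega, by omega, by unfold Ed; omega, by
      simp only [low0, low1, low2, low3, hp0, hp1, hp2, hp3]; split_ifs <;> first | contradiction | omega⟩
  by_cases h5 : r = 4 * m + 1
  · exact ⟨1, m, 1, m, by omega, by omega, by omega, by omega, by unfold Ed; omega, by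
      simp only [low0, low1, low2, low3, hp0, hp1, hp2, hp3]; split_ifs <;> first | contradiction | omega⟩
  rcases Nat.even_or_odd' r with ⟨s, hs | hs⟩
  · exact ⟨1, s, 0, s, by omega, by omega, by omega, by omega, by unfold Ed; omega, by
      simp only [low0, low1, low2, low3, hp0, hp1, hp2, hp3]; split_ifs <;> first | contradiction | omega⟩
  · exact ⟨0, s + 1, 1, s, by omega, by omega, by omega, by omega, by unfold Ed; omega, by
      simp only [low0, low1, low2, low3, hp0, hp1, hp2, hp3]; split_ifs <;> first | contradiction | omega⟩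

theorem att_row1 {m n r : ℕ} (hm : 2 ≤ m) (hn : 1 ≤ n) (hr : r < 4 * m + 2) :
    Att m n (2 * (4 * m + 2) + r + 1) := by
  by_cases h0 : r = 0
  · exact ⟨0, m + 1, 0, m, by omega, by omega, by omega, by omega, by unfold Ed; omega, by
      simp only [low0, low1, low2, low3, hp0, hp1, hp2, hp3]; split_ifs <;> first | contradiction | omega⟩
  by_cases h1 : r = 1
  · exact ⟨0, 1, 1, 0, by omega, by omega, by omega, by omega, by unfold Ed; omega, by
      simp only [low0, low1, low2, low3, hp0, hp1, hp2, hp3]; split_ifs <;> first | contradiction | omega⟩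
  by_cases h2 : r = 2 * m + 1
  · exact ⟨2, m, 1, m, by omega, by omega, by omega, by omega, by unfold Ed; omega, by
      simp only [low0, low1, low2, low3, hp0, hp1, hp2, hp3]; split_ifs <;> first | contradiction | omega⟩
  by_cases h3 : r = 2 * m + 2
  · exact ⟨1, m + 1, 2, m, by omega, by omega, by omega, by omega, by unfold Ed; omega, by
      simp only [low0, low1, low2, low3, hp0, hp1, hp2, hp3]; split_ifs <;> first | contradiction | omega⟩
  by_cases h4 : r = 2 * m - 1
  · exact ⟨1, 2 * m, 1, 2 * m, by omega, by omega, by omega, by omega, by unfold Ed; omega, by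
      simp only [low0, low1, low2, low3, hp0, hp1, hp2, hp3]; split_ifs <;> first | contradiction | omega⟩
  by_cases h5 : r = 2 * m
  · exact ⟨1, 0, 1, 2 * m, by omega, by omega, by omega, by omega, by unfold Ed; omega, by
      simp only [low0, low1, low2, low3, hp0, hp1, hp2, hp3]; split_ifs <;> first | contradiction | omega⟩
  by_cases h6 : r = 4 * m
  · exact ⟨1, m, 1, m - 1, by omega, by omega, by omega, by omega, by unfold Ed; omega, by
      simp only [low0, low1, low2, low3, hp0, hp1, hp2, hp3]; split_ifs <;> first | contradiction | omega⟩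
  by_cases h7 : r = 4 * m + 1
  · exact ⟨1, m, 0, m, by omega, by omega, by omega, by omega, by unfold Ed; omega, by
      simp only [low0, low1, low2, low3, hp0, hp1, hp2, hp3]; split_ifs <;> first | contradiction | omega⟩
  rcases Nat.even_or_odd' r with ⟨s, hs | hs⟩
  · exact ⟨1, s, 1, s, by omega, by omega, by omega, by omega, by unfold Ed; omega, by
      simp only [low0, low1, low2, low3, hp0, hp1, hp2, hp3]; split_ifs <;> first | contradiction | omega⟩
  · exact ⟨1, s + 1, 1, s, by omega, by omega, by omega, by omega, by unfold Ed; omega, by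
      simp only [low0, low1, low2, low3, hp0, hp1, hp2, hp3]; split_ifs <;> first | contradiction | omega⟩

theorem att_v12 {m n r : ℕ} (hm : 2 ≤ m) (hn : 1 ≤ n) (hr : r < 4 * m + 2) :
    Att m n (3 * (4 * m + 2) + r + 1) := by
  by_cases h0 : r = 0
  · exact ⟨1, 0, 2, 2 * m, by omega, by omega, by omega, by omega, by unfold Ed; omega, by
      simp only [low0, low1, low2, low3, hp0, hp1, hp2, hp3]; split_ifs <;> first | contradiction | omega⟩
  by_cases h1 : r = 1
  · exact ⟨1, 1, 1, 0, by omega, by omega, by omega, by omega, by unfold Ed; omega, by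
      simp only [low0, low1, low2, low3, hp0, hp1, hp2, hp3]; split_ifs <;> first | contradiction | omega⟩
  by_cases h2 : r = 2 * m + 2
  · exact ⟨2, 0, 2, 2 * m, by omega, by omega, by omega, by omega, by unfold Ed; omega, by
      simp only [low0, low1, low2, low3, hp0, hp1, hp2, hp3]; split_ifs <;> first | contradiction | omega⟩
  by_cases h3 : r = 2 * m + 1
  · exact ⟨1, 0, 1, 0, by omega, by omega, by omega, by omega, by unfold Ed; omega, by
      simp only [low0, low1, low2, low3, hp0, hp1, hp2, hp3]; split_ifs <;> first | contradiction | omega⟩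
  by_cases h4 : r = 2 * m
  · exact ⟨2, 2 * m, 1, 2 * m, by omega, by omega, by omega, by omega, by unfold Ed; omega, by
      simp only [low0, low1, low2, low3, hp0, hp1, hp2, hp3]; split_ifs <;> first | contradiction | omega⟩
  by_cases h5 : r = 4 * m + 1
  · exact ⟨1, m, 2, m - 1, by omega, by omega, by omega, by omega, by unfold Ed; omega, by
      simp only [low0, low1, low2, low3, hp0, hp1, hp2, hp3]; split_ifs <;> first | contradiction | omega⟩
  rcases Nat.even_or_odd' r with ⟨s, hs | hs⟩
  · exact ⟨1, s, 2, s - 1, by omega, by omega, by omega, by omega, by unfold Ed; omega, by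
      simp only [low0, low1, low2, low3, hp0, hp1, hp2, hp3]; split_ifs <;> first | contradiction | omega⟩
  · exact ⟨2, s, 1, s, by omega, by omega, by omega, by omega, by unfold Ed; omega, by
      simp only [low0, low1, low2, low3, hp0, hp1, hp2, hp3]; split_ifs <;> first | contradiction | omega⟩

theorem att_row2 {m n r : ℕ} (hm : 2 ≤ m) (hn : 1 ≤ n) (hr : r < 4 * m + 2) :
    Att m n (4 * (4 * m + 2) + r + 1) := by
  by_cases h0 : r = 0
  · exact ⟨2, 2 * m, 2, 2 * m, by omega, by omega, by omega, by omega, by unfold Ed; omega, by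
      simp only [low0, low1, low2, low3, hp0, hp1, hp2, hp3]; split_ifs <;> first | contradiction | omega⟩
  by_cases h1 : r = 1
  · exact ⟨2, 0, 1, 0, by omega, by omega, by omega, by omega, by unfold Ed; omega, by
      simp only [low0, low1, low2, low3, hp0, hp1, hp2, hp3]; split_ifs <;> first | contradiction | omega⟩
  rcases Nat.even_or_odd' r with ⟨s, hs | hs⟩
  · exact ⟨2, s - 1, 2, s - 1, by omega, by omega, by omega, by omega, by unfold Ed; omega, by
      simp only [low0, low1, low2, low3, hp0, hp1, hp2, hp3]; split_ifs <;> first | contradiction | omega⟩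
  · exact ⟨2, s, 2, s - 1, by omega, by omega, by omega, by omega, by unfold Ed; omega, by
      simp only [low0, low1, low2, low3, hp0, hp1, hp2, hp3]; split_ifs <;> first | contradiction | omega⟩

theorem att_v23 {m n r : ℕ} (hm : 2 ≤ m) (hn : 2 ≤ n) (hr : r < 4 * m + 2) :
    Att m n (5 * (4 * m + 2) + r + 1) := by
  by_cases h0 : r = 0
  · exact ⟨3, 2 * m, 2, 2 * m, by omega, by omega, by omega, by omega, by unfold Ed; omega, by
      simp only [low0, low1, low2, low3, hp0, hp1, hp2, hp3]; split_ifs <;> first | contradiction | omega⟩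
  by_cases h1 : r = 4 * m + 1
  · exact ⟨2, 0, 3, 2 * m, by omega, by omega, by omega, by omega, by unfold Ed; omega, by
      simp only [low0, low1, low2, low3, hp0, hp1, hp2, hp3]; split_ifs <;> first | contradiction | omega⟩
  rcases Nat.even_or_odd' r with ⟨s, hs | hs⟩
  · exact ⟨3, s - 1, 2, s - 1, by omega, by omega, by omega, by omega, by unfold Ed; omega, by
      simp only [low0, low1, low2, low3, hp0, hp1, hp2, hp3]; split_ifs <;> first | contradiction | omega⟩
  · exact ⟨2, s + 1, 3, s, by omega, by omega, by omega, by omega, by unfold Ed; omega, by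
      simp only [low0, low1, low2, low3, hp0, hp1, hp2, hp3]; split_ifs <;> first | contradiction | omega⟩

theorem att_rowG {m n i r : ℕ} (hm : 2 ≤ m) (hi : 3 ≤ i) (ho : i % 2 = 1) (hin : i + 1 ≤ 2 * n)
    (hr : r < 4 * m + 2) : Att m n (2 * ((4 * m + 2) * i) + r + 1) := by
  have e1 : (4 * m + 2) * (i + 1) = (4 * m + 2) * i + (4 * m + 2) := by ring
  by_cases h0 : r = 4 * m
  · exact ⟨i, 0, i + 1, 2 * m, by omega, by omega, by omega, by omega, by unfold Ed; omega, by
      rw [lowI (by omega), hpK (by omega) (by omega), e1]; split_ifs <;> first | contradiction | omega⟩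
  by_cases h1 : r = 4 * m + 1
  · exact ⟨i, 0, i, 2 * m, by omega, by omega, by omega, by omega, by unfold Ed; omega, by
      rw [lowI (by omega), hpG (by omega) (by omega)]; split_ifs <;> first | contradiction | omega⟩
  rcases Nat.even_or_odd' r with ⟨s, hs | hs⟩
  · exact ⟨i, s, i, s, by omega, by omega, by omega, by omega, by unfold Ed; omega, by
      rw [lowI (by omega), hpG (by omega) (by omega)]; split_ifs <;> first | contradiction | omega⟩
  · exact ⟨i, s + 1, i, s, by omega, by omega, by omega, by omega, by unfold Ed; omega, by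
      rw [lowI (by omega), hpG (by omega) (by omega)]; split_ifs <;> first | contradiction | omega⟩

theorem att_vGK {m n i r : ℕ} (hm : 2 ≤ m) (hi : 3 ≤ i) (ho : i % 2 = 1) (hin : i + 1 ≤ 2 * n)
    (hr : r < 4 * m + 2) : Att m n (2 * ((4 * m + 2) * i) + (4 * m + 2) + r + 1) := by
  have e1 : (4 * m + 2) * (i + 1) = (4 * m + 2) * i + (4 * m + 2) := by ring
  by_cases h0 : r = 2 * m - 1
  · exact ⟨i, 2 * m, i, 2 * m, by omega, by omega, by omega, by omega, by unfold Ed; omega, by
      rw [lowI (by omega), hpG (by omega) (by omega)]; split_ifs <;> first | contradiction | omega⟩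
  by_cases h1 : r = 4 * m
  · exact ⟨i + 1, 0, i + 1, 2 * m, by omega, by omega, by omega, by omega, by unfold Ed; omega, by
      rw [lowI (by omega), hpK (by omega) (by omega), e1]; split_ifs <;> first | contradiction | omega⟩
  rcases Nat.even_or_odd' r with ⟨s, hs | hs⟩
  · exact ⟨i + 1, s, i, s, by omega, by omega, by omega, by omega, by unfold Ed; omega, by
      rw [lowI (by omega), hpG (by omega) (by omega), e1]; split_ifs <;> first | contradiction | omega⟩
  by_cases h2 : r < 2 * m
  · exact ⟨i, s + 1, i + 1, s, by omega, by omega, by omega, by omega, by unfold Ed; omega, by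
      rw [lowI (by omega), hpK (by omega) (by omega), e1]; split_ifs <;> first | contradiction | omega⟩
  · exact ⟨i, s, i + 1, s - 1, by omega, by omega, by omega, by omega, by unfold Ed; omega, by
      rw [lowI (by omega), hpK (by omega) (by omega), e1]; split_ifs <;> first | contradiction | omega⟩

theorem att_rowK {m n i r : ℕ} (hm : 2 ≤ m) (hi : 4 ≤ i) (ho : i % 2 = 0) (hin : i ≤ 2 * n)
    (hr : r < 4 * m + 2) : Att m n (2 * ((4 * m + 2) * i) + r + 1) := by
  obtain ⟨j, rfl⟩ : ∃ j, i = j + 1 := ⟨i - 1, by omega⟩
  have e1 : (4 * m + 2) * (j + 1) = (4 * m + 2) * j + (4 * m + 2) := by ring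
  by_cases h0 : r = 2 * m - 1
  · exact ⟨j + 1, 2 * m, j, 2 * m, by omega, by omega, by omega, by omega, by unfold Ed; omega, by
      rw [lowI (by omega), hpG (by omega) (by omega), e1]; split_ifs <;> first | contradiction | omega⟩
  by_cases h1 : r = 2 * m - 2
  · exact ⟨j + 1, 2 * m, j + 1, 2 * m, by omega, by omega, by omega, by omega,
      by unfold Ed; omega, by rw [lowI (by omega), hpK (by omega) (by omega), e1]; split_ifs <;> first | contradiction | omega⟩
  rcases Nat.even_or_odd' r with ⟨s, hs | hs⟩
  · by_cases h2 : r < 2 * m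
    · exact ⟨j + 1, s, j + 1, s, by omega, by omega, by omega, by omega, by unfold Ed; omega, by
        rw [lowI (by omega), hpK (by omega) (by omega), e1]; split_ifs <;> first | contradiction | omega⟩
    · exact ⟨j + 1, s - 1, j + 1, s - 1, by omega, by omega, by omega, by omega,
        by unfold Ed; omega, by rw [lowI (by omega), hpK (by omega) (by omega), e1]; split_ifs <;> first | contradiction | omega⟩
  · by_cases h2 : r < 2 * m
    · exact ⟨j + 1, s + 1, j + 1, s, by omega, by omega, by omega, by omega,
        by unfold Ed; omega, by rw [lowI (by omega), hpK (by omega) (by omega), e1]; split_ifs <;> first | contradiction | omega⟩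
    · exact ⟨j + 1, s, j + 1, s - 1, by omega, by omega, by omega, by omega,
        by unfold Ed; omega, by rw [lowI (by omega), hpK (by omega) (by omega), e1]; split_ifs <;> first | contradiction | omega⟩

theorem att_vKG {m n i r : ℕ} (hm : 2 ≤ m) (hi : 4 ≤ i) (ho : i % 2 = 0) (hin : i + 1 ≤ 2 * n)
    (hr : r < 4 * m + 2) : Att m n (2 * ((4 * m + 2) * i) + (4 * m + 2) + r + 1) := by
  have e1 : (4 * m + 2) * (i + 1) = (4 * m + 2) * i + (4 * m + 2) := by ring
  have e2 : (4 * m + 2) * 4 ≤ (4 * m + 2) * i := Nat.mul_le_mul_left _ hi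
  by_cases h0 : r = 4 * m + 1
  · exact ⟨i, 0, i + 1, 2 * m, by omega, by omega, by omega, by omega, by unfold Ed; omega, by
      rw [lowI (by omega), hpG (by omega) (by omega), e1]; split_ifs <;> first | contradiction | omega⟩
  by_cases h1 : r = 2 * m - 2
  · exact ⟨i + 1, 2 * m, i, 2 * m, by omega, by omega, by omega, by omega, by unfold Ed; omega, by
      rw [lowI (by omega), hpK (by omega) (by omega), e1]; split_ifs <;> first | contradiction | omega⟩
  rcases Nat.even_or_odd' r with ⟨s, hs | hs⟩
  · by_cases h2 : r < 2 * m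
    · exact ⟨i + 1, s, i, s, by omega, by omega, by omega, by omega, by unfold Ed; omega, by
        rw [lowI (by omega), hpK (by omega) (by omega), e1]; split_ifs <;> first | contradiction | omega⟩
    · exact ⟨i + 1, s - 1, i, s - 1, by omega, by omega, by omega, by omega,
        by unfold Ed; omega, by rw [lowI (by omega), hpK (by omega) (by omega), e1]; split_ifs <;> first | contradiction | omega⟩
  · exact ⟨i, s + 1, i + 1, s, by omega, by omega, by omega, by omega, by unfold Ed; omega, by
      rw [lowI (by omega), hpG (by omega) (by omega), e1]; split_ifs <;> first | contradiction | omega⟩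

/-- All values are attained. -/
theorem att_all {m n w : ℕ} (hm : 2 ≤ m) (hn : 1 ≤ n) (h1 : 1 ≤ w)
    (h2 : w ≤ (4 * m + 2) * (4 * n + 1)) : Att m n w := by
  obtain ⟨b, r, hr, hw⟩ : ∃ b r, r < 4 * m + 2 ∧ w = (4 * m + 2) * b + r + 1 :=
    ⟨(w - 1) / (4 * m + 2), (w - 1) % (4 * m + 2), Nat.mod_lt _ (by omega), by
      have := Nat.div_add_mod (w - 1) (4 * m + 2); omega⟩
  have hb : b ≤ 4 * n := by
    by_contra hb
    have : (4 * m + 2) * (4 * n + 1) ≤ (4 * m + 2) * b := Nat.mul_le_mul_left _ (by omega)
    omega
  subst hw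
  clear h1 h2
  by_cases h5 : b ≤ 5
  · interval_cases b
    · simpa using att_row0 hm hn hr
    · simpa using att_v01 hm hn hr
    · simpa [mul_comm] using att_row1 hm hn hr
    · simpa [mul_comm] using att_v12 hm hn hr
    · simpa [mul_comm] using att_row2 hm hn hr
    · simpa [mul_comm] using att_v23 hm (by omega) hr
  · obtain ⟨i, hi | hi⟩ := Nat.even_or_odd' b
    · have e : (4 * m + 2) * b = 2 * ((4 * m + 2) * i) := by rw [hi]; ring
      rw [e]
      rcases Nat.mod_two_eq_zero_or_one i with ho | ho
      · exact att_rowK hm (by omega) ho (by omega) hr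
      · exact att_rowG hm (by omega) ho (by omega) hr
    · have e : (4 * m + 2) * b = 2 * ((4 * m + 2) * i) + (4 * m + 2) := by rw [hi]; ring
      rw [e]
      rcases Nat.mod_two_eq_zero_or_one i with ho | ho
      · exact att_vKG hm (by omega) ho (by omega) hr
      · exact att_vGK hm (by omega) ho (by omega) hr

end Pool.Agent.R67.AL
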