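import Pool.Agent.R67.AL1

set_option autoImplicit false

namespace Pool.Agent.R67.AL

theorem lowLab_inj_aux {m i i' s s' A A' : ℕ} (hm : 2 ≤ m) (hs : s ≤ 2 * m) (hs' : s' ≤ 2 * m)
    (hA : A = (4 * m + 2) * i) (hA' : A' = (4 * m + 2) * i') (hii : i ≤ i')
    (h : lowLab m i s = lowLab m i' s') : i = i' ∧ s = s' := by
  have f1 : 2 ≤ i → 8 * m + 4 ≤ A := fun h => by
    have := Nat.mul_le_mul_left (4 * m + 2) h
    omega
  have f2 : 2 ≤ i' → 8 * m + 4 ≤ A' := fun h => by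
    have := Nat.mul_le_mul_left (4 * m + 2) h
    omega
  have f3 : i < i' → A + (4 * m + 2) ≤ A' := fun h => by
    have := Nat.mul_le_mul_left (4 * m + 2) (show i + 1 ≤ i' from h)
    rw [Nat.mul_succ] at this
    omega
  have f5 : i = i' → A = A' := fun h => by rw [hA, hA', h]
  unfold lowLab at h
  rw [← hA, ← hA'] at h
  clear hA hA'
  split_ifs at h <;> first | contradiction | omega

theorem lowLab_inj {m i i' s s' : ℕ} (hm : 2 ≤ m) (hs : s ≤ 2 * m) (hs' : s' ≤ 2 * m)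
    (h : lowLab m i s = lowLab m i' s') : i = i' ∧ s = s' := by
  rcases le_total i i' with hh | hh
  · exact lowLab_inj_aux hm hs hs' rfl rfl hh h
  · obtain ⟨a, b⟩ := lowLab_inj_aux hm hs' hs rfl rfl hh h.symm
    exact ⟨a.symm, b.symm⟩

theorem hpos_inj_aux {m i i' s s' A A' : ℕ} (hm : 2 ≤ m) (hs : s ≤ 2 * m) (hs' : s' ≤ 2 * m)
    (hA : A = (4 * m + 2) * i) (hA' : A' = (4 * m + 2) * i') (hii : i ≤ i')
    (h : hpos m i s = hpos m i' s') : i = i' ∧ s = s' := by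
  have f1 : 3 ≤ i → 12 * m + 6 ≤ A := fun h => by
    have := Nat.mul_le_mul_left (4 * m + 2) h
    omega
  have f2 : 3 ≤ i' → 12 * m + 6 ≤ A' := fun h => by
    have := Nat.mul_le_mul_left (4 * m + 2) h
    omega
  have f2' : 4 ≤ i' → 16 * m + 8 ≤ A' := fun h => by
    have := Nat.mul_le_mul_left (4 * m + 2) h
    omega
  have f3 : i + 1 < i' → A + (8 * m + 4) ≤ A' := fun h => by
    have := Nat.mul_le_mul_left (4 * m + 2) (show i + 2 ≤ i' from h)
    rw [Nat.mul_add] at this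
    omega
  have f4 : i + 1 = i' → A + (4 * m + 2) = A' := fun h => by
    rw [hA, hA', ← h, Nat.mul_succ]
  have f5 : i = i' → A = A' := fun h => by rw [hA, hA', h]
  unfold hpos at h
  rw [← hA, ← hA'] at h
  clear hA hA'
  split_ifs at h <;> first | contradiction | omega

theorem hpos_inj {m i i' s s' : ℕ} (hm : 2 ≤ m) (hs : s ≤ 2 * m) (hs' : s' ≤ 2 * m)
    (h : hpos m i s = hpos m i' s') : i = i' ∧ s = s' := by
  rcases le_total i i' with hh | hh
  · exact hpos_inj_aux hm hs hs' rfl rfl hh h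
  · obtain ⟨a, b⟩ := hpos_inj_aux hm hs' hs rfl rfl hh h.symm
    exact ⟨a.symm, b.symm⟩

theorem lowLab_le {m n i s : ℕ} (hm : 2 ≤ m) (hn : 1 ≤ n) (hs : s ≤ 2 * m) (hi : i ≤ 2 * n) :
    lowLab m i s ≤ 2 * ((4 * m + 2) * n) + (2 * m + 1) := by
  have f1 : 4 * m + 2 ≤ (4 * m + 2) * n := by
    have := Nat.mul_le_mul_left (4 * m + 2) hn
    omega
  have f2 : (4 * m + 2) * i ≤ 2 * ((4 * m + 2) * n) := by
    calc (4 * m + 2) * i ≤ (4 * m + 2) * (2 * n) := Nat.mul_le_mul_left _ hi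
      _ = 2 * ((4 * m + 2) * n) := by ring
  unfold lowLab
  split_ifs <;> first | contradiction | omega

theorem hpos_le {m n i s : ℕ} (hm : 2 ≤ m) (hn : 1 ≤ n) (hs : s ≤ 2 * m) (hi : i ≤ 2 * n) :
    hpos m i s ≤ 2 * ((4 * m + 2) * n) + (2 * m + 1) := by
  have f1 : 4 * m + 2 ≤ (4 * m + 2) * n := by
    have := Nat.mul_le_mul_left (4 * m + 2) hn
    omega
  have f2 : (4 * m + 2) * i ≤ 2 * ((4 * m + 2) * n) := by
    calc (4 * m + 2) * i ≤ (4 * m + 2) * (2 * n) := Nat.mul_le_mul_left _ hi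
      _ = 2 * ((4 * m + 2) * n) := by ring
  have f3 : i + 1 ≤ 2 * n → (4 * m + 2) * i + (4 * m + 2) ≤ 2 * ((4 * m + 2) * n) := fun h => by
    calc (4 * m + 2) * i + (4 * m + 2) = (4 * m + 2) * (i + 1) := by ring
      _ ≤ (4 * m + 2) * (2 * n) := Nat.mul_le_mul_left _ h
      _ = 2 * ((4 * m + 2) * n) := by ring
  unfold hpos
  split_ifs <;> first | contradiction | omega

theorem hpos_pos {m i s : ℕ} (hm : 2 ≤ m) : 1 ≤ hpos m i s := by
  have f1 : 1 ≤ i → 4 * m + 2 ≤ (4 * m + 2) * i := fun h => by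
    have := Nat.mul_le_mul_left (4 * m + 2) h
    omega
  unfold hpos
  split_ifs <;> first | contradiction | omega

end Pool.Agent.R67.AL
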