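import Mathlib

/-!
# Systems of cover edges with d linear orders, worlds on them, configurations
-/

set_option autoImplicit false

namespace Pool.Agent.R67.CR

open Finset Function

/-- ranks in a finite linear preorder -/
theorem exists_rank {α κ : Type*} [Finite α] [LinearOrder κ] (f : α → κ) :
    ∃ g : α → ℕ, (∀ x y, g x < g y ↔ f x < f y) ∧ ∀ x, g x < Nat.card α := by
  classical
  have := Fintype.ofFinite α
  refine ⟨fun x => (univ.filter (fun y => f y < f x)).card, fun x y => ?_, fun x => ?_⟩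
  · constructor
    · intro h
      by_contra hc
      have hc' : f y ≤ f x := not_lt.1 hc
      refine absurd h (not_lt.2 (card_le_card fun z hz => ?_))
      rw [mem_filter] at hz ⊢
      exact ⟨hz.1, lt_of_lt_of_le hz.2 hc'⟩
    · intro h
      apply card_lt_card
      refine ⟨fun z hz => ?_, fun hs => ?_⟩
      · rw [mem_filter] at hz ⊢
        exact ⟨hz.1, lt_trans hz.2 h⟩
      · have : x ∈ univ.filter (fun z => f z < f x) := hs (mem_filter.2 ⟨mem_univ _, h⟩)
        exact lt_irrefl _ (mem_filter.1 this).2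
  · rw [Nat.card_eq_fintype_card]
    refine lt_of_lt_of_le (card_lt_card (t := univ) ⟨subset_univ _, fun hs => ?_⟩) (le_refl _)
    exact lt_irrefl _ (mem_filter.1 (hs (mem_univ x))).2

theorem exists_code (α : Type*) [Finite α] [PartialOrder α] :
    ∃ f : α → ℤ, Injective f ∧ ∀ x y, x ≤ y → f x ≤ f y := by
  obtain ⟨g, hg, -⟩ := exists_rank (fun x : α => toLinearExtension x)
  refine ⟨fun x => g x, fun x y h => ?_, fun x y h => ?_⟩
  · have h' : g x = g y := by
      have h0 : ((g x : ℕ) : ℤ) = (g y : ℕ) := h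
      exact_mod_cast h0
    have h1 := (hg x y).not.1 (by omega)
    have h2 := (hg y x).not.1 (by omega)
    exact le_antisymm (α := LinearExtension α) (not_lt.1 h2) (not_lt.1 h1)
  · have h1 : toLinearExtension x ≤ toLinearExtension y := toLinearExtension.monotone h
    have h2 : ¬ g y < g x := fun h3 => absurd ((hg y x).1 h3) (not_lt.2 h1)
    simp only [Nat.cast_le]
    omega

/-- a finite set with `e + 1` linear orders and edges which are covers of the intersection order;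
every point lies on the lower or on the upper side -/
structure Sys (e : ℕ) where
  X : Type
  fin : Finite X
  side : X → Bool
  key : Fin (e + 1) → X → ℤ
  inj : ∀ j, Injective (key j)
  E : X → X → Prop
  lt : ∀ x y, E x y → ∀ j, key j x < key j y
  cov : ∀ x y z, E x y → (∀ j, key j x < key j z) → (∀ j, key j z < key j y) → False

/-- a world: classes, a colouring, and for each colour `e` orders realizing the upper or lower
cover condition inside each class -/
structure World {e r : ℕ} (Z : Sys e) (fl : Fin r → Bool) (K : Type) where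
  c : Z.X → K
  φ : Z.X → Z.X → Fin r
  L : Fin r → Fin e → Z.X → ℤ
  lt : ∀ α k x y, Z.E x y → c x = c y → φ x y = α → L α k x < L α k y
  uc : ∀ α, fl α = true → ∀ x y z, x ≠ y → Z.E x z → Z.E y z → c x = c z → c y = c z →
    φ x z = α → φ y z = α → ∃ k, L α k y < L α k x
  lc : ∀ α, fl α = false → ∀ x y z, x ≠ y → Z.E z x → Z.E z y → c z = c x → c z = c y →
    φ z x = α → φ z y = α → ∃ k, L α k y < L α k x

variable {e r : ℕ}

/-- configurations of stage `m` in colour `α` -/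
def Conf {Z : Sys e} {fl : Fin r → Bool} {K : Type} (ω : World Z fl K) (α : Fin r) (m : ℕ) :
    Prop :=
  m = 0 ∨
  (fl α = true ∧ ∃ p q, Z.E p q ∧ ω.c p = ω.c q ∧ ω.φ p q = α ∧
    ∃ S : Finset (Fin e), S.card + 1 = m ∧ ∀ l ∈ S, ∀ b : Fin (e + 1), m ≤ b.val + 1 →
      ∃ w, ω.c w = ω.c p ∧ Z.key b q < Z.key b w ∧ ω.L α l w < ω.L α l p) ∨
  (fl α = false ∧ ∃ p q, Z.E p q ∧ ω.c p = ω.c q ∧ ω.φ p q = α ∧
    ∃ S : Finset (Fin e), S.card + 1 = m ∧ ∀ l ∈ S, ∀ b : Fin (e + 1), m ≤ b.val + 1 →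
      ∃ w, ω.c w = ω.c p ∧ Z.key b w < Z.key b p ∧ ω.L α l q < ω.L α l w)

/-- reversal -/
@[reducible] def Sys.dual (Z : Sys e) : Sys e where
  X := Z.X
  fin := Z.fin
  side x := !Z.side x
  key j x := - Z.key j x
  inj j x y h := Z.inj j (neg_injective h)
  E x y := Z.E y x
  lt x y h j := by
    have := Z.lt y x h j
    omega
  cov x y z h h1 h2 := Z.cov y x z h (fun j => by have := h2 j; omega)
    (fun j => by have := h1 j; omega)

@[reducible] def World.undual {Z : Sys e} {fl fl' : Fin r → Bool} {K : Type}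
    (h : ∀ α, fl' α = !fl α) (ω : World Z.dual fl K) : World Z fl' K where
  c := ω.c
  φ x y := ω.φ y x
  L α k x := - ω.L α k x
  lt α k x y hE hc hφ := by
    have := ω.lt α k y x hE hc.symm hφ
    omega
  uc α hα x y z hne hxz hyz hcx hcy hφx hφy := by
    obtain ⟨k, hk⟩ := ω.lc α (by rw [h] at hα; simpa using hα) y x z hne.symm hyz hxz hcy.symm
      hcx.symm hφy hφx
    exact ⟨k, by omega⟩
  lc α hα x y z hne hxz hyz hcx hcy hφx hφy := by
    obtain ⟨k, hk⟩ := ω.uc α (by rw [h] at hα; simpa using hα) y x z hne.symm hyz hxz hcy.symm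
      hcx.symm hφy hφx
    exact ⟨k, by omega⟩

theorem conf_undual {Z : Sys e} {fl fl' : Fin r → Bool} {K : Type}
    (h : ∀ α, fl' α = !fl α) (ω : World Z.dual fl K) (α : Fin r) (m : ℕ)
    (hc : Conf (ω.undual h) α m) : Conf ω α m := by
  rcases hc with hc | ⟨hf, p, q, hE, hpq, hφ, S, hS, hw⟩ | ⟨hf, p, q, hE, hpq, hφ, S, hS, hw⟩
  · exact Or.inl hc
  · refine Or.inr (Or.inr ⟨by rw [h] at hf; simpa using hf, q, p, hE, hpq.symm, hφ, S, hS, ?_⟩)
    intro l hl b hb
    obtain ⟨w, h1, h2, h3⟩ := hw l hl b hb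
    refine ⟨w, h1.trans hpq, ?_, ?_⟩
    · show - Z.key b w < - Z.key b q
      omega
    · have h3' : - ω.L α l w < - ω.L α l p := h3
      omega
  · refine Or.inr (Or.inl ⟨by rw [h] at hf; simpa using hf, q, p, hE, hpq.symm, hφ, S, hS, ?_⟩)
    intro l hl b hb
    obtain ⟨w, h1, h2, h3⟩ := hw l hl b hb
    refine ⟨w, h1.trans hpq, ?_, ?_⟩
    · show - Z.key b p < - Z.key b w
      omega
    · have h3' : - ω.L α l q < - ω.L α l w := h3
      omega

/-- pulling a world back along a map which is an embedding on each class -/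
@[reducible] def World.pull {Y Z : Sys e} {fl : Fin r → Bool} {K K' : Type} (ω : World Z fl K)
    (f : Y.X → Z.X) (c' : Y.X → K')
    (h : ∀ y y', c' y = c' y' → ω.c (f y) = ω.c (f y') ∧ (y ≠ y' → f y ≠ f y') ∧
      (Y.E y y' → Z.E (f y) (f y')) ∧ ∀ j, Y.key j y < Y.key j y' →
        Z.key j (f y) < Z.key j (f y')) : World Y fl K' where
  c := c'
  φ y y' := ω.φ (f y) (f y')
  L α k y := ω.L α k (f y)
  lt α k x y hE hc hφ := ω.lt α k _ _ ((h x y hc).2.2.1 hE) (h x y hc).1 hφ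
  uc α hα x y z hne hxz hyz hcx hcy hφx hφy :=
    ω.uc α hα (f x) (f y) (f z) ((h x y (hcx.trans hcy.symm)).2.1 hne) ((h x z hcx).2.2.1 hxz)
      ((h y z hcy).2.2.1 hyz) (h x z hcx).1 (h y z hcy).1 hφx hφy
  lc α hα x y z hne hxz hyz hcx hcy hφx hφy :=
    ω.lc α hα (f x) (f y) (f z) ((h x y (hcx.symm.trans hcy)).2.1 hne) ((h z x hcx).2.2.1 hxz)
      ((h z y hcy).2.2.1 hyz) (h z x hcx).1 (h z y hcy).1 hφx hφy

theorem conf_pull {Y Z : Sys e} {fl : Fin r → Bool} {K K' : Type} (ω : World Z fl K)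
    (f : Y.X → Z.X) (c' : Y.X → K')
    (h : ∀ y y', c' y = c' y' → ω.c (f y) = ω.c (f y') ∧ (y ≠ y' → f y ≠ f y') ∧
      (Y.E y y' → Z.E (f y) (f y')) ∧ ∀ j, Y.key j y < Y.key j y' →
        Z.key j (f y) < Z.key j (f y')) (α : Fin r) (m : ℕ)
    (hc : Conf (ω.pull f c' h) α m) : Conf ω α m := by
  rcases hc with hc | ⟨hf, p, q, hE, hpq, hφ, S, hS, hw⟩ | ⟨hf, p, q, hE, hpq, hφ, S, hS, hw⟩
  · exact Or.inl hc
  · refine Or.inr (Or.inl ⟨hf, f p, f q, (h p q hpq).2.2.1 hE, (h p q hpq).1, hφ, S, hS, ?_⟩)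
    intro l hl b hb
    obtain ⟨w, h1, h2, h3⟩ := hw l hl b hb
    exact ⟨f w, (h w p h1).1, (h q w (hpq.symm.trans h1.symm)).2.2.2 b h2, h3⟩
  · refine Or.inr (Or.inr ⟨hf, f p, f q, (h p q hpq).2.2.1 hE, (h p q hpq).1, hφ, S, hS, ?_⟩)
    intro l hl b hb
    obtain ⟨w, h1, h2, h3⟩ := hw l hl b hb
    exact ⟨f w, (h w p h1).1, (h w p h1).2.2.2 b h2, h3⟩

/-- every world with `M` classes contains a configuration of stage `k α` for some `α` -/
def IsGood (Z : Sys e) (fl : Fin r → Bool) (k : Fin r → ℕ) (M : ℕ) : Prop :=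
  ∀ ω : World Z fl (Fin M), ∃ α, Conf ω α (k α)

theorem IsGood.use {Z : Sys e} {fl : Fin r → Bool} {k : Fin r → ℕ} {M : ℕ} {K : Type} [Finite K]
    (hZ : IsGood Z fl k M) (hK : Nat.card K ≤ M) (ω : World Z fl K) : ∃ α, Conf ω α (k α) := by
  have := Fintype.ofFinite K
  have hemb : Nonempty (K ↪ Fin M) := by
    apply Function.Embedding.nonempty_of_card_le
    rw [Fintype.card_fin, ← Nat.card_eq_fintype_card]
    exact hK
  obtain ⟨ι⟩ := hemb
  have hcomp : ∀ y y', (ι ∘ ω.c) y = (ι ∘ ω.c) y' → ω.c (id y) = ω.c (id y') ∧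
      (y ≠ y' → id y ≠ id y') ∧ (Z.E y y' → Z.E (id y) (id y')) ∧
      ∀ j, Z.key j y < Z.key j y' → Z.key j (id y) < Z.key j (id y') := fun y y' h =>
    ⟨ι.injective h, id, id, fun j => id⟩
  obtain ⟨α, hα⟩ := hZ (ω.pull id (ι ∘ ω.c) hcomp)
  exact ⟨α, conf_pull ω id _ hcomp α _ hα⟩

/-- every world with `M` classes contains a full configuration or an edge from the lower to the
upper side, inside a class, whose colour is not among the first `n` ones -/
def IsCl (W : Sys e) (fl : Fin r → Bool) (k : Fin r → ℕ) (M n : ℕ) : Prop :=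
  ∀ ω : World W fl (Fin M), (∃ α, Conf ω α (k α)) ∨
    ∃ l u, W.side l = false ∧ W.side u = true ∧ W.E l u ∧ ω.c l = ω.c u ∧
      ∀ ρ : Fin r, ρ.val < n → ω.φ l u ≠ ρ

theorem IsCl.dual {W : Sys e} {fl fl' : Fin r → Bool} (h : ∀ α, fl' α = !fl α) {k : Fin r → ℕ}
    {M n : ℕ} (hW : IsCl W fl' k M n) : IsCl W.dual fl k M n := by
  intro ω
  rcases hW (ω.undual h) with ⟨α, hα⟩ | ⟨l, u, hl, hu, hE, hc, hφ⟩
  · exact Or.inl ⟨α, conf_undual h ω α _ hα⟩
  · refine Or.inr ⟨u, l, ?_, ?_, hE, hc.symm, hφ⟩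
    · show (!W.side u) = false
      rw [hu]; rfl
    · show (!W.side l) = true
      rw [hl]; rfl

theorem IsGood.dual {Z : Sys e} {fl fl' : Fin r → Bool} (h : ∀ α, fl' α = !fl α)
    {k : Fin r → ℕ} {M : ℕ} (hZ : IsGood Z fl' k M) : IsGood Z.dual fl k M := by
  intro ω
  obtain ⟨α, hα⟩ := hZ (ω.undual h)
  exact ⟨α, conf_undual h ω α _ hα⟩

end Pool.Agent.R67.CR
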