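import Pool.Agent.R67.CR1

/-!
# The one coordinate amalgamation
-/

set_option autoImplicit false

namespace Pool.Agent.R67.CR

open Finset Function

variable {e : ℕ}

/-- order preserving placements of `Y` into `N` positions -/
def Pl (Y : Sys e) (a : Fin (e + 1)) (N : ℕ) : Type :=
  {C : Y.X → Fin N // ∀ y y', Y.key a y < Y.key a y' → C y < C y'}

noncomputable instance (Y : Sys e) (a : Fin (e + 1)) (N : ℕ) : PartialOrder (Pl Y a N) :=
  inferInstanceAs (PartialOrder {C : Y.X → Fin N // _})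

instance (Y : Sys e) (a : Fin (e + 1)) (N : ℕ) : Finite (Pl Y a N) := by
  have := Y.fin
  unfold Pl
  infer_instance

theorem Pl.inj {Y : Sys e} {a : Fin (e + 1)} {N : ℕ} (C : Pl Y a N) : Injective C.1 := by
  intro y y' h
  apply Y.inj a
  rcases lt_trichotomy (Y.key a y) (Y.key a y') with h1 | h1 | h1
  · exact absurd h (C.2 _ _ h1).ne
  · exact h1
  · exact absurd h (C.2 _ _ h1).ne'

noncomputable def code (Y : Sys e) (a : Fin (e + 1)) (N : ℕ) : Pl Y a N → ℤ :=
  Classical.choose (exists_code (Pl Y a N))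

theorem code_inj (Y : Sys e) (a : Fin (e + 1)) (N : ℕ) : Injective (code Y a N) :=
  (Classical.choose_spec (exists_code (Pl Y a N))).1

theorem code_le {Y : Sys e} {a : Fin (e + 1)} {N : ℕ} {C C' : Pl Y a N} (h : ∀ y, C.1 y ≤ C'.1 y) :
    code Y a N C ≤ code Y a N C' :=
  (Classical.choose_spec (exists_code (Pl Y a N))).2 C C' h

/-- the points above a point of a given side -/
def Fib (Y : Sys e) (a : Fin (e + 1)) (N : ℕ) : Bool → Type
  | true => Pl Y a N × Y.X
  | false => Fin N

instance (Y : Sys e) (a : Fin (e + 1)) (N : ℕ) (b : Bool) : Finite (Fib Y a N b) := by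
  have := Y.fin
  cases b
  · exact inferInstanceAs (Finite (Fin N))
  · exact inferInstanceAs (Finite (Pl Y a N × Y.X))

section
variable (Y : Sys e) (a : Fin (e + 1)) (N : ℕ)

def pos : (b : Bool) → Fib Y a N b → ℤ
  | true, f => ((f.1.1 f.2).val : ℤ)
  | false, p => (p.val : ℤ)

noncomputable def cd : (b : Bool) → Fib Y a N b → ℤ
  | true, f => code Y a N f.1
  | false, p => (p.val : ℤ)

def fk (j : Fin (e + 1)) : (b : Bool) → Fib Y a N b → ℤ
  | true, f => Y.key j f.2
  | false, _ => 0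

def mk (C : Pl Y a N) (y : Y.X) : (b : Bool) → Fib Y a N b
  | true => (C, y)
  | false => C.1 y

def YE : (b b' : Bool) → Fib Y a N b → Fib Y a N b' → Prop
  | true, true, f, f' => Y.E f.2 f'.2
  | true, false, _, _ => False
  | false, _, _, _ => False

end

section
variable {Y : Sys e} {a : Fin (e + 1)} {N : ℕ}

theorem F1 (b : Bool) (f g : Fib Y a N b) (h1 : pos Y a N b f = pos Y a N b g)
    (h2 : cd Y a N b f = cd Y a N b g) : f = g := by
  cases b
  · have h3 : ((f : Fin N).val : ℤ) = ((g : Fin N).val : ℤ) := h1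
    exact Fin.ext (by exact_mod_cast h3)
  · obtain ⟨C, y⟩ := f
    obtain ⟨C', y'⟩ := g
    have h3 : C = C' := code_inj Y a N h2
    subst h3
    have h4 : ((C.1 y).val : ℤ) = ((C.1 y').val : ℤ) := h1
    have h5 : y = y' := C.inj (Fin.ext (by exact_mod_cast h4))
    subst h5
    rfl

theorem F2 (j : Fin (e + 1)) (b : Bool) (f g : Fib Y a N b) (h1 : cd Y a N b f = cd Y a N b g)
    (h2 : fk Y a N j b f = fk Y a N j b g) : f = g := by
  cases b
  · have h3 : ((f : Fin N).val : ℤ) = ((g : Fin N).val : ℤ) := h1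
    exact Fin.ext (by exact_mod_cast h3)
  · obtain ⟨C, y⟩ := f
    obtain ⟨C', y'⟩ := g
    have h3 : C = C' := code_inj Y a N h1
    subst h3
    have h5 : y = y' := Y.inj j h2
    subst h5
    rfl

theorem pos_mk (C : Pl Y a N) (y : Y.X) (b : Bool) :
    pos Y a N b (mk Y a N C y b) = ((C.1 y).val : ℤ) := by
  cases b <;> rfl

theorem YE_lt (b : Bool) (f f' : Fib Y a N b) (h : YE Y a N b b f f')
    (hc : cd Y a N b f = cd Y a N b f') :
    pos Y a N b f < pos Y a N b f' ∧ ∀ j, fk Y a N j b f < fk Y a N j b f' := by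
  cases b
  · exact h.elim
  · obtain ⟨C, y⟩ := f
    obtain ⟨C', y'⟩ := f'
    have h3 : C = C' := code_inj Y a N hc
    subst h3
    have h4 : Y.E y y' := h
    refine ⟨?_, fun j => Y.lt _ _ h4 j⟩
    have h5 := C.2 y y' (Y.lt _ _ h4 a)
    show ((C.1 y).val : ℤ) < ((C.1 y').val : ℤ)
    exact_mod_cast h5

theorem YE_cov (b : Bool) (f f' g : Fib Y a N b) (h : YE Y a N b b f f')
    (hc : cd Y a N b f = cd Y a N b f') (hg : cd Y a N b g = cd Y a N b f)
    (j₀ : Fin (e + 1)) (hj₀ : j₀ ≠ a)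
    (h1 : ∀ j, j ≠ a → fk Y a N j b f < fk Y a N j b g ∧ fk Y a N j b g < fk Y a N j b f')
    (h2 : pos Y a N b f ≤ pos Y a N b g) (h3 : pos Y a N b g ≤ pos Y a N b f') : False := by
  cases b
  · exact h.elim
  · obtain ⟨C, y⟩ := f
    obtain ⟨C', y'⟩ := f'
    obtain ⟨D, v⟩ := g
    have h4 : C = C' := code_inj Y a N hc
    subst h4
    have h5 : D = C := code_inj Y a N hg
    subst h5
    have hE : Y.E y y' := h
    have e1 : v ≠ y := by
      rintro rfl
      have : Y.key j₀ v < Y.key j₀ v := (h1 j₀ hj₀).1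
      omega
    have e2 : v ≠ y' := by
      rintro rfl
      have : Y.key j₀ v < Y.key j₀ v := (h1 j₀ hj₀).2
      omega
    have h2' : ((D.1 y).val : ℤ) ≤ ((D.1 v).val : ℤ) := h2
    have h3' : ((D.1 v).val : ℤ) ≤ ((D.1 y').val : ℤ) := h3
    refine Y.cov y y' v hE (fun j => ?_) (fun j => ?_)
    · by_cases hj : j = a
      · subst hj
        rcases lt_trichotomy (Y.key j y) (Y.key j v) with h6 | h6 | h6
        · exact h6
        · exact absurd (Y.inj j h6).symm e1
        · have h7 := D.2 _ _ h6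
          have h8 : (D.1 v).val < (D.1 y).val := h7
          omega
      · exact (h1 j hj).1
    · by_cases hj : j = a
      · subst hj
        rcases lt_trichotomy (Y.key j v) (Y.key j y') with h6 | h6 | h6
        · exact h6
        · exact absurd (Y.inj j h6) e2
        · have h7 := D.2 _ _ h6
          have h8 : (D.1 y').val < (D.1 v).val := h7
          omega
      · exact (h1 j hj).2

end

section
variable (W Y : Sys e) (a : Fin (e + 1)) (N : ℕ)

abbrev PX : Type := Σ w : W.X, Fib Y a N (W.side w)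

variable {W Y a N}

def tA (j : Fin (e + 1)) (x : PX W Y a N) : ℤ := if j = a then pos Y a N _ x.2 else 0
def tB (j : Fin (e + 1)) (x : PX W Y a N) : ℤ := W.key j x.1
noncomputable def tC (j : Fin (e + 1)) (x : PX W Y a N) : ℤ :=
  if j = 0 then cd Y a N _ x.2 else - cd Y a N _ x.2
def tD (j : Fin (e + 1)) (x : PX W Y a N) : ℤ := fk Y a N j _ x.2

/-- the lexicographic relation -/
def lexlt (j : Fin (e + 1)) (x x' : PX W Y a N) : Prop :=
  tA j x < tA j x' ∨ tA j x = tA j x' ∧ (tB j x < tB j x' ∨ tB j x = tB j x' ∧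
    (tC j x < tC j x' ∨ tC j x = tC j x' ∧ tD j x < tD j x'))

instance : Finite (PX W Y a N) := by
  have := W.fin
  unfold PX
  infer_instance

theorem exists_pkey (j : Fin (e + 1)) : ∃ g : PX W Y a N → ℤ,
    ∀ x x', g x < g x' ↔ lexlt j x x' := by
  obtain ⟨g, hg, -⟩ := exists_rank (κ := ℤ ×ₗ ℤ ×ₗ ℤ ×ₗ ℤ) (fun x : PX W Y a N =>
    toLex (tA j x, toLex (tB j x, toLex (tC j x, tD j x))))
  refine ⟨fun x => g x, fun x x' => ?_⟩
  simp only [Nat.cast_lt]
  rw [hg]
  simp only [Prod.Lex.lt_iff, lexlt, ofLex_toLex]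

noncomputable def pkey (j : Fin (e + 1)) : PX W Y a N → ℤ := Classical.choose (exists_pkey j)

theorem pkey_lt (j : Fin (e + 1)) (x x' : PX W Y a N) :
    pkey j x < pkey j x' ↔ lexlt j x x' := Classical.choose_spec (exists_pkey j) x x'

theorem pkey_inj (j : Fin (e + 1)) : Injective (pkey (W := W) (Y := Y) (a := a) (N := N) j) := by
  intro x x' h
  have h1 := (pkey_lt j x x').not.1 (by omega)
  have h2 := (pkey_lt j x' x).not.1 (by omega)
  unfold lexlt at h1 h2
  have hA : tA j x = tA j x' := by omega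
  have hB : tB j x = tB j x' := by omega
  have hC : tC j x = tC j x' := by omega
  have hD : tD j x = tD j x' := by omega
  obtain ⟨w, f⟩ := x
  obtain ⟨w', f'⟩ := x'
  have hw : w = w' := W.inj j hB
  subst hw
  have hC' : cd Y a N _ f = cd Y a N _ f' := by
    unfold tC at hC
    split_ifs at hC
    · exact hC
    · simpa using hC
  rw [F2 j _ f f' hC' hD]

def PE (x x' : PX W Y a N) : Prop :=
  (W.E x.1 x'.1 ∧ pos Y a N _ x.2 = pos Y a N _ x'.2 ∧
    (W.side x.1 = W.side x'.1 → cd Y a N _ x.2 = cd Y a N _ x'.2)) ∨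
  (x.1 = x'.1 ∧ cd Y a N _ x.2 = cd Y a N _ x'.2 ∧ YE Y a N _ _ x.2 x'.2)

theorem tA_eq {x x' : PX W Y a N} (h : pos Y a N _ x.2 = pos Y a N _ x'.2) (j : Fin (e + 1)) :
    tA j x = tA j x' := by
  unfold tA
  rw [h]

theorem PE_lt (x x' : PX W Y a N) (h : PE x x') (j : Fin (e + 1)) : pkey j x < pkey j x' := by
  rw [pkey_lt]
  rcases h with ⟨h1, h2, -⟩ | ⟨h1, h2, h3⟩
  · exact Or.inr ⟨tA_eq h2 j, Or.inl (W.lt _ _ h1 j)⟩
  · obtain ⟨w, f⟩ := x
    obtain ⟨w', f'⟩ := x'
    have hw : w = w' := h1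
    subst hw
    have h4 := YE_lt _ f f' h3 h2
    by_cases hj : j = a
    · left
      unfold tA
      rw [if_pos hj, if_pos hj]
      exact h4.1
    · refine Or.inr ⟨?_, Or.inr ⟨rfl, Or.inr ⟨?_, h4.2 j⟩⟩⟩
      · unfold tA
        rw [if_neg hj, if_neg hj]
      · unfold tC
        have h2' : cd Y a N _ f = cd Y a N _ f' := h2
        simp only [h2']

theorem exists_ne (he : 0 < e) (a : Fin (e + 1)) : ∃ j : Fin (e + 1), j ≠ a := by
  by_cases h : a = 0
  · refine ⟨Fin.last e, ?_⟩
    intro h'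
    rw [h] at h'
    have := congrArg Fin.val h'
    simp at this
    omega
  · exact ⟨0, fun h' => h h'.symm⟩

theorem tC_eq (he : 0 < e) {x x' z z' : PX W Y a N} 
    (h : ∀ j, tC j x ≤ tC j z) : cd Y a N _ x.2 = cd Y a N _ z.2 := by
  have h1 := h 0
  have h2 := h (Fin.last e)
  have hne : Fin.last e ≠ 0 := by
    intro h'
    have := congrArg Fin.val h'
    simp at this
    omega
  unfold tC at h1 h2
  rw [if_pos rfl, if_pos rfl] at h1
  rw [if_neg hne, if_neg hne] at h2
  omega

theorem PE_cov (he : 0 < e) (x x' z : PX W Y a N) (h : PE x x') (h1 : ∀ j, pkey j x < pkey j z)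
    (h2 : ∀ j, pkey j z < pkey j x') : False := by
  simp only [pkey_lt] at h1 h2
  obtain ⟨w, f⟩ := x
  obtain ⟨w', f'⟩ := x'
  obtain ⟨v, g⟩ := z
  rcases h with ⟨hE, hp, hs⟩ | ⟨hw, hc, hY⟩
  · have hpg : pos Y a N _ g = pos Y a N _ f := by
      have ha := h1 a
      have hb := h2 a
      unfold lexlt tA at ha hb
      simp only [if_pos] at ha hb
      have hp' : pos Y a N _ f = pos Y a N _ f' := hp
      omega
    have hA1 : ∀ j, tA j (⟨v, g⟩ : PX W Y a N) = tA j ⟨w, f⟩ := fun j => tA_eq hpg j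
    have hA2 : ∀ j, tA j (⟨w, f⟩ : PX W Y a N) = tA j ⟨w', f'⟩ := fun j => tA_eq hp j
    by_cases hvw : v = w
    · subst hvw
      have hcc : cd Y a N _ f = cd Y a N _ g :=
        tC_eq he (x := ⟨v, f⟩) (z := ⟨v, g⟩) (x' := ⟨v, f⟩) (z' := ⟨v, f⟩) (fun j => by
          have h3 := h1 j
          have h4 := hA1 j
          unfold lexlt at h3
          have h5 : tB j (⟨v, f⟩ : PX W Y a N) = tB j ⟨v, g⟩ := rfl
          omega)
      have := F1 _ f g hpg.symm hcc
      subst this
      have h3 := h1 0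
      rw [← pkey_lt] at h3
      omega
    · by_cases hvw' : v = w'
      · subst hvw'
        have hcc : cd Y a N _ g = cd Y a N _ f' :=
          tC_eq he (x := ⟨v, g⟩) (z := ⟨v, f'⟩) (x' := ⟨v, g⟩) (z' := ⟨v, g⟩) (fun j => by
            have h3 := h2 j
            have h4 := hA1 j
            have h4' := hA2 j
            unfold lexlt at h3
            have h5 : tB j (⟨v, f'⟩ : PX W Y a N) = tB j ⟨v, g⟩ := rfl
            omega)
        have := F1 _ g f' (hpg.trans hp) hcc
        subst this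
        have h3 := h2 0
        rw [← pkey_lt] at h3
        omega
      · refine W.cov w w' v hE (fun j => ?_) (fun j => ?_)
        · have h3 := h1 j
          have h4 := hA1 j
          unfold lexlt at h3
          rcases lt_trichotomy (W.key j w) (W.key j v) with h5 | h5 | h5
          · exact h5
          · exact absurd (W.inj j h5).symm hvw
          · have h6 : tB j (⟨v, g⟩ : PX W Y a N) < tB j ⟨w, f⟩ := h5
            omega
        · have h3 := h2 j
          have h4 := hA1 j
          have h4' := hA2 j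
          unfold lexlt at h3
          rcases lt_trichotomy (W.key j v) (W.key j w') with h5 | h5 | h5
          · exact h5
          · exact absurd (W.inj j h5) hvw'
          · have h6 : tB j (⟨w', f'⟩ : PX W Y a N) < tB j ⟨v, g⟩ := h5
            omega
  · have hw' : w = w' := hw
    subst hw'
    obtain ⟨j₀, hj₀⟩ := exists_ne he a
    have hA : ∀ j, j ≠ a → ∀ x : PX W Y a N, tA j x = 0 := by
      intro j hj x
      unfold tA
      rw [if_neg hj]
    have hv : v = w := by
      apply W.inj j₀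
      have h3 := h1 j₀
      have h4 := h2 j₀
      unfold lexlt at h3 h4
      have := hA j₀ hj₀ ⟨w, f⟩
      have := hA j₀ hj₀ ⟨w, f'⟩
      have := hA j₀ hj₀ ⟨v, g⟩
      have e1 : tB j₀ (⟨v, g⟩ : PX W Y a N) = W.key j₀ v := rfl
      have e2 : tB j₀ (⟨w, f⟩ : PX W Y a N) = W.key j₀ w := rfl
      have e3 : tB j₀ (⟨w, f'⟩ : PX W Y a N) = W.key j₀ w := rfl
      omega
    subst hv
    have hc' : cd Y a N _ f = cd Y a N _ f' := hc
    have hCC : ∀ j, tC j (⟨v, f⟩ : PX W Y a N) = tC j ⟨v, f'⟩ := by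
      intro j
      unfold tC
      simp only [hc']
    have hcg : cd Y a N _ g = cd Y a N _ f := by
      have h3 := h1 j₀
      have h4 := h2 j₀
      unfold lexlt at h3 h4
      have := hA j₀ hj₀ ⟨v, f⟩
      have := hA j₀ hj₀ ⟨v, f'⟩
      have := hA j₀ hj₀ ⟨v, g⟩
      have e1 : tB j₀ (⟨v, g⟩ : PX W Y a N) = W.key j₀ v := rfl
      have e2 : tB j₀ (⟨v, f⟩ : PX W Y a N) = W.key j₀ v := rfl
      have e3 : tB j₀ (⟨v, f'⟩ : PX W Y a N) = W.key j₀ v := rfl
      have e4 := hCC j₀
      have e5 : tC j₀ (⟨v, g⟩ : PX W Y a N) = tC j₀ ⟨v, f⟩ := by omega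
      unfold tC at e5
      split_ifs at e5
      · exact e5
      · simpa using e5
    have hCg : ∀ j, tC j (⟨v, g⟩ : PX W Y a N) = tC j ⟨v, f⟩ := by
      intro j
      unfold tC
      simp only [hcg]
    refine YE_cov _ f f' g hY hc hcg j₀ hj₀ (fun j hj => ?_) ?_ ?_
    · have h3 := h1 j
      have h4 := h2 j
      unfold lexlt at h3 h4
      have := hA j hj ⟨v, f⟩
      have := hA j hj ⟨v, f'⟩
      have := hA j hj ⟨v, g⟩
      have e1 : tB j (⟨v, g⟩ : PX W Y a N) = W.key j v := rfl
      have e2 : tB j (⟨v, f⟩ : PX W Y a N) = W.key j v := rfl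
      have e3 : tB j (⟨v, f'⟩ : PX W Y a N) = W.key j v := rfl
      have e4 := hCC j
      have e5 := hCg j
      have e6 : tD j (⟨v, g⟩ : PX W Y a N) = fk Y a N j _ g := rfl
      have e7 : tD j (⟨v, f⟩ : PX W Y a N) = fk Y a N j _ f := rfl
      have e8 : tD j (⟨v, f'⟩ : PX W Y a N) = fk Y a N j _ f' := rfl
      omega
    · have h3 := h1 a
      unfold lexlt tA at h3
      simp only [if_pos] at h3
      omega
    · have h3 := h2 a
      unfold lexlt tA at h3
      simp only [if_pos] at h3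
      omega

end

/-- the amalgamated system -/
@[reducible] noncomputable def Phi (he : 0 < e) (W Y : Sys e) (a : Fin (e + 1)) (N : ℕ) : Sys e where
  X := PX W Y a N
  fin := inferInstance
  side x := W.side x.1
  key j := pkey j
  inj j := pkey_inj j
  E := PE
  lt x y h j := PE_lt x y h j
  cov x y z h h1 h2 := PE_cov he x y z h h1 h2

/-- the point of the amalgam determined by a placement and points of both factors -/
def vx {W Y : Sys e} {a : Fin (e + 1)} {N : ℕ} (C : Pl Y a N) (y : Y.X) (w : W.X) : PX W Y a N :=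
  ⟨w, mk Y a N C y (W.side w)⟩

section
variable {W Y : Sys e} {a : Fin (e + 1)} {N : ℕ}

theorem vx_E (C : Pl Y a N) (y : Y.X) {w w' : W.X} (h : W.E w w') : PE (vx C y w) (vx C y w') := by
  left
  refine ⟨h, ?_, fun hs => ?_⟩
  · show pos Y a N _ (mk Y a N C y (W.side w)) = pos Y a N _ (mk Y a N C y (W.side w'))
    rw [pos_mk, pos_mk]
  · show cd Y a N _ (mk Y a N C y (W.side w)) = cd Y a N _ (mk Y a N C y (W.side w'))
    have hs' : W.side w = W.side w' := hs
    rw [hs']

theorem vx_key (C : Pl Y a N) (y : Y.X) {w w' : W.X} {j : Fin (e + 1)}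
    (h : W.key j w < W.key j w') : pkey j (vx C y w) < pkey j (vx C y w') := by
  rw [pkey_lt]
  refine Or.inr ⟨tA_eq ?_ j, Or.inl h⟩
  show pos Y a N _ (mk Y a N C y (W.side w)) = pos Y a N _ (mk Y a N C y (W.side w'))
  rw [pos_mk, pos_mk]

theorem vx_inj (C : Pl Y a N) (y : Y.X) {w w' : W.X} (h : w ≠ w') : vx C y w ≠ vx C y w' :=
  fun hh => h (congrArg Sigma.fst hh)

theorem cd_true {b : Bool} (hb : b = true) (C : Pl Y a N) (y : Y.X) :
    cd Y a N b (mk Y a N C y b) = code Y a N C := by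
  subst hb
  rfl

theorem fk_true {b : Bool} (hb : b = true) (C : Pl Y a N) (y : Y.X) (j : Fin (e + 1)) :
    fk Y a N j b (mk Y a N C y b) = Y.key j y := by
  subst hb
  rfl

theorem YE_true {b : Bool} (hb : b = true) (C : Pl Y a N) {y y' : Y.X} (h : Y.E y y') :
    YE Y a N b b (mk Y a N C y b) (mk Y a N C y' b) := by
  subst hb
  exact h

theorem vy_E (C : Pl Y a N) {w : W.X} (hw : W.side w = true) {y y' : Y.X} (h : Y.E y y') :
    PE (vx C y w) (vx C y' w) := by
  right
  refine ⟨rfl, ?_, YE_true hw C h⟩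
  show cd Y a N _ (mk Y a N C y (W.side w)) = cd Y a N _ (mk Y a N C y' (W.side w))
  rw [cd_true hw, cd_true hw]

theorem vy_key (C : Pl Y a N) {w : W.X} (hw : W.side w = true) {y y' : Y.X} {j : Fin (e + 1)}
    (h : Y.key j y < Y.key j y') : pkey j (vx C y w) < pkey j (vx C y' w) := by
  rw [pkey_lt]
  by_cases hj : j = a
  · left
    unfold tA
    rw [if_pos hj, if_pos hj]
    show pos Y a N _ (mk Y a N C y (W.side w)) < pos Y a N _ (mk Y a N C y' (W.side w))
    rw [pos_mk, pos_mk]
    subst hj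
    have := C.2 _ _ h
    exact_mod_cast this
  · right
    refine ⟨?_, Or.inr ⟨rfl, Or.inr ⟨?_, ?_⟩⟩⟩
    · unfold tA
      rw [if_neg hj, if_neg hj]
    · unfold tC vx
      simp only [cd_true hw]
    · unfold tD vx
      simp only [fk_true hw]
      exact h

theorem vy_inj (C : Pl Y a N) {w : W.X} {y y' : Y.X} (h : y ≠ y') : vx C y w ≠ vx C y' w := by
  intro hh
  apply h
  have h1 : pos Y a N (W.side w) (mk Y a N C y (W.side w)) =
      pos Y a N (W.side w) (mk Y a N C y' (W.side w)) := by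
    have h2 : mk Y a N C y (W.side w) = mk Y a N C y' (W.side w) := by
      unfold vx at hh
      simpa using hh
    rw [h2]
  rw [pos_mk, pos_mk] at h1
  exact C.inj (Fin.ext (by exact_mod_cast h1))

/-- moving the placement down raises the point in the orders which use the negated code -/
theorem v_low (C C' : Pl Y a N) {w : W.X} (hw : W.side w = true) (y y' : Y.X) {j : Fin (e + 1)}
    (hj : j ≠ a) (hj0 : j ≠ 0) (hle : ∀ t, C'.1 t ≤ C.1 t) (hne : C' ≠ C) :
    pkey j (vx C y w) < pkey j (vx C' y' w) := by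
  rw [pkey_lt]
  right
  refine ⟨?_, Or.inr ⟨rfl, Or.inl ?_⟩⟩
  · unfold tA
    rw [if_neg hj, if_neg hj]
  · unfold tC vx
    simp only [cd_true hw]
    rw [if_neg hj0, if_neg hj0]
    have h1 := code_le hle
    have h2 : code Y a N C' ≠ code Y a N C := fun h => hne (code_inj Y a N h)
    omega

theorem vx_low (C C' : Pl Y a N) {w : W.X} (hw : W.side w = false) {y y' : Y.X}
    (h : C.1 y = C'.1 y') : vx C y w = vx C' y' w := by
  unfold vx
  congr 1
  generalize W.side w = b at hw
  subst hw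
  exact h

end

end Pool.Agent.R67.CR
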