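import Pool.Agent.R67.CR2
import Pool.Agent.R67.Ram

/-!
# Homogeneous worlds and the two steps
-/

set_option autoImplicit false

namespace Pool.Agent.R67.CR

open Finset Function

variable {e r : ℕ}

theorem ramsey_fin (κ : Type) [Fintype κ] [Nonempty κ] (n q : ℕ) :
    ∃ N : ℕ, ∀ col : Finset ℕ → κ, ∃ T ⊆ range N, T.card = q ∧
      ∃ k, ∀ A ⊆ T, A.card = n → col A = k := by
  obtain ⟨N, hN⟩ := ramsey_gen κ n q
  refine ⟨N, fun col => ?_⟩
  obtain ⟨T, hT, hTc, k, hk⟩ := hN (range N) (fun l => col l.toFinset) (by rw [card_range])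
  refine ⟨T, hT, hTc, k, fun A hA hAc => ?_⟩
  have h := hk (A.sort (· ≤ ·)) (by rw [Finset.length_sort, hAc]) (A.sortedLT_sort).pairwise
    (fun x hx => hA ((Finset.mem_sort _).1 hx))
  simpa using h

def Pl.map {Y : Sys e} {a : Fin (e + 1)} {q N : ℕ} (h : Fin q → Fin N) (hm : StrictMono h)
    (σ : Pl Y a q) : Pl Y a N :=
  ⟨fun y => h (σ.1 y), fun y y' hy => hm (σ.2 y y' hy)⟩

theorem hom (κ : Type) [Finite κ] (Y : Sys e) (a : Fin (e + 1)) (q : ℕ) :
    ∃ N : ℕ, ∀ info : Pl Y a N → κ, ∃ h : Fin q → Fin N, ∃ hm : StrictMono h,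
      ∀ σ σ' : Pl Y a q, info (σ.map h hm) = info (σ'.map h hm) := by
  classical
  have := Y.fin
  have := Fintype.ofFinite κ
  let fY : Fintype Y.X := Fintype.ofFinite Y.X
  obtain ⟨N, hN⟩ := ramsey_fin (Option κ) (Fintype.card Y.X) q
  refine ⟨N, fun info => ?_⟩
  let imgs : Pl Y a N → Finset ℕ := fun C => univ.image (fun y => (C.1 y).val)
  have himgs : Injective imgs := by
    intro C C' hCC
    let lY : LinearOrder Y.X := LinearOrder.lift' (Y.key a) (Y.inj a)
    have m1 : ∀ D : Pl Y a N, StrictMono (fun y => (D.1 y).val) := by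
      intro D y y' hy
      exact D.2 y y' hy
    have h1 : Set.range (fun y => (C.1 y).val) = Set.range (fun y => (C'.1 y).val) := by
      have h2 : ((imgs C : Finset ℕ) : Set ℕ) = (imgs C' : Finset ℕ) := by rw [hCC]
      simpa [imgs] using h2
    have h3 := ((m1 C).range_inj (m1 C')).1 h1
    apply Subtype.ext
    funext y
    exact Fin.ext (congrFun h3 y)
  obtain ⟨T, hT, hTc, k, hk⟩ := hN (fun A => if hA : ∃ C, imgs C = A then
    some (info (Classical.choose hA)) else none)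
  have hcol : ∀ C, imgs C ⊆ T → some (info C) = k := by
    intro C hC
    have h1 : (imgs C).card = Fintype.card Y.X := by
      rw [card_image_of_injective, card_univ]
      intro y y' h
      exact C.inj (Fin.ext h)
    have h2 := hk (imgs C) hC h1
    have h3 : ∃ C', imgs C' = imgs C := ⟨C, rfl⟩
    rw [dif_pos h3, himgs (Classical.choose_spec h3)] at h2
    exact h2
  refine ⟨fun i => ⟨T.orderEmbOfFin hTc i, mem_range.1 (hT (orderEmbOfFin_mem _ _ _))⟩,
    fun i j hij => (T.orderEmbOfFin hTc).strictMono hij, fun σ σ' => ?_⟩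
  have key : ∀ σ : Pl Y a q, ∀ hm, imgs (σ.map (fun i => ⟨T.orderEmbOfFin hTc i,
      mem_range.1 (hT (orderEmbOfFin_mem _ _ _))⟩) hm) ⊆ T := by
    intro σ hm x hx
    obtain ⟨y, -, rfl⟩ := mem_image.1 hx
    exact orderEmbOfFin_mem _ _ _
  have h1 := hcol _ (key σ (fun i j hij => (T.orderEmbOfFin hTc).strictMono hij))
  have h2 := hcol _ (key σ' (fun i j hij => (T.orderEmbOfFin hTc).strictMono hij))
  exact Option.some_injective _ (h1.trans h2.symm)

theorem hom_world (he : 0 < e) (fl : Fin r → Bool) (W Y : Sys e) (a : Fin (e + 1)) (M q : ℕ) :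
    ∃ N : ℕ, ∀ ω : World (Phi he W Y a N) fl (Fin M), ∃ h : Fin q → Fin N, ∃ hm : StrictMono h,
      ∀ σ σ' : Pl Y a q,
        (∀ y w, ω.c (vx (σ.map h hm) y w) = ω.c (vx (σ'.map h hm) y w)) ∧
        (∀ y w y' w', ω.φ (vx (σ.map h hm) y w) (vx (σ.map h hm) y' w') =
          ω.φ (vx (σ'.map h hm) y w) (vx (σ'.map h hm) y' w')) ∧
        (∀ α k y w y' w', ω.L α k (vx (σ.map h hm) y w) < ω.L α k (vx (σ.map h hm) y' w') →
          ω.L α k (vx (σ'.map h hm) y w) < ω.L α k (vx (σ'.map h hm) y' w')) := by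
  have := Y.fin
  have := W.fin
  have i0 : Finite (Y.X → W.X → Prop) := inferInstance
  have i1 : Finite (Y.X → W.X → Y.X → W.X → Prop) := inferInstance
  have i2 : Finite (Fin r → Fin e → Y.X → W.X → Y.X → W.X → Prop) := inferInstance
  have i3 : Finite (Y.X → W.X → Fin r) := inferInstance
  have i4 : Finite (Y.X → W.X → Y.X → W.X → Fin r) := inferInstance
  obtain ⟨N, hN⟩ := hom ((Y.X → W.X → Fin M) × (Y.X → W.X → Y.X → W.X → Fin r) ×
    (Fin r → Fin e → Y.X → W.X → Y.X → W.X → Prop)) Y a q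
  refine ⟨N, fun ω => ?_⟩
  obtain ⟨h, hm, hh⟩ := hN (fun C => (fun y w => ω.c (vx C y w),
    fun y w y' w' => ω.φ (vx C y w) (vx C y' w'),
    fun α k y w y' w' => ω.L α k (vx C y w) < ω.L α k (vx C y' w')))
  refine ⟨h, hm, fun σ σ' => ?_⟩
  have h1 := hh σ σ'
  rw [Prod.mk.injEq, Prod.mk.injEq] at h1
  obtain ⟨h1, h2, h3⟩ := h1
  refine ⟨fun y w => congrFun (congrFun h1 y) w,
    fun y w y' w' => congrFun (congrFun (congrFun (congrFun h2 y) w) y') w',
    fun α k y w y' w' h4 => ?_⟩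
  have h5 := congrFun (congrFun (congrFun (congrFun (congrFun (congrFun h3 α) k) y) w) y') w'
  exact h5.mp h4

def Pl.of {Y : Sys e} {a : Fin (e + 1)} {q n : ℕ} (rk : Y.X → ℕ)
    (hrk : ∀ y y', rk y < rk y' ↔ Y.key a y < Y.key a y') (hn : ∀ y, rk y < n) (τ : ℕ → ℕ)
    (h1 : ∀ t t', t < t' → t' < n → τ t < τ t') (h2 : ∀ t, t < n → τ t < q) : Pl Y a q :=
  ⟨fun y => ⟨τ (rk y), h2 _ (hn y)⟩, fun y y' h => h1 _ _ ((hrk y y').2 h) (hn y')⟩

/-- the system with one edge -/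
@[reducible] def base (e : ℕ) : Sys e where
  X := Bool
  fin := inferInstance
  side := id
  key _ b := if b = true then 1 else 0
  inj j x y h := by
    revert h
    cases x <;> cases y <;> simp
  E x y := x = false ∧ y = true
  lt x y h j := by
    rw [h.1, h.2]
    simp
  cov x y z h h1 h2 := by
    have h3 := h1 0
    have h4 := h2 0
    rw [h.1] at h3
    rw [h.2] at h4
    revert h3 h4
    cases z <;> simp

theorem step0 (he : 0 < e) (fl : Fin r → Bool) (Y : Sys e) (k : Fin r → ℕ) (M : ℕ)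
    (hY : IsGood Y fl k M) : ∃ W : Sys e, IsCl W fl k (M + 1) 0 := by
  classical
  have := Y.fin
  obtain ⟨rk, hrk, hn⟩ := exists_rank (Y.key 0)
  set n := Nat.card Y.X with hndef
  obtain ⟨N, hN⟩ := hom_world he fl (base e) Y 0 (M + 1) (4 * n + 1)
  refine ⟨Phi he (base e) Y 0 N, fun ω => ?_⟩
  obtain ⟨h, hm, hh⟩ := hN ω
  set C₀ : Pl Y 0 N := (Pl.of rk hrk hn (fun t => t) (fun t t' h _ => h)
    (fun t ht => by omega) : Pl Y 0 (4 * n + 1)).map h hm with hC₀
  have hcst : ∀ y y', ω.c (vx C₀ y false) = ω.c (vx C₀ y' false) := by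
    intro y y'
    have e1 := (hh (Pl.of rk hrk hn (fun t => t) (fun t t' h _ => h) (fun t ht => by omega))
      (Pl.of rk hrk hn (fun t => t + rk y') (fun t t' h _ => by omega)
        (fun t ht => by have := hn y'; omega))).1 y false
    have e2 := (hh (Pl.of rk hrk hn (fun t => t) (fun t t' h _ => h) (fun t ht => by omega))
      (Pl.of rk hrk hn (fun t => t + rk y) (fun t t' h _ => by omega)
        (fun t ht => by have := hn y; omega))).1 y' false
    rw [e1, e2]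
    congr 1
    apply vx_low _ _ rfl
    show h ⟨rk y + rk y', _⟩ = h ⟨rk y' + rk y, _⟩
    congr 2
    omega
  by_cases hex : ∃ y, ω.c (vx C₀ y false) = ω.c (vx C₀ y true)
  · obtain ⟨y, hy⟩ := hex
    exact Or.inr ⟨vx C₀ y false, vx C₀ y true, rfl, rfl, vx_E C₀ y ⟨rfl, rfl⟩, hy,
      fun ρ hρ => absurd hρ (Nat.not_lt_zero _)⟩
  · left
    obtain ⟨μ, hμ⟩ : ∃ μ, ∀ y, ω.c (vx C₀ y false) = μ := by
      rcases isEmpty_or_nonempty Y.X with hE | ⟨⟨y₀⟩⟩
      · exact ⟨0, fun y => (hE.false y).elim⟩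
      · exact ⟨_, fun y => hcst y y₀⟩
    have hne : ∀ y, ω.c (vx C₀ y true) ≠ μ := fun y hy => hex ⟨y, (hμ y).trans hy.symm⟩
    let c' : Y.X → {x : Fin (M + 1) // x ≠ μ} := fun y => ⟨ω.c (vx C₀ y true), hne y⟩
    let f : Y.X → (Phi he (base e) Y 0 N).X := fun y => vx (W := base e) C₀ y true
    have hcomp : ∀ y y', c' y = c' y' → ω.c (f y) = ω.c (f y') ∧
        (y ≠ y' → f y ≠ f y') ∧
        (Y.E y y' → (Phi he (base e) Y 0 N).E (f y) (f y')) ∧
        ∀ j, Y.key j y < Y.key j y' → (Phi he (base e) Y 0 N).key j (f y) <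
          (Phi he (base e) Y 0 N).key j (f y') := fun y y' hc =>
      ⟨congrArg Subtype.val hc, fun hne => vy_inj (W := base e) (w := true) C₀ hne,
        fun hE => vy_E C₀ rfl hE, fun j hj => vy_key C₀ rfl hj⟩
    have hcard : Nat.card {x : Fin (M + 1) // x ≠ μ} ≤ M := by
      rw [Nat.card_eq_fintype_card]
      simp [Fintype.card_subtype_compl]
    obtain ⟨α, hα⟩ := hY.use hcard (ω.pull f c' hcomp)
    exact ⟨α, conf_pull ω _ _ hcomp α _ hα⟩

/-- the step when the new colour needs one edge only -/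
theorem stepOne (fl : Fin r → Bool) (W : Sys e) (k : Fin r → ℕ) (M n : ℕ) (hn : n < r)
    (hk : k ⟨n, hn⟩ = 1) (hW : IsCl W fl k M n) : IsCl W fl k M (n + 1) := by
  intro ω
  rcases hW ω with h | ⟨l, u, hl, hu, hE, hc, hφ⟩
  · exact Or.inl h
  · by_cases hρ : ω.φ l u = ⟨n, hn⟩
    · left
      refine ⟨⟨n, hn⟩, ?_⟩
      rw [hk]
      right
      cases hf : fl ⟨n, hn⟩
      · exact Or.inr ⟨rfl, l, u, hE, hc, hρ, ∅, rfl, fun l hl => absurd hl (notMem_empty l)⟩
      · exact Or.inl ⟨rfl, l, u, hE, hc, hρ, ∅, rfl, fun l hl => absurd hl (notMem_empty l)⟩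
    · right
      refine ⟨l, u, hl, hu, hE, hc, fun ρ hρn hh => ?_⟩
      rcases Nat.lt_succ_iff_lt_or_eq.1 hρn with h1 | h1
      · exact hφ ρ h1 hh
      · exact hρ (hh.trans (Fin.ext h1))

end Pool.Agent.R67.CR
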