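import Pool.Agent.R67.CR3

/-!
# The main step
-/

set_option autoImplicit false

namespace Pool.Agent.R67.CR

open Finset Function

variable {e r : ℕ}

theorem stepUc (he : 0 < e) (fl : Fin r → Bool) (W Y : Sys e) (k : Fin r → ℕ) (M n m : ℕ)
    (hn : n < r) (hf : fl ⟨n, hn⟩ = true) (hk : k ⟨n, hn⟩ = m + 1) (hm : 0 < m)
    (hW : IsCl W fl k M n)
    (hY : IsGood Y fl (update k ⟨n, hn⟩ m) (Nat.card (W.X × W.X × Fin M))) :
    ∃ W' : Sys e, IsCl W' fl k M (n + 1) := by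
  classical
  have := Y.fin
  have := W.fin
  obtain ⟨a, ha⟩ : ∃ a : Fin (e + 1), a.val = min (m - 1) e := ⟨⟨min (m - 1) e, by omega⟩, rfl⟩
  obtain ⟨rk, hrk, hnn⟩ := exists_rank (Y.key a)
  obtain ⟨N, hN⟩ := hom_world he fl W Y a M (4 * Nat.card Y.X + 1)
  refine ⟨Phi he W Y a N, fun ω => ?_⟩
  obtain ⟨h, hmo, hh⟩ := hN ω
  by_cases hfull : ∃ α, Conf ω α (k α)
  · exact Or.inl hfull
  let σ₀ : Pl Y a (4 * Nat.card Y.X + 1) := Pl.of rk hrk hnn (fun t => t) (fun t t' h _ => h)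
    (fun t ht => by omega)
  have hex : ∀ y, ∃ l u, W.side l = false ∧ W.side u = true ∧ W.E l u ∧
      ω.c (vx (σ₀.map h hmo) y l) = ω.c (vx (σ₀.map h hmo) y u) ∧
      ∀ ρ' : Fin r, ρ'.val < n →
        ω.φ (vx (σ₀.map h hmo) y l) (vx (σ₀.map h hmo) y u) ≠ ρ' := by
    intro y
    let f : W.X → (Phi he W Y a N).X := fun w => vx (σ₀.map h hmo) y w
    have hcomp : ∀ w w', ω.c (f w) = ω.c (f w') → ω.c (f w) = ω.c (f w') ∧
        (w ≠ w' → f w ≠ f w') ∧ (W.E w w' → (Phi he W Y a N).E (f w) (f w')) ∧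
        ∀ j, W.key j w < W.key j w' → (Phi he W Y a N).key j (f w) <
          (Phi he W Y a N).key j (f w') := fun w w' hc =>
      ⟨hc, fun hne => vx_inj _ y hne, fun hE => vx_E _ y hE, fun j hj => vx_key _ y hj⟩
    rcases hW (ω.pull f (fun w => ω.c (f w)) hcomp) with ⟨α, hα⟩ | ⟨l, u, hl, hu, hE, hc, hφ⟩
    · exact absurd ⟨α, conf_pull ω _ _ hcomp α _ hα⟩ hfull
    · exact ⟨l, u, hl, hu, hE, hc, hφ⟩
  choose l u hl hu hE hc hφ using hex
  by_cases hcr : ∃ y, ω.φ (vx (σ₀.map h hmo) y (l y)) (vx (σ₀.map h hmo) y (u y)) ≠ ⟨n, hn⟩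
  · obtain ⟨y, hy⟩ := hcr
    refine Or.inr ⟨vx (σ₀.map h hmo) y (l y), vx (σ₀.map h hmo) y (u y), hl y, hu y,
      vx_E _ y (hE y), hc y, fun ρ' hρ' hh => ?_⟩
    rcases Nat.lt_succ_iff_lt_or_eq.1 hρ' with h1 | h1
    · exact hφ y ρ' h1 hh
    · exact hy (hh.trans (Fin.ext h1))
  exfalso
  apply hfull
  have hcr' : ∀ y, ω.φ (vx (σ₀.map h hmo) y (l y)) (vx (σ₀.map h hmo) y (u y)) = ⟨n, hn⟩ := by
    intro y
    by_contra hne
    exact hcr ⟨y, hne⟩
  let c' : Y.X → W.X × W.X × Fin M := fun y => (l y, u y, ω.c (vx (σ₀.map h hmo) y (u y)))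
  let f : Y.X → (Phi he W Y a N).X := fun y => vx (σ₀.map h hmo) y (u y)
  have hc3 : ∀ y y', c' y = c' y' → l y = l y' ∧ u y = u y' ∧
      ω.c (vx (σ₀.map h hmo) y (u y)) = ω.c (vx (σ₀.map h hmo) y' (u y')) := by
    intro y y' hcc
    have h1 : (l y, u y, ω.c (vx (σ₀.map h hmo) y (u y))) =
      (l y', u y', ω.c (vx (σ₀.map h hmo) y' (u y'))) := hcc
    rw [Prod.mk.injEq, Prod.mk.injEq] at h1
    exact h1
  have hcomp : ∀ y y', c' y = c' y' → ω.c (f y) = ω.c (f y') ∧ (y ≠ y' → f y ≠ f y') ∧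
      (Y.E y y' → (Phi he W Y a N).E (f y) (f y')) ∧
      ∀ j, Y.key j y < Y.key j y' → (Phi he W Y a N).key j (f y) <
        (Phi he W Y a N).key j (f y') := by
    intro y y' hcc
    obtain ⟨-, h2, h3⟩ := hc3 y y' hcc
    have hfy : f y' = vx (σ₀.map h hmo) y' (u y) := by
      show vx (σ₀.map h hmo) y' (u y') = _
      rw [h2]
    refine ⟨h3, fun hne => ?_, fun hE => ?_, fun j hj => ?_⟩
    · rw [hfy]
      exact vy_inj _ hne
    · rw [hfy]
      exact vy_E _ (hu y) hE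
    · rw [hfy]
      exact vy_key _ (hu y) hj
  obtain ⟨α, hα⟩ := hY.use le_rfl (ω.pull f c' hcomp)
  by_cases hαρ : α = ⟨n, hn⟩
  swap
  · rw [update_of_ne hαρ] at hα
    exact ⟨α, conf_pull ω f c' hcomp α _ hα⟩
  subst hαρ
  rw [update_self] at hα
  refine ⟨⟨n, hn⟩, ?_⟩
  rw [hk]
  rcases hα with h0 | ⟨-, p, q, hpq, hcpq, hφpq, S, hS, hw⟩ | ⟨hf', -⟩
  · omega
  swap
  · rw [hf] at hf'
    exact absurd hf' (by simp)
  have hcq : c' q = c' p := hcpq.symm
  have A1 : ∀ (σ : Pl Y a (4 * Nat.card Y.X + 1)) (y : Y.X), c' y = c' p →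
      ω.c (vx (σ.map h hmo) y (l p)) = ω.c (vx (σ.map h hmo) y (u p)) := by
    intro σ y hy
    obtain ⟨h1, h2, -⟩ := hc3 y p hy
    rw [(hh σ σ₀).1 y (l p), (hh σ σ₀).1 y (u p), ← h1, ← h2]
    exact hc y
  have A2 : ∀ (σ : Pl Y a (4 * Nat.card Y.X + 1)) (y : Y.X), c' y = c' p →
      ω.φ (vx (σ.map h hmo) y (l p)) (vx (σ.map h hmo) y (u p)) = ⟨n, hn⟩ := by
    intro σ y hy
    obtain ⟨h1, h2, -⟩ := hc3 y p hy
    rw [(hh σ σ₀).2.1 y (l p) y (u p), ← h1, ← h2]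
    exact hcr' y
  have A3 : ∀ (σ : Pl Y a (4 * Nat.card Y.X + 1)) (y : Y.X), c' y = c' p → ∀ i,
      ω.L ⟨n, hn⟩ i (vx (σ.map h hmo) y (l p)) < ω.L ⟨n, hn⟩ i (vx (σ.map h hmo) y (u p)) :=
    fun σ y hy i => ω.lt _ i _ _ (vx_E _ y (hE p)) (A1 σ y hy) (A2 σ y hy)
  have A4 : ∀ (σ : Pl Y a (4 * Nat.card Y.X + 1)) (y : Y.X), c' y = c' p →
      ω.c (vx (σ.map h hmo) y (u p)) = ω.c (vx (σ₀.map h hmo) p (u p)) := by
    intro σ y hy
    obtain ⟨h1, h2, h3⟩ := hc3 y p hy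
    rw [(hh σ σ₀).1 y (u p), ← h3, h2]
  have hφ3 : ∀ (σ : Pl Y a (4 * Nat.card Y.X + 1)),
      ω.φ (vx (σ.map h hmo) p (u p)) (vx (σ.map h hmo) q (u p)) = ⟨n, hn⟩ := by
    intro σ
    rw [(hh σ σ₀).2.1 p (u p) q (u p)]
    have h1 : ω.φ (vx (σ₀.map h hmo) p (u p)) (vx (σ₀.map h hmo) q (u q)) = ⟨n, hn⟩ := hφpq
    rw [(hc3 q p hcq).2.1] at h1
    exact h1
  have hx1 : (vx (σ₀.map h hmo) q (l p) : PX W Y a N) ≠ vx (σ₀.map h hmo) p (u p) := by
    intro h1
    have h2 : l p = u p := congrArg Sigma.fst h1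
    have h3 := hl p
    rw [h2, hu p] at h3
    exact absurd h3 (by simp)
  obtain ⟨i₀, hi₀⟩ := ω.uc ⟨n, hn⟩ hf (vx (σ₀.map h hmo) q (l p)) (vx (σ₀.map h hmo) p (u p))
    (vx (σ₀.map h hmo) q (u p)) hx1 (vx_E _ q (hE p)) (vy_E _ (hu p) hpq) (A1 σ₀ q hcq)
    (A4 σ₀ q hcq).symm (A2 σ₀ q hcq) (hφ3 σ₀)
  have A5 : ∀ (σ : Pl Y a (4 * Nat.card Y.X + 1)),
      ω.L ⟨n, hn⟩ i₀ (vx (σ.map h hmo) p (u p)) < ω.L ⟨n, hn⟩ i₀ (vx (σ.map h hmo) q (l p)) :=
    fun σ => (hh σ₀ σ).2.2 _ _ _ _ _ _ hi₀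
  have hSe : S.card ≤ e := by
    have := card_le_univ S
    rwa [Fintype.card_fin] at this
  have ha' : a.val = m - 1 := by omega
  have A6 : ∀ (σ : Pl Y a (4 * Nat.card Y.X + 1)) (i : Fin e) (w : Y.X), c' w = c' p →
      ω.L ⟨n, hn⟩ i (f w) < ω.L ⟨n, hn⟩ i (f p) →
      ω.L ⟨n, hn⟩ i (vx (σ.map h hmo) w (u p)) < ω.L ⟨n, hn⟩ i (vx (σ.map h hmo) p (u p)) := by
    intro σ i w hwc hwL
    apply (hh σ₀ σ).2.2
    have h1 : ω.L ⟨n, hn⟩ i (vx (σ₀.map h hmo) w (u w)) <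
      ω.L ⟨n, hn⟩ i (vx (σ₀.map h hmo) p (u p)) := hwL
    rw [(hc3 w p hwc).2.1] at h1
    exact h1
  have r1 : rk p < rk q := (hrk p q).2 (Y.lt p q hpq a)
  have hnot : i₀ ∉ S := by
    intro hiS
    obtain ⟨w, hwc, hwk, hwL⟩ := hw i₀ hiS a (by omega)
    have hwc' : c' w = c' p := hwc
    have r2 : rk q < rk w := (hrk q w).2 hwk
    have r3 := hnn w
    let σ1 : Pl Y a (4 * Nat.card Y.X + 1) := Pl.of rk hrk hnn
      (fun t => if t < rk w then Nat.card Y.X - rk q + t else 3 * Nat.card Y.X - rk w + t)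
      (fun t t' h1 h2 => by
        show (if t < rk w then _ else _) < (if t' < rk w then _ else _)
        split_ifs <;> omega)
      (fun t ht => by
        show (if t < rk w then _ else _) < _
        split_ifs <;> omega)
    let σ2 : Pl Y a (4 * Nat.card Y.X + 1) := Pl.of rk hrk hnn
      (fun t => if t < rk q then Nat.card Y.X - rk p + t else 3 * Nat.card Y.X - rk q + t)
      (fun t t' h1 h2 => by
        show (if t < rk q then _ else _) < (if t' < rk q then _ else _)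
        split_ifs <;> omega)
      (fun t ht => by
        show (if t < rk q then _ else _) < _
        split_ifs <;> omega)
    have e1 : σ1.1 q = σ2.1 p := by
      apply Fin.ext
      show (if rk q < rk w then _ else _) = (if rk p < rk q then _ else _)
      rw [if_pos r2, if_pos r1]
      omega
    have e2 : σ1.1 w = σ2.1 q := by
      apply Fin.ext
      show (if rk w < rk w then _ else _) = (if rk q < rk q then _ else _)
      rw [if_neg (lt_irrefl _), if_neg (lt_irrefl _)]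
      omega
    have B1 : vx (σ1.map h hmo) q (l p) = vx (σ2.map h hmo) p (l p) :=
      vx_low _ _ (hl p) (congrArg h e1)
    have B2 : vx (σ1.map h hmo) w (l p) = vx (σ2.map h hmo) q (l p) :=
      vx_low _ _ (hl p) (congrArg h e2)
    have c1 := A3 σ1 w hwc' i₀
    have c2 := A6 σ1 i₀ w hwc' hwL
    have c3 := A5 σ1
    have c4 := A3 σ2 p rfl i₀
    have c5 := A5 σ2
    rw [B2] at c1
    rw [B1] at c3
    omega
  let σB : Pl Y a (4 * Nat.card Y.X + 1) := Pl.of rk hrk hnn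
    (fun t => if t ≤ rk p then Nat.card Y.X + t else 3 * Nat.card Y.X + t)
    (fun t t' h1 h2 => by
      show (if t ≤ rk p then _ else _) < (if t' ≤ rk p then _ else _)
      split_ifs <;> omega)
    (fun t ht => by
      show (if t ≤ rk p then _ else _) < _
      split_ifs <;> omega)
  have r4 := hnn p
  have r5 := hnn q
  let σA : Pl Y a (4 * Nat.card Y.X + 1) := Pl.of rk hrk hnn
    (fun t => if t < rk q then t else Nat.card Y.X + rk p + (t - rk q))
    (fun t t' h1 h2 => by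
      show (if t < rk q then _ else _) < (if t' < rk q then _ else _)
      split_ifs <;> omega)
    (fun t ht => by
      show (if t < rk q then _ else _) < _
      split_ifs <;> omega)
  have e3 : σA.1 q = σB.1 p := by
    apply Fin.ext
    show (if rk q < rk q then _ else _) = (if rk p ≤ rk p then _ else _)
    rw [if_neg (lt_irrefl _), if_pos le_rfl]
    omega
  have B3 : vx (σA.map h hmo) q (l p) = vx (σB.map h hmo) p (l p) :=
    vx_low _ _ (hl p) (congrArg h e3)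
  have hle : ∀ t, (σA.map h hmo).1 t ≤ (σB.map h hmo).1 t := by
    intro t
    have r6 := hnn t
    have h7 : (if rk t < rk q then rk t else Nat.card Y.X + rk p + (rk t - rk q)) ≤
        (if rk t ≤ rk p then Nat.card Y.X + rk t else 3 * Nat.card Y.X + rk t) := by
      split_ifs <;> omega
    have h8 : σA.1 t ≤ σB.1 t := h7
    exact hmo.monotone h8
  have hne : σA.map h hmo ≠ σB.map h hmo := by
    intro h1
    have h2 : h (σA.1 p) = h (σB.1 p) := congrFun (congrArg Subtype.val h1) p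
    have h3 : (σA.1 p).val = (σB.1 p).val := congrArg Fin.val (hmo.injective h2)
    have h4 : (if rk p < rk q then rk p else Nat.card Y.X + rk p + (rk p - rk q)) =
      (if rk p ≤ rk p then Nat.card Y.X + rk p else 3 * Nat.card Y.X + rk p) := h3
    rw [if_pos r1, if_pos le_rfl] at h4
    omega
  refine Or.inr (Or.inl ⟨hf, vx (σB.map h hmo) p (u p), vx (σB.map h hmo) q (u p),
    vy_E _ (hu p) hpq, (A4 σB p rfl).trans (A4 σB q hcq).symm, hφ3 σB, insert i₀ S, ?_, ?_⟩)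
  · rw [card_insert_of_notMem hnot, hS]
  · intro i hi b hb
    rcases mem_insert.1 hi with rfl | hi
    · refine ⟨vx (σA.map h hmo) p (u p), (A4 σA p rfl).trans (A4 σB p rfl).symm, ?_, ?_⟩
      · exact v_low (σB.map h hmo) (σA.map h hmo) (hu p) q p
          (fun hba => by rw [hba] at hb; omega)
          (fun hb0 => by rw [hb0] at hb; simp at hb; omega) hle hne
      · have c1 := A5 σA
        rw [B3] at c1
        have c2 := A3 σB p rfl i
        omega
    · obtain ⟨w, hwc, hwk, hwL⟩ := hw i hi b (by omega)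
      exact ⟨vx (σB.map h hmo) w (u p), (A4 σB w hwc).trans (A4 σB p rfl).symm,
        vy_key _ (hu p) hwk, A6 σB i w hwc hwL⟩

end Pool.Agent.R67.CR
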