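import Pool.Agent.R67.CR4

/-!
# The induction, the disjoint sum and the final poset
-/

set_option autoImplicit false

namespace Pool.Agent.R67.CR

open Finset Function

variable {e r : ℕ}

theorem step (he : 0 < e) (fl : Fin r → Bool) (k : Fin r → ℕ) (M n m : ℕ)
    (hn : n < r) (hk : k ⟨n, hn⟩ = m + 1) (hm : 0 < m)
    (hW : ∃ W : Sys e, IsCl W fl k M n)
    (hY : ∀ M', ∃ Y : Sys e, IsGood Y fl (update k ⟨n, hn⟩ m) M') :
    ∃ W' : Sys e, IsCl W' fl k M (n + 1) := by
  obtain ⟨W, hW⟩ := hW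
  obtain ⟨Y, hY⟩ := hY (Nat.card (W.X × W.X × Fin M))
  cases hf : fl ⟨n, hn⟩
  · have h1 : ∀ α, fl α = !(fun α => !fl α) α := fun α => by simp
    have h2 : ∀ α, (fun α => !fl α) α = !fl α := fun α => rfl
    obtain ⟨W', hW'⟩ := stepUc he (fun α => !fl α) W.dual Y.dual k M n m hn (by simp [hf]) hk hm
      (IsCl.dual h1 hW) (IsGood.dual h1 hY)
    exact ⟨W'.dual, IsCl.dual h2 hW'⟩
  · exact stepUc he fl W Y k M n m hn hf hk hm hW hY

theorem good_all (he : 0 < e) (fl : Fin r → Bool) : ∀ (s : ℕ) (k : Fin r → ℕ), ∑ α, k α = s →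
    ∀ M, ∃ Z : Sys e, IsGood Z fl k M := by
  intro s
  induction s using Nat.strong_induction_on with
  | _ s ih =>
    intro k hk M
    by_cases h0 : ∃ α, k α = 0
    · obtain ⟨α, hα⟩ := h0
      exact ⟨base e, fun ω => ⟨α, Or.inl hα⟩⟩
    · induction M with
      | zero => exact ⟨base e, fun ω => (ω.c true).elim0⟩
      | succ M ihM =>
        obtain ⟨Z, hZ⟩ := ihM
        have hcl : ∀ n, n ≤ r → ∃ W : Sys e, IsCl W fl k (M + 1) n := by
          intro n
          induction n with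
          | zero => exact fun _ => step0 he fl Z k M hZ
          | succ n ihn =>
            intro hn
            obtain ⟨W, hW⟩ := ihn (by omega)
            have hn' : n < r := by omega
            by_cases h1 : k ⟨n, hn'⟩ = 1
            · exact ⟨W, stepOne fl W k (M + 1) n hn' h1 hW⟩
            · have h2 : k ⟨n, hn'⟩ ≠ 0 := fun h => h0 ⟨_, h⟩
              refine step he fl k (M + 1) n (k ⟨n, hn'⟩ - 1) hn' (by omega) (by omega) ⟨W, hW⟩
                (fun M' => ih _ ?_ _ rfl M')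
              rw [← hk]
              apply sum_lt_sum
              · intro i _
                by_cases hi : i = ⟨n, hn'⟩
                · subst hi
                  rw [update_self]
                  omega
                · rw [update_of_ne hi]
              · exact ⟨⟨n, hn'⟩, mem_univ _, by rw [update_self]; omega⟩
        obtain ⟨W, hW⟩ := hcl r le_rfl
        refine ⟨W, fun ω => ?_⟩
        rcases hW ω with h | ⟨l, u, -, -, -, -, hφ⟩
        · exact h
        · exact absurd rfl (hφ (ω.φ l u) (ω.φ l u).2)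

theorem no_world (he : 0 < e) (fl : Fin r → Bool) :
    ∃ Z : Sys e, World Z fl (Fin 1) → False := by
  obtain ⟨Z, hZ⟩ := good_all he fl _ (fun _ => e + 2) rfl 1
  refine ⟨Z, fun ω => ?_⟩
  obtain ⟨α, hα'⟩ := hZ ω
  have hα : Conf ω α (e + 2) := hα'
  rcases hα with h | ⟨-, p, q, -, -, -, S, hS, -⟩ | ⟨-, p, q, -, -, -, S, hS, -⟩
  · omega
  all_goals
    have := card_le_univ S
    rw [Fintype.card_fin] at this
    omega

section
variable {ι : Type} [Finite ι] (Z : ι → Sys e) (idx : ι → ℤ)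

theorem exists_skey (j : Fin (e + 1)) : ∃ g : (Σ i, (Z i).X) → ℤ, ∀ x x', g x < g x' ↔
    (idx x.1 < idx x'.1 ∨ idx x.1 = idx x'.1 ∧ (Z x.1).key j x.2 < (Z x'.1).key j x'.2) := by
  have : ∀ i, Finite (Z i).X := fun i => (Z i).fin
  obtain ⟨g, hg, -⟩ := exists_rank (κ := ℤ ×ₗ ℤ) (fun x : (Σ i, (Z i).X) =>
    toLex (idx x.1, (Z x.1).key j x.2))
  refine ⟨fun x => g x, fun x x' => ?_⟩
  simp only [Nat.cast_lt]
  rw [hg]
  simp only [Prod.Lex.lt_iff, ofLex_toLex]

noncomputable def skey (j : Fin (e + 1)) : (Σ i, (Z i).X) → ℤ :=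
  Classical.choose (exists_skey Z idx j)

theorem skey_lt (j : Fin (e + 1)) (x x' : Σ i, (Z i).X) : skey Z idx j x < skey Z idx j x' ↔
    (idx x.1 < idx x'.1 ∨ idx x.1 = idx x'.1 ∧ (Z x.1).key j x.2 < (Z x'.1).key j x'.2) :=
  Classical.choose_spec (exists_skey Z idx j) x x'

theorem skey_inj (hidx : Injective idx) (j : Fin (e + 1)) : Injective (skey Z idx j) := by
  intro x x' h
  have h1 := (skey_lt Z idx j x x').not.1 (by omega)
  have h2 := (skey_lt Z idx j x' x).not.1 (by omega)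
  have h3 : idx x.1 = idx x'.1 := by omega
  have h4 : (Z x.1).key j x.2 = (Z x'.1).key j x'.2 := by omega
  obtain ⟨i, x⟩ := x
  obtain ⟨i', x'⟩ := x'
  have h5 : i = i' := hidx h3
  subst h5
  have h6 : x = x' := (Z i).inj j h4
  rw [h6]

/-- the linear sum of finitely many systems -/
@[reducible] noncomputable def sumSys (hidx : Injective idx) : Sys e where
  X := Σ i, (Z i).X
  fin := by
    have : ∀ i, Finite (Z i).X := fun i => (Z i).fin
    infer_instance
  side _ := false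
  key := skey Z idx
  inj := skey_inj Z idx hidx
  E p q := ∃ i x x', p = ⟨i, x⟩ ∧ q = ⟨i, x'⟩ ∧ (Z i).E x x'
  lt := by
    rintro p q ⟨i, x, x', rfl, rfl, hE⟩ j
    rw [skey_lt]
    exact Or.inr ⟨rfl, (Z i).lt _ _ hE j⟩
  cov := by
    rintro p q ⟨i', v⟩ ⟨i, x, x', rfl, rfl, hE⟩ h1 h2
    simp only [skey_lt] at h1 h2
    have h3 : idx i = idx i' := by
      have h4 := h1 0
      have h5 := h2 0
      omega
    have h6 : i = i' := hidx h3
    subst h6
    refine (Z i).cov x x' v hE (fun j => ?_) (fun j => ?_)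
    · have h4 := h1 j
      omega
    · have h4 := h2 j
      omega

end

/-- the intersection order of a system -/
@[reducible] def Sys.po (Z : Sys e) : PartialOrder Z.X where
  le x y := ∀ j, Z.key j x ≤ Z.key j y
  le_refl x j := le_rfl
  le_trans x y z h1 h2 j := (h1 j).trans (h2 j)
  le_antisymm x y h1 h2 := Z.inj 0 (le_antisymm (h1 0) (h2 0))

theorem po_lt (Z : Sys e) (x y : Z.X) : Z.po.lt x y ↔ ∀ j, Z.key j x < Z.key j y := by
  let _ := Z.po
  constructor
  · intro h j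
    have h1 : ∀ j, Z.key j x ≤ Z.key j y := le_of_lt h
    have hne : x ≠ y := ne_of_lt h
    exact lt_of_le_of_ne (h1 j) (fun h2 => hne (Z.inj j h2))
  · intro h
    have hle : x ≤ y := fun j => le_of_lt (h j)
    refine lt_of_le_of_ne hle ?_
    rintro rfl
    exact lt_irrefl _ (h 0)

theorem po_cov (Z : Sys e) (x y : Z.X) (h : Z.E x y) :
    let _ := Z.po
    x ⋖ y := by
  intro _
  refine ⟨(po_lt Z x y).2 (Z.lt x y h), fun z h1 h2 => ?_⟩
  exact Z.cov x y z h ((po_lt Z x z).1 h1) ((po_lt Z z y).1 h2)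

theorem ext_L {α : Type} {t : ℕ} (ht : 0 < t) (hte : t ≤ e) (L : Fin t → α → ℕ) :
    ∃ L' : Fin e → α → ℤ, (∀ k, ∃ i, ∀ x, L' k x = L i x) ∧ (∀ i, ∃ k, ∀ x, L' k x = L i x) := by
  refine ⟨fun k x => L ⟨min k.val (t - 1), by omega⟩ x, fun k => ⟨_, fun x => rfl⟩, fun i => ?_⟩
  refine ⟨⟨i.val, by omega⟩, fun x => ?_⟩
  have h1 : (⟨min i.val (t - 1), by omega⟩ : Fin t) = i := Fin.ext (by
    show min i.val (t - 1) = i.val
    have := i.2
    omega)
  simp only [h1]

theorem main_pos (he : 0 < e) (hr : 0 < r) :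
    ∃ (α : Type) (_ : Finite α) (_ : PartialOrder α),
      (∀ t : ℕ, 0 < t →
        ((∃ L : Fin t → α → ℕ, (∀ i, Function.Injective (L i)) ∧
            (∀ i x y, x < y → L i x < L i y) ∧
            (∀ x y, (∀ i, L i x ≤ L i y) → x ≤ y)) ↔ e + 1 ≤ t)) ∧
      ∀ φ : α → α → Fin r, ∃ c : Fin r,
        (∀ t : ℕ, 0 < t →
          ((∃ L : Fin t → α → ℕ, (∀ i, Function.Injective (L i)) ∧
              (∀ i x z, x ⋖ z → φ x z = c → L i x < L i z) ∧
              (∀ x y z, x ≠ y → x ⋖ z → φ x z = c → y ⋖ z → φ y z = c →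
                ∃ i, L i y < L i x)) ↔ e + 1 ≤ t)) ∧
        (∀ t : ℕ, 0 < t →
          ((∃ L : Fin t → α → ℕ, (∀ i, Function.Injective (L i)) ∧
              (∀ i x z, x ⋖ z → φ x z = c → L i x < L i z) ∧
              (∀ x y z, x ≠ y → z ⋖ x → φ z x = c → z ⋖ y → φ z y = c →
                ∃ i, L i y < L i x)) ↔ e + 1 ≤ t)) := by
  classical
  choose Z hZ using fun fl : Fin r → Bool => no_world (e := e) he fl
  obtain ⟨idx, hidx⟩ : ∃ idx : (Fin r → Bool) → ℤ, Injective idx :=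
    ⟨fun fl => ((Fintype.equivFin (Fin r → Bool) fl).val : ℤ), fun x y h => by
      have h' : ((Fintype.equivFin (Fin r → Bool) x).val : ℤ) =
        ((Fintype.equivFin (Fin r → Bool) y).val : ℤ) := h
      exact (Fintype.equivFin (Fin r → Bool)).injective (Fin.ext (by exact_mod_cast h'))⟩
  let P : Sys e := sumSys Z idx hidx
  let _ : Finite P.X := P.fin
  let _ : PartialOrder P.X := P.po
  have hcovE : ∀ fl (x y : (Z fl).X), (Z fl).E x y → (⟨fl, x⟩ : P.X) ⋖ ⟨fl, y⟩ := by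
    intro fl x y hE
    exact po_cov P _ _ ⟨fl, x, y, rfl, rfl, hE⟩
  -- the key maps with values in the natural numbers
  have hg : ∀ j, ∃ g : P.X → ℕ, (∀ x y, g x < g y ↔ P.key j x < P.key j y) ∧ ∀ x, g x < Nat.card P.X :=
    fun j => exists_rank (P.key j)
  choose g hg1 hg2 using hg
  have hginj : ∀ j, Injective (g j) := by
    intro j x y h
    apply P.inj j
    have h1 := (hg1 j x y).not.1 (by omega)
    have h2 := (hg1 j y x).not.1 (by omega)
    omega
  have hgle : ∀ x y, (∀ j, g j x ≤ g j y) → x ≤ y := by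
    intro x y h j
    have h1 := (hg1 j y x).not.1 (not_lt.2 (h j))
    exact not_lt.1 h1
  have hglt : ∀ x y, x < y → ∀ j, g j x < g j y := by
    intro x y h j
    exact (hg1 j x y).2 ((po_lt P x y).1 h j)
  -- incomparability
  have hinc : ∀ x y z : P.X, x ≠ y → x ⋖ z → y ⋖ z → ¬ x ≤ y := by
    intro x y z hne h1 h2 hle
    exact h1.2 (lt_of_le_of_ne hle hne) h2.1
  have hinc' : ∀ x y z : P.X, x ≠ y → z ⋖ x → z ⋖ y → ¬ x ≤ y := by
    intro x y z hne h1 h2 hle
    exact h2.2 h1.1 (lt_of_le_of_ne hle hne)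
  -- the colours
  let UC : (P.X → P.X → Fin r) → Fin r → Prop := fun φ c => ∃ L : Fin e → P.X → ℤ,
    (∀ i x z, x ⋖ z → φ x z = c → L i x < L i z) ∧
    (∀ x y z, x ≠ y → x ⋖ z → φ x z = c → y ⋖ z → φ y z = c → ∃ i, L i y < L i x)
  let LC : (P.X → P.X → Fin r) → Fin r → Prop := fun φ c => ∃ L : Fin e → P.X → ℤ,
    (∀ i x z, x ⋖ z → φ x z = c → L i x < L i z) ∧
    (∀ x y z, x ≠ y → z ⋖ x → φ z x = c → z ⋖ y → φ z y = c → ∃ i, L i y < L i x)
  have hmain : ∀ φ : P.X → P.X → Fin r, (∀ c, UC φ c ∨ LC φ c) → False := by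
    intro φ hφ
    have hL : ∀ c, ∃ L : Fin e → P.X → ℤ, (∀ i x z, x ⋖ z → φ x z = c → L i x < L i z) ∧
        (UC φ c → ∀ x y z, x ≠ y → x ⋖ z → φ x z = c → y ⋖ z → φ y z = c → ∃ i, L i y < L i x) ∧
        (¬ UC φ c → ∀ x y z, x ≠ y → z ⋖ x → φ z x = c → z ⋖ y → φ z y = c →
          ∃ i, L i y < L i x) := by
      intro c
      by_cases h : UC φ c
      · obtain ⟨L, h1, h2⟩ := h
        exact ⟨L, h1, fun _ => h2, fun h' => absurd ⟨L, h1, h2⟩ h'⟩
      · rcases hφ c with h3 | ⟨L, h1, h2⟩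
        · exact absurd h3 h
        · exact ⟨L, h1, fun h' => absurd h' h, fun _ => h2⟩
    choose L hL1 hL2 hL3 using hL
    let fl : Fin r → Bool := fun c => decide (UC φ c)
    refine hZ fl ⟨fun _ => 0, fun x y => φ ⟨fl, x⟩ ⟨fl, y⟩, fun c k x => L c k ⟨fl, x⟩, ?_, ?_, ?_⟩
    · intro c k x y hE _ hc
      exact hL1 c k _ _ (hcovE fl x y hE) hc
    · intro c hc x y z hne hxz hyz _ _ h1 h2
      have hU : UC φ c := of_decide_eq_true hc
      refine hL2 c hU ⟨fl, x⟩ ⟨fl, y⟩ ⟨fl, z⟩ (fun h => hne ?_) (hcovE fl x z hxz) h1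
        (hcovE fl y z hyz) h2
      have h' : (⟨fl, x⟩ : Σ i, (Z i).X) = ⟨fl, y⟩ := h
      exact eq_of_heq (Sigma.mk.inj h').2
    · intro c hc x y z hne hxz hyz _ _ h1 h2
      have hU : ¬ UC φ c := of_decide_eq_false hc
      refine hL3 c hU ⟨fl, x⟩ ⟨fl, y⟩ ⟨fl, z⟩ (fun h => hne ?_) (hcovE fl z x hxz) h1
        (hcovE fl z y hyz) h2
      have h' : (⟨fl, x⟩ : Σ i, (Z i).X) = ⟨fl, y⟩ := h
      exact eq_of_heq (Sigma.mk.inj h').2
  refine ⟨P.X, inferInstance, inferInstance, fun t ht => ⟨fun hL => ?_, fun hte => ?_⟩, fun φ => ?_⟩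
  · by_contra hcon
    obtain ⟨L, -, hL1, hL2⟩ := hL
    obtain ⟨L', h1, h2⟩ := ext_L ht (by omega : t ≤ e) L
    apply hmain (fun _ _ => ⟨0, hr⟩)
    intro c
    left
    refine ⟨L', fun i x z hxz _ => ?_, fun x y z hne hxz _ hyz _ => ?_⟩
    · obtain ⟨i', hi'⟩ := h1 i
      rw [hi', hi']
      exact_mod_cast hL1 i' x z hxz.1
    · by_contra hno
      apply hinc x y z hne hxz hyz
      apply hL2
      intro i
      by_contra hlt
      obtain ⟨k, hk⟩ := h2 i
      refine hno ⟨k, ?_⟩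
      rw [hk, hk]
      exact_mod_cast not_le.1 hlt
  · refine ⟨fun i => g ⟨min i.val e, by omega⟩, fun i => hginj _, fun i x y h => hglt x y h _,
      fun x y h => hgle x y fun j => ?_⟩
    have h1 := h ⟨j.val, by omega⟩
    have h2 : (⟨min j.val e, by omega⟩ : Fin (e + 1)) = j := Fin.ext (by
      show min j.val e = j.val
      have := j.2
      omega)
    simpa only [h2] using h1
  · have hup : ∀ t, e + 1 ≤ t → ∃ L : Fin t → P.X → ℕ, (∀ i, Injective (L i)) ∧
        (∀ i x y, x < y → L i x < L i y) ∧ (∀ x y, ¬ x ≤ y → ∃ i, L i y < L i x) := by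
      intro t hte
      refine ⟨fun i => g ⟨min i.val e, by omega⟩, fun i => hginj _, fun i x y h => hglt x y h _,
        fun x y h => ?_⟩
      by_contra hno
      apply h
      apply hgle
      intro j
      by_contra hlt
      apply hno
      refine ⟨⟨j.val, by omega⟩, ?_⟩
      have h2 : (⟨min j.val e, by omega⟩ : Fin (e + 1)) = j := Fin.ext (by
        show min j.val e = j.val
        have := j.2
        omega)
      simp only [h2]
      exact not_le.1 hlt
    by_cases hc : ∃ c, ¬ UC φ c ∧ ¬ LC φ c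
    · obtain ⟨c, hU, hLc⟩ := hc
      refine ⟨c, fun t ht => ⟨fun hL => ?_, fun hte => ?_⟩, fun t ht => ⟨fun hL => ?_, fun hte => ?_⟩⟩
      · by_contra hcon
        obtain ⟨L, -, hL1, hL2⟩ := hL
        obtain ⟨L', h1, h2⟩ := ext_L ht (by omega : t ≤ e) L
        apply hU
        refine ⟨L', fun i x z hxz hφ => ?_, fun x y z hne hxz hφ hyz hφ' => ?_⟩
        · obtain ⟨i', hi'⟩ := h1 i
          rw [hi', hi']
          exact_mod_cast hL1 i' x z hxz hφ
        · obtain ⟨i, hi⟩ := hL2 x y z hne hxz hφ hyz hφ'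
          obtain ⟨k, hk⟩ := h2 i
          refine ⟨k, ?_⟩
          rw [hk, hk]
          exact_mod_cast hi
      · obtain ⟨L, h1, h2, h3⟩ := hup t hte
        exact ⟨L, h1, fun i x z hxz _ => h2 i x z hxz.1,
          fun x y z hne hxz _ hyz _ => h3 x y (hinc x y z hne hxz hyz)⟩
      · by_contra hcon
        obtain ⟨L, -, hL1, hL2⟩ := hL
        obtain ⟨L', h1, h2⟩ := ext_L ht (by omega : t ≤ e) L
        apply hLc
        refine ⟨L', fun i x z hxz hφ => ?_, fun x y z hne hxz hφ hyz hφ' => ?_⟩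
        · obtain ⟨i', hi'⟩ := h1 i
          rw [hi', hi']
          exact_mod_cast hL1 i' x z hxz hφ
        · obtain ⟨i, hi⟩ := hL2 x y z hne hxz hφ hyz hφ'
          obtain ⟨k, hk⟩ := h2 i
          refine ⟨k, ?_⟩
          rw [hk, hk]
          exact_mod_cast hi
      · obtain ⟨L, h1, h2, h3⟩ := hup t hte
        exact ⟨L, h1, fun i x z hxz _ => h2 i x z hxz.1,
          fun x y z hne hxz _ hyz _ => h3 x y (hinc' x y z hne hxz hyz)⟩
    · exfalso
      apply hmain φ
      intro c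
      by_contra hcc
      rw [not_or] at hcc
      exact hc ⟨c, hcc⟩

end Pool.Agent.R67.CR
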