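import Mathlib

/-!
# Oberwolfach problem: generic part
-/

set_option autoImplicit false

namespace Pool.Agent.R67.OW

open SimpleGraph

/-- The next vertex of a cycle. -/
def nxt (s : ℕ) (i : Fin s) : Fin s := ⟨(i.1 + 1) % s, Nat.mod_lt _ (by have := i.2; omega)⟩

/-- The vertices of a 2-regular graph consisting of one triangle and two `s`-cycles. -/
abbrev W (s : ℕ) := Fin 3 ⊕ (Fin s ⊕ Fin s)

/-- The next vertex on the same cycle. -/
def sg (s : ℕ) : W s → W s := Sum.map (nxt 3) (Sum.map (nxt s) (nxt s))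

/-- `OP(3, s, s)` has a solution. -/
def Sol (s : ℕ) : Prop :=
  ∃ F : Fin (s + 1) → SimpleGraph (Fin (2 * s + 3)),
    (∀ i, Nonempty (F i ≃g (cycleGraph 3 ⊕g (cycleGraph s ⊕g cycleGraph s)))) ∧
    ∀ x y, x ≠ y → ∃! i, (F i).Adj x y

theorem nxt_val {s : ℕ} (i : Fin s) (h : i.1 + 1 < s) : (nxt s i).1 = i.1 + 1 :=
  Nat.mod_eq_of_lt h

theorem nxt_last {s : ℕ} (i : Fin s) (h : i.1 + 1 = s) : (nxt s i).1 = 0 := by
  show (i.1 + 1) % s = 0
  rw [h, Nat.mod_self]

theorem nxt_ne {s : ℕ} (hs : 2 ≤ s) (i : Fin s) : nxt s i ≠ i := by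
  intro h
  have h1 := congrArg Fin.val h
  have h2 := i.2
  rcases Nat.lt_or_ge (i.1 + 1) s with h3 | h3
  · rw [nxt_val i h3] at h1
    omega
  · rw [nxt_last i (by omega)] at h1
    omega

theorem sg_ne {s : ℕ} (hs : 2 ≤ s) (w : W s) : sg s w ≠ w := by
  rcases w with w | w | w
  · intro h
    exact nxt_ne (by omega) w (Sum.inl_injective h)
  · intro h
    exact nxt_ne hs w (Sum.inl_injective (Sum.inr_injective h))
  · intro h
    exact nxt_ne hs w (Sum.inr_injective (Sum.inr_injective h))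

theorem cyc_adj {s : ℕ} (hs : 3 ≤ s) (u v : Fin s) :
    (cycleGraph s).Adj u v ↔ v = nxt s u ∨ u = nxt s v := by
  rw [cycleGraph_adj']
  have key : ∀ a b : Fin s, (a - b).val = 1 ↔ a = nxt s b := by
    intro a b
    have ha := a.2
    have hb := b.2
    rw [Fin.sub_def, Fin.ext_iff]
    show (s - b.1 + a.1) % s = 1 ↔ a.1 = (nxt s b).1
    rcases Nat.lt_or_ge (s - b.1 + a.1) s with h | h
    · rw [Nat.mod_eq_of_lt h]
      rcases Nat.lt_or_ge (b.1 + 1) s with h3 | h3
      · rw [nxt_val b h3]; omega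
      · rw [nxt_last b (by omega)]; omega
    · rw [Nat.mod_eq_sub_mod h, Nat.mod_eq_of_lt (by omega)]
      rcases Nat.lt_or_ge (b.1 + 1) s with h3 | h3
      · rw [nxt_val b h3]; omega
      · rw [nxt_last b (by omega)]; omega
  rw [key, key]
  exact Or.comm

theorem adj_iff {s : ℕ} (hs : 3 ≤ s) (u v : W s) :
    (cycleGraph 3 ⊕g (cycleGraph s ⊕g cycleGraph s)).Adj u v ↔ v = sg s u ∨ u = sg s v := by
  rcases u with u | u | u <;> rcases v with v | v | v <;>
    simp [sg, cyc_adj hs, cyc_adj (le_refl 3)]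

theorem unique_cover {V ι U : Type} [Fintype V] [DecidableEq V] [Fintype ι] [Fintype U]
    (σ : U → U) (f : ι → U → V) (hinj : ∀ i, Function.Injective (f i)) (hσ : ∀ w, σ w ≠ w)
    (hcov : ∀ x y : V, x ≠ y → ∃ i w, s(f i w, f i (σ w)) = s(x, y))
    (hcard : Fintype.card ι * Fintype.card U = (Fintype.card V).choose 2) {x y : V}
    (hxy : x ≠ y) : ∃! i, ∃ w, s(f i w, f i (σ w)) = s(x, y) := by
  let Φ : ι × U → {e : Sym2 V // ¬ e.IsDiag} := fun p =>
    ⟨s(f p.1 p.2, f p.1 (σ p.2)), fun h => hσ p.2 ((hinj p.1) (Sym2.mk_isDiag_iff.1 h)).symm⟩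
  have hsurj : Function.Surjective Φ := by
    rintro ⟨e, he⟩
    induction e using Sym2.ind with
    | _ a b =>
      obtain ⟨i, w, h⟩ := hcov a b (fun h => he (Sym2.mk_isDiag_iff.2 h))
      exact ⟨(i, w), Subtype.ext h⟩
  have hbij : Function.Bijective Φ := by
    rw [Fintype.bijective_iff_surjective_and_card]
    refine ⟨hsurj, ?_⟩
    rw [Fintype.card_prod, hcard, Sym2.card_subtype_not_diag]
  obtain ⟨i, w, h⟩ := hcov x y hxy
  refine ⟨i, ⟨w, h⟩, ?_⟩
  rintro j ⟨u, hu⟩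
  have : Φ (j, u) = Φ (i, w) := Subtype.ext (hu.trans h.symm)
  exact congrArg Prod.fst (hbij.1 this)

theorem sol_of {V ι : Type} [Fintype V] [DecidableEq V] [Fintype ι] {s : ℕ} (hs : 3 ≤ s)
    (hV : Fintype.card V = 2 * s + 3) (hι : Fintype.card ι = s + 1) (f : ι → W s → V)
    (hinj : ∀ i, Function.Injective (f i))
    (hcov : ∀ x y : V, x ≠ y → ∃ i w, s(f i w, f i (sg s w)) = s(x, y)) : Sol s := by
  have hW : Fintype.card (W s) = 2 * s + 3 := by
    simp only [Fintype.card_sum, Fintype.card_fin]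
    ring
  let e : Fin (2 * s + 3) ≃ V := (Fintype.equivFinOfCardEq hV).symm
  let d : Fin (s + 1) ≃ ι := (Fintype.equivFinOfCardEq hι).symm
  have hbij : ∀ i, Function.Bijective (f i) := fun i =>
    (Fintype.bijective_iff_injective_and_card _).2 ⟨hinj i, by rw [hW, hV]⟩
  let F : Fin (s + 1) → SimpleGraph (Fin (2 * s + 3)) := fun i =>
    { Adj := fun x y => ∃ w, s(f (d i) w, f (d i) (sg s w)) = s(e x, e y)
      symm := ⟨fun x y h => by
        obtain ⟨w, hw⟩ := h
        exact ⟨w, hw.trans Sym2.eq_swap⟩⟩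
      loopless := ⟨fun x h => by
        obtain ⟨w, hw⟩ := h
        have h1 : f (d i) w = f (d i) (sg s w) := by
          rcases Sym2.eq_iff.1 hw with ⟨h1, h2⟩ | ⟨h1, h2⟩
          · rw [h1, h2]
          · rw [h1, h2]
        exact sg_ne (by omega) w (hinj _ h1).symm⟩ }
  refine ⟨F, fun i => ?_, fun x y hxy => ?_⟩
  · let g : Fin (2 * s + 3) ≃ W s := e.trans (Equiv.ofBijective (f (d i)) (hbij (d i))).symm
    refine ⟨⟨g, ?_⟩⟩
    intro x y
    have hx : f (d i) (g x) = e x := Equiv.ofBijective_apply_symm_apply (f (d i)) (hbij (d i)) (e x)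
    have hy : f (d i) (g y) = e y := Equiv.ofBijective_apply_symm_apply (f (d i)) (hbij (d i)) (e y)
    rw [adj_iff hs]
    show _ ↔ ∃ w, s(f (d i) w, f (d i) (sg s w)) = s(e x, e y)
    constructor
    · rintro (h | h)
      · exact ⟨g x, by rw [← h, hx, hy]⟩
      · exact ⟨g y, by rw [← h, hx, hy]; exact Sym2.eq_swap⟩
    · rintro ⟨w, hw⟩
      rw [← hx, ← hy] at hw
      rcases Sym2.eq_iff.1 hw with ⟨h1, h2⟩ | ⟨h1, h2⟩
      · left
        rw [← hinj _ h1, ← hinj _ h2]
      · right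
        rw [← hinj _ h1, ← hinj _ h2]
  · have h1 : e x ≠ e y := fun h => hxy (e.injective h)
    have hcard : Fintype.card ι * Fintype.card (W s) = (Fintype.card V).choose 2 := by
      rw [hW, hV, hι, Nat.choose_two_right]
      have : (2 * s + 3) * (2 * s + 3 - 1) = 2 * ((s + 1) * (2 * s + 3)) := by
        have : 2 * s + 3 - 1 = 2 * (s + 1) := by omega
        rw [this]
        ring
      rw [this, Nat.mul_div_cancel_left _ (by norm_num)]
    obtain ⟨i, hi, huniq⟩ := unique_cover (sg s) f hinj (sg_ne (by omega)) hcov hcard h1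
    refine ⟨d.symm i, ?_, ?_⟩
    · show ∃ w, s(f (d (d.symm i)) w, f (d (d.symm i)) (sg s w)) = s(e x, e y)
      rw [Equiv.apply_symm_apply]
      exact hi
    · intro j hj
      have := huniq (d j) hj
      rw [← this, Equiv.symm_apply_apply]

end Pool.Agent.R67.OW
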