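import Pool.Agent.R67.OW1

/-!
# Oberwolfach problem: base factors and their translates
-/

set_option autoImplicit false

namespace Pool.Agent.R67.OW

/-- The points: two copies of `ZMod m` and `k` fixed points. -/
abbrev Pt (m k : ℕ) := (ZMod m × Bool) ⊕ Fin k

/-- The point with a given code: `(0, v)` and `(1, v)` are in the two copies of `ZMod m`, and
`(2, j)` is a fixed point. -/
def dec (m k : ℕ) [NeZero k] (p : ℕ × ℕ) : Pt m k :=
  if p.1 = 0 then Sum.inl ((p.2 : ZMod m), false)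
  else if p.1 = 1 then Sum.inl ((p.2 : ZMod m), true)
  else Sum.inr (Fin.ofNat k p.2)

/-- Translation. -/
def tr (m k : ℕ) (a : ZMod m) : Pt m k → Pt m k :=
  Sum.map (fun q => (q.1 + a, q.2)) id

/-- Valid codes. -/
def Valid (m k : ℕ) (p : ℕ × ℕ) : Prop :=
  (p.1 = 0 ∧ p.2 < m) ∨ (p.1 = 1 ∧ p.2 < m) ∨ (p.1 = 2 ∧ p.2 < k)

theorem cast_inj {m a b : ℕ} (ha : a < m) (hb : b < m) (h : (a : ZMod m) = b) : a = b := by
  have := (ZMod.natCast_eq_natCast_iff' a b m).1 h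
  rwa [Nat.mod_eq_of_lt ha, Nat.mod_eq_of_lt hb] at this

theorem dec_inj {m k : ℕ} [NeZero k] {p q : ℕ × ℕ} (hp : Valid m k p) (hq : Valid m k q)
    (h : dec m k p = dec m k q) : p = q := by
  obtain ⟨p1, p2⟩ := p
  obtain ⟨q1, q2⟩ := q
  unfold Valid at hp hq
  simp only at hp hq
  rcases hp with ⟨rfl, hp⟩ | ⟨rfl, hp⟩ | ⟨rfl, hp⟩ <;>
    rcases hq with ⟨rfl, hq⟩ | ⟨rfl, hq⟩ | ⟨rfl, hq⟩ <;>
    simp only [dec, if_true, if_false, one_ne_zero, OfNat.ofNat_ne_zero, OfNat.ofNat_ne_one,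
      Sum.inl.injEq, Sum.inr.injEq, Prod.mk.injEq, and_true, reduceCtorEq,
      Bool.false_eq_true, Bool.true_eq_false, and_false] at h
  · rw [cast_inj hp hq h]
  · rw [cast_inj hp hq h]
  · have h2 := congrArg Fin.val h
    simp only [Fin.ofNat] at h2
    rw [Nat.mod_eq_of_lt hp, Nat.mod_eq_of_lt hq] at h2
    rw [h2]

theorem tr_inj (m k : ℕ) (a : ZMod m) : Function.Injective (tr m k a) := by
  unfold tr
  refine Sum.map_injective.2 ⟨?_, Function.injective_id⟩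
  rintro ⟨x, u⟩ ⟨y, v⟩ h
  simp only [Prod.mk.injEq, add_left_inj] at h
  rw [h.1, h.2]

/-- The difference of `a` and `c` modulo `m` is `δ`, up to sign. -/
def Rel (m δ a c : ℕ) : Prop := c = a + δ ∨ c + m = a + δ ∨ a = c + δ ∨ a + m = c + δ

/-- `p` and `q` are consecutive vertices of the `s`-cycle `C`. -/
def Cons (s : ℕ) (C : ℕ → ℕ × ℕ) (p q : ℕ × ℕ) : Prop :=
  (∃ t, t + 1 < s ∧ C t = p ∧ C (t + 1) = q) ∨ (C (s - 1) = p ∧ C 0 = q)

/-- `p q` is an edge of the base factor. -/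
def E (s t0 t1 : ℕ) (C D : ℕ → ℕ × ℕ) (p q : ℕ × ℕ) : Prop :=
  Cons s C p q ∨ Cons s C q p ∨ Cons s D p q ∨ Cons s D q p ∨
    (p = (2, 0) ∧ q = (0, t0)) ∨ (p = (0, t0) ∧ q = (1, t1)) ∨ (p = (2, 0) ∧ q = (1, t1))

/-- The base factor: the triangle `(2, 0)`, `(0, t0)`, `(1, t1)` and the cycles `C` and `D`. -/
def bb (s t0 t1 : ℕ) (C D : ℕ → ℕ × ℕ) : W s → ℕ × ℕ
  | Sum.inl i => if i.1 = 0 then (2, 0) else if i.1 = 1 then (0, t0) else (1, t1)
  | Sum.inr (Sum.inl t) => C t.1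
  | Sum.inr (Sum.inr t) => D t.1

/-- Conditions on the base factor. -/
structure Fam (m k s t0 t1 : ℕ) (C D : ℕ → ℕ × ℕ) (excl : ℕ → Prop) : Prop where
  valid_t : t0 < m ∧ t1 < m ∧ 0 < k
  valid_c : ∀ t < s, Valid m k (C t)
  valid_d : ∀ t < s, Valid m k (D t)
  inj_c : ∀ t < s, ∀ u < s, C t = C u → t = u
  inj_d : ∀ t < s, ∀ u < s, D t = D u → t = u
  ne_cd : ∀ t < s, ∀ u < s, C t ≠ D u
  ne_tc : ∀ t < s, C t ≠ (2, 0) ∧ C t ≠ (0, t0) ∧ C t ≠ (1, t1)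
  ne_td : ∀ t < s, D t ≠ (2, 0) ∧ D t ≠ (0, t0) ∧ D t ≠ (1, t1)
  pure : ∀ l ≤ 1, ∀ δ, 1 ≤ δ → 2 * δ < m → ¬ excl δ →
    ∃ a c, E s t0 t1 C D (l, a) (l, c) ∧ Rel m δ a c
  mixed : ∀ δ < m, ∃ a c, E s t0 t1 C D (0, a) (1, c) ∧ (c = a + δ ∨ c + m = a + δ)
  inf : ∀ l ≤ 1, ∀ j < k, ∃ a, E s t0 t1 C D (2, j) (l, a)

variable {m k s t0 t1 : ℕ} {C D : ℕ → ℕ × ℕ} {excl : ℕ → Prop}

theorem edge_of_E (hs : 3 ≤ s) {p q : ℕ × ℕ} (h : E s t0 t1 C D p q) :
    ∃ w, (bb s t0 t1 C D w = p ∧ bb s t0 t1 C D (sg s w) = q) ∨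
      (bb s t0 t1 C D w = q ∧ bb s t0 t1 C D (sg s w) = p) := by
  have key1 : ∀ {p q : ℕ × ℕ}, Cons s C p q →
      ∃ w, bb s t0 t1 C D w = p ∧ bb s t0 t1 C D (sg s w) = q := by
    intro p q h
    rcases h with ⟨t, ht, h1, h2⟩ | ⟨h1, h2⟩
    · refine ⟨Sum.inr (Sum.inl ⟨t, by omega⟩), h1, ?_⟩
      show C (nxt s ⟨t, _⟩).1 = q
      rw [nxt_val _ ht]
      exact h2
    · refine ⟨Sum.inr (Sum.inl ⟨s - 1, by omega⟩), h1, ?_⟩
      show C (nxt s ⟨s - 1, _⟩).1 = q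
      rw [nxt_last _ (by show s - 1 + 1 = s; omega)]
      exact h2
  have key2 : ∀ {p q : ℕ × ℕ}, Cons s D p q →
      ∃ w, bb s t0 t1 C D w = p ∧ bb s t0 t1 C D (sg s w) = q := by
    intro p q h
    rcases h with ⟨t, ht, h1, h2⟩ | ⟨h1, h2⟩
    · refine ⟨Sum.inr (Sum.inr ⟨t, by omega⟩), h1, ?_⟩
      show D (nxt s ⟨t, _⟩).1 = q
      rw [nxt_val _ ht]
      exact h2
    · refine ⟨Sum.inr (Sum.inr ⟨s - 1, by omega⟩), h1, ?_⟩
      show D (nxt s ⟨s - 1, _⟩).1 = q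
      rw [nxt_last _ (by show s - 1 + 1 = s; omega)]
      exact h2
  rcases h with h | h | h | h | ⟨h1, h2⟩ | ⟨h1, h2⟩ | ⟨h1, h2⟩
  · obtain ⟨w, hw⟩ := key1 h
    exact ⟨w, Or.inl hw⟩
  · obtain ⟨w, hw⟩ := key1 h
    exact ⟨w, Or.inr hw⟩
  · obtain ⟨w, hw⟩ := key2 h
    exact ⟨w, Or.inl hw⟩
  · obtain ⟨w, hw⟩ := key2 h
    exact ⟨w, Or.inr hw⟩
  · exact ⟨Sum.inl 0, Or.inl ⟨h1.symm, h2.symm⟩⟩
  · exact ⟨Sum.inl 1, Or.inl ⟨h1.symm, h2.symm⟩⟩
  · exact ⟨Sum.inl 2, Or.inr ⟨h2.symm, h1.symm⟩⟩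

theorem bb_valid (B : Fam m k s t0 t1 C D excl) (w : W s) : Valid m k (bb s t0 t1 C D w) := by
  obtain ⟨h0, h1, h2⟩ := B.valid_t
  rcases w with w | w | w
  · show Valid m k (if w.1 = 0 then (2, 0) else if w.1 = 1 then (0, t0) else (1, t1))
    split_ifs
    · exact Or.inr (Or.inr ⟨rfl, h2⟩)
    · exact Or.inl ⟨rfl, h0⟩
    · exact Or.inr (Or.inl ⟨rfl, h1⟩)
  · exact B.valid_c w w.2
  · exact B.valid_d w w.2

theorem bb_tri (B : Fam m k s t0 t1 C D excl) (w : Fin 3) (t : ℕ) (ht : t < s) :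
    bb s t0 t1 C D (Sum.inl w) ≠ C t ∧ bb s t0 t1 C D (Sum.inl w) ≠ D t := by
  obtain ⟨a1, a2, a3⟩ := B.ne_tc t ht
  obtain ⟨b1, b2, b3⟩ := B.ne_td t ht
  show (if w.1 = 0 then (2, 0) else if w.1 = 1 then (0, t0) else (1, t1)) ≠ C t ∧
    (if w.1 = 0 then (2, 0) else if w.1 = 1 then (0, t0) else (1, t1)) ≠ D t
  split_ifs
  · exact ⟨a1.symm, b1.symm⟩
  · exact ⟨a2.symm, b2.symm⟩
  · exact ⟨a3.symm, b3.symm⟩

theorem bb_inj (B : Fam m k s t0 t1 C D excl) : Function.Injective (bb s t0 t1 C D) := by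
  intro x y h
  rcases x with x | x | x <;> rcases y with y | y | y
  · have h1 : (if x.1 = 0 then (2, 0) else if x.1 = 1 then (0, t0) else (1, t1)) =
      (if y.1 = 0 then (2, 0) else if y.1 = 1 then (0, t0) else (1, t1) : ℕ × ℕ) := h
    congr 1
    apply Fin.ext
    have hx := x.2
    have hy := y.2
    split_ifs at h1 <;> first | omega | (have := congrArg Prod.fst h1; simp at this)
  · exact absurd h (bb_tri B x y y.2).1
  · exact absurd h (bb_tri B x y y.2).2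
  · exact absurd h.symm (bb_tri B y x x.2).1
  · rw [Fin.ext (B.inj_c x x.2 y y.2 h)]
  · exact absurd h (B.ne_cd x x.2 y y.2)
  · exact absurd h.symm (bb_tri B y x x.2).2
  · exact absurd h.symm (B.ne_cd y y.2 x x.2)
  · rw [Fin.ext (B.inj_d x x.2 y y.2 h)]

/-- The translates of the base factor. -/
def ff (m k s t0 t1 : ℕ) [NeZero k] (C D : ℕ → ℕ × ℕ) (i : ZMod m) (w : W s) : Pt m k :=
  tr m k i (dec m k (bb s t0 t1 C D w))

theorem ff_inj [NeZero k] (B : Fam m k s t0 t1 C D excl) (i : ZMod m) :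
    Function.Injective (ff m k s t0 t1 C D i) := by
  intro x y h
  exact bb_inj B (dec_inj (bb_valid B x) (bb_valid B y) (tr_inj m k i h))

/-- Code of a level. -/
def lb (β : Bool) : ℕ := if β then 1 else 0

theorem tr_dec [NeZero k] (β : Bool) (a : ℕ) (i : ZMod m) :
    tr m k i (dec m k (lb β, a)) = Sum.inl ((a : ZMod m) + i, β) := by
  cases β <;> simp [tr, dec, lb]

theorem tr_dec_inf [NeZero k] (j : ℕ) (i : ZMod m) :
    tr m k i (dec m k (2, j)) = Sum.inr (Fin.ofNat k j) := by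
  simp [tr, dec]

theorem cov_of [NeZero k] (hs : 3 ≤ s) {p q : ℕ × ℕ} (h : E s t0 t1 C D p q) (i : ZMod m)
    {x y : Pt m k} (h1 : tr m k i (dec m k p) = x ∧ tr m k i (dec m k q) = y) :
    ∃ i w, s(ff m k s t0 t1 C D i w, ff m k s t0 t1 C D i (sg s w)) = s(x, y) := by
  obtain ⟨w, ⟨hw1, hw2⟩ | ⟨hw1, hw2⟩⟩ := edge_of_E hs h
  · refine ⟨i, w, ?_⟩
    unfold ff
    rw [hw1, hw2, h1.1, h1.2]
  · refine ⟨i, w, ?_⟩
    unfold ff
    rw [hw1, hw2, h1.1, h1.2]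
    exact Sym2.eq_swap

theorem half {m : ℕ} [NeZero m] (hm : m % 2 = 1) {x y : ZMod m} (h : x ≠ y) :
    ∃ δ : ℕ, 1 ≤ δ ∧ 2 * δ < m ∧ (y = x + δ ∨ x = y + δ) := by
  have h0 : y - x ≠ 0 := fun h1 => h (sub_eq_zero.1 h1).symm
  have h1 : (y - x).val ≠ 0 := fun h2 => h0 ((ZMod.val_eq_zero _).1 h2)
  have h2 : (y - x).val < m := ZMod.val_lt _
  have h3 : (((y - x).val : ℕ) : ZMod m) = y - x := ZMod.natCast_zmod_val _
  rcases Nat.lt_or_ge (2 * (y - x).val) m with h4 | h4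
  · refine ⟨(y - x).val, by omega, h4, Or.inl ?_⟩
    rw [h3]
    ring
  · refine ⟨m - (y - x).val, by omega, by omega, Or.inr ?_⟩
    rw [Nat.cast_sub h2.le, h3, ZMod.natCast_self]
    ring

theorem cast_of {m a c δ : ℕ} (h : c = a + δ ∨ c + m = a + δ) :
    (c : ZMod m) = a + δ := by
  rcases h with h | h
  · rw [h]; push_cast; ring
  · have := congrArg (Nat.cast : ℕ → ZMod m) h
    push_cast at this
    rw [ZMod.natCast_self, add_zero] at this
    exact this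

theorem cover [NeZero m] [NeZero k] (hs : 3 ≤ s) (hm : m % 2 = 1)
    (B : Fam m k s t0 t1 C D excl) (x y : Pt m k) (hxy : x ≠ y) :
    (∃ i w, s(ff m k s t0 t1 C D i w, ff m k s t0 t1 C D i (sg s w)) = s(x, y)) ∨
    (∃ (β : Bool) (u v : ZMod m) (δ : ℕ), excl δ ∧ (v = u + δ ∨ u = v + δ) ∧
      x = Sum.inl (u, β) ∧ y = Sum.inl (v, β)) ∨
    (∃ i j : Fin k, i ≠ j ∧ x = Sum.inr i ∧ y = Sum.inr j) := by
  have mix : ∀ u v : ZMod m, ∃ i w,
      s(ff m k s t0 t1 C D i w, ff m k s t0 t1 C D i (sg s w)) =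
        s(Sum.inl (u, false), Sum.inl (v, true)) := by
    intro u v
    obtain ⟨a, c, hE, hR⟩ := B.mixed (v - u).val (ZMod.val_lt _)
    have h1 := cast_of hR
    rw [ZMod.natCast_zmod_val] at h1
    refine cov_of hs hE (u - (a : ZMod m)) ⟨?_, ?_⟩
    · refine (tr_dec (m := m) (k := k) false a (u - (a : ZMod m))).trans ?_
      congr 2
      ring
    · refine (tr_dec (m := m) (k := k) true c (u - (a : ZMod m))).trans ?_
      congr 2
      rw [h1]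
      ring
  have infc : ∀ (u : ZMod m) (β : Bool) (j : Fin k), ∃ i w,
      s(ff m k s t0 t1 C D i w, ff m k s t0 t1 C D i (sg s w)) =
        s(Sum.inr j, Sum.inl (u, β)) := by
    intro u β j
    obtain ⟨a, hE⟩ := B.inf (lb β) (by cases β <;> simp [lb]) j j.2
    refine cov_of hs hE (u - (a : ZMod m)) ⟨?_, ?_⟩
    · rw [tr_dec_inf]
      congr 1
      apply Fin.ext
      simp [Fin.ofNat, Nat.mod_eq_of_lt j.2]
    · rw [tr_dec]
      congr 2
      ring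
  rcases x with ⟨u, β⟩ | x <;> rcases y with ⟨v, γ⟩ | y
  · by_cases hβ : β = γ
    · subst hβ
      have huv : u ≠ v := fun h => hxy (by rw [h])
      obtain ⟨δ, h1, h2, h3⟩ := half hm huv
      by_cases hex : excl δ
      · exact Or.inr (Or.inl ⟨β, u, v, δ, hex, h3, rfl, rfl⟩)
      · left
        obtain ⟨a, c, hE, hR⟩ := B.pure (lb β) (by cases β <;> simp [lb]) δ h1 h2 hex
        have hR' : (c : ZMod m) = a + δ ∨ (a : ZMod m) = c + δ := by
          rcases hR with hR | hR | hR | hR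
          · exact Or.inl (cast_of (Or.inl hR))
          · exact Or.inl (cast_of (Or.inr hR))
          · exact Or.inr (cast_of (Or.inl hR))
          · exact Or.inr (cast_of (Or.inr hR))
        have hswap : ∀ x y : Pt m k,
            (∃ i w, s(ff m k s t0 t1 C D i w, ff m k s t0 t1 C D i (sg s w)) = s(x, y)) →
            (∃ i w, s(ff m k s t0 t1 C D i w, ff m k s t0 t1 C D i (sg s w)) = s(y, x)) := by
          rintro x y ⟨i, w, h⟩
          exact ⟨i, w, h.trans Sym2.eq_swap⟩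
        rcases hR' with hR' | hR' <;> rcases h3 with h3 | h3
        · refine cov_of hs hE (u - (a : ZMod m)) ⟨?_, ?_⟩
          · rw [tr_dec]; congr 2; ring
          · rw [tr_dec]; congr 2; rw [hR', h3]; ring
        · refine hswap _ _ (cov_of hs hE (v - (a : ZMod m)) ⟨?_, ?_⟩)
          · rw [tr_dec]; congr 2; ring
          · rw [tr_dec]; congr 2; rw [hR', h3]; ring
        · refine hswap _ _ (cov_of hs hE (u - (c : ZMod m)) ⟨?_, ?_⟩)
          · rw [tr_dec]; congr 2; rw [hR', h3]; ring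
          · rw [tr_dec]; congr 2; ring
        · refine cov_of hs hE (v - (c : ZMod m)) ⟨?_, ?_⟩
          · rw [tr_dec]; congr 2; rw [hR', h3]; ring
          · rw [tr_dec]; congr 2; ring
    · left
      cases β <;> cases γ
      · exact absurd rfl hβ
      · exact mix u v
      · obtain ⟨i, w, h⟩ := mix v u
        exact ⟨i, w, h.trans Sym2.eq_swap⟩
      · exact absurd rfl hβ
  · left
    obtain ⟨i, w, h⟩ := infc u β y
    exact ⟨i, w, h.trans Sym2.eq_swap⟩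
  · left
    exact infc v γ x
  · right
    right
    exact ⟨x, y, fun h => hxy (by rw [h]), rfl, rfl⟩

end Pool.Agent.R67.OW
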