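import Pool.Agent.R67.OW2

/-!
# Oberwolfach problem: the three families of base factors
-/

set_option autoImplicit false

namespace Pool.Agent.R67.OW

theorem pair_eq {a b c d : ℕ} (h1 : a = c) (h2 : b = d) : (a, b) = (c, d) := by rw [h1, h2]

theorem pair_ne {a b c d : ℕ} (h : a ≠ c ∨ b ≠ d) : (a, b) ≠ (c, d) := by
  intro e
  have h1 := congrArg Prod.fst e
  have h2 := congrArg Prod.snd e
  simp only at h1 h2
  omega

theorem pair_inj {a b c d : ℕ} (e : (a, b) = (c, d)) : a = c ∧ b = d :=
  ⟨congrArg Prod.fst e, congrArg Prod.snd e⟩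

theorem v0 {m k v : ℕ} (h : v < m) : Valid m k (0, v) := Or.inl ⟨rfl, h⟩

theorem v1 {m k v : ℕ} (h : v < m) : Valid m k (1, v) := Or.inr (Or.inl ⟨rfl, h⟩)

theorem v2 {m k v : ℕ} (h : v < k) : Valid m k (2, v) := Or.inr (Or.inr ⟨rfl, h⟩)

theorem cons_mk {s : ℕ} {C : ℕ → ℕ × ℕ} {p q : ℕ × ℕ} (t : ℕ) (ht : t + 1 < s) (h1 : C t = p)
    (h2 : C (t + 1) = q) : Cons s C p q := Or.inl ⟨t, ht, h1, h2⟩

theorem cons_wrap {s : ℕ} {C : ℕ → ℕ × ℕ} {p q : ℕ × ℕ} (h1 : C (s - 1) = p)
    (h2 : C 0 = q) : Cons s C p q := Or.inr ⟨h1, h2⟩

/-- First cycle, `s = 4 g`. -/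
def CA (g t : ℕ) : ℕ × ℕ :=
  if t < 2 * g then (if t % 2 = 0 then (0, 2 * g + 1 + t / 2) else (1, 4 * g - t / 2))
  else (if t % 2 = 0 then (1, 2 * g - t / 2) else (0, t / 2 + 1))

/-- Second cycle, `s = 4 g`. -/
def DA (g t : ℕ) : ℕ × ℕ :=
  if t < 2 * g then (if t % 2 = 0 then (0, t / 2 + 1) else (0, 4 * g - t / 2))
  else (if t % 2 = 0 then (1, t / 2 + 1) else (1, 4 * g - t / 2))

theorem famA {g : ℕ} (hg : 1 ≤ g) :
    Fam (4 * g + 1) 1 (4 * g) 0 0 (CA g) (DA g) (fun _ => False) where
  valid_t := by omega
  valid_c := by
    intro t ht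
    unfold CA
    split_ifs <;> first | exact v0 (by omega) | exact v1 (by omega)
  valid_d := by
    intro t ht
    unfold DA
    split_ifs <;> first | exact v0 (by omega) | exact v1 (by omega)
  inj_c := by
    intro t ht u hu h
    unfold CA at h
    split_ifs at h <;> have h := pair_inj h <;> omega
  inj_d := by
    intro t ht u hu h
    unfold DA at h
    split_ifs at h <;> have h := pair_inj h <;> omega
  ne_cd := by
    intro t ht u hu
    unfold CA DA
    split_ifs <;> apply pair_ne <;> omega
  ne_tc := by
    intro t ht
    unfold CA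
    split_ifs <;> refine ⟨pair_ne ?_, pair_ne ?_, pair_ne ?_⟩ <;> omega
  ne_td := by
    intro t ht
    unfold DA
    split_ifs <;> refine ⟨pair_ne ?_, pair_ne ?_, pair_ne ?_⟩ <;> omega
  pure := by
    intro l hl δ h1 h2 _
    obtain rfl | rfl : l = 0 ∨ l = 1 := by omega
    · rcases Nat.lt_or_ge δ 2 with h3 | h3
      · refine ⟨2 * g, 2 * g + 1, Or.inl (cons_wrap ?_ ?_), Or.inl (by omega)⟩
        · unfold CA
          split_ifs <;> first | (exfalso; omega) | exact pair_eq (by omega) (by omega)
        · unfold CA
          split_ifs <;> first | (exfalso; omega) | exact pair_eq (by omega) (by omega)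
      · rcases Nat.even_or_odd' (δ - 2) with ⟨j, hj | hj⟩
        · refine ⟨j + 1, 4 * g - j,
            Or.inr (Or.inr (Or.inl (cons_mk (δ - 2) (by omega) ?_ ?_))), ?_⟩
          · unfold DA
            split_ifs <;> first | (exfalso; omega) | exact pair_eq (by omega) (by omega)
          · unfold DA
            split_ifs <;> first | (exfalso; omega) | exact pair_eq (by omega) (by omega)
          · unfold Rel
            omega
        · refine ⟨4 * g - j, j + 2,
            Or.inr (Or.inr (Or.inl (cons_mk (δ - 2) (by omega) ?_ ?_))), ?_⟩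
          · unfold DA
            split_ifs <;> first | (exfalso; omega) | exact pair_eq (by omega) (by omega)
          · unfold DA
            split_ifs <;> first | (exfalso; omega) | exact pair_eq (by omega) (by omega)
          · unfold Rel
            omega
    · rcases Nat.lt_or_ge δ (2 * g) with h3 | h3
      · rcases Nat.even_or_odd' (4 * g - 1 - δ) with ⟨j, hj | hj⟩
        · refine ⟨j + 1, 4 * g - j,
            Or.inr (Or.inr (Or.inl (cons_mk (4 * g - 1 - δ) (by omega) ?_ ?_))), ?_⟩
          · unfold DA
            split_ifs <;> first | (exfalso; omega) | exact pair_eq (by omega) (by omega)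
          · unfold DA
            split_ifs <;> first | (exfalso; omega) | exact pair_eq (by omega) (by omega)
          · unfold Rel
            omega
        · refine ⟨4 * g - j, j + 2,
            Or.inr (Or.inr (Or.inl (cons_mk (4 * g - 1 - δ) (by omega) ?_ ?_))), ?_⟩
          · unfold DA
            split_ifs <;> first | (exfalso; omega) | exact pair_eq (by omega) (by omega)
          · unfold DA
            split_ifs <;> first | (exfalso; omega) | exact pair_eq (by omega) (by omega)
          · unfold Rel
            omega
      · refine ⟨3 * g + 1, g, Or.inl (cons_mk (2 * g - 1) (by omega) ?_ ?_), ?_⟩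
        · unfold CA
          split_ifs <;> first | (exfalso; omega) | exact pair_eq (by omega) (by omega)
        · unfold CA
          split_ifs <;> first | (exfalso; omega) | exact pair_eq (by omega) (by omega)
        · unfold Rel
          omega
  mixed := by
    intro δ hδ
    rcases Nat.eq_zero_or_pos δ with h0 | h0
    · exact ⟨0, 0, Or.inr (Or.inr (Or.inr (Or.inr (Or.inr (Or.inl ⟨rfl, rfl⟩))))), by omega⟩
    rcases Nat.lt_or_ge δ (2 * g) with h1 | h1
    · rcases Nat.even_or_odd' (2 * g - 1 - δ) with ⟨j, hj | hj⟩
      · refine ⟨2 * g + 1 + j, 4 * g - j,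
          Or.inl (cons_mk (2 * g - 1 - δ) (by omega) ?_ ?_), by omega⟩
        · unfold CA
          split_ifs <;> first | (exfalso; omega) | exact pair_eq (by omega) (by omega)
        · unfold CA
          split_ifs <;> first | (exfalso; omega) | exact pair_eq (by omega) (by omega)
      · refine ⟨2 * g + 2 + j, 4 * g - j,
          Or.inr (Or.inl (cons_mk (2 * g - 1 - δ) (by omega) ?_ ?_)), by omega⟩
        · unfold CA
          split_ifs <;> first | (exfalso; omega) | exact pair_eq (by omega) (by omega)
        · unfold CA
          split_ifs <;> first | (exfalso; omega) | exact pair_eq (by omega) (by omega)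
    rcases Nat.lt_or_ge δ (2 * g + 1) with h2 | h2
    · refine ⟨1, 2 * g + 1, Or.inr (Or.inr (Or.inr (Or.inl (cons_wrap ?_ ?_)))), by omega⟩
      · unfold DA
        split_ifs <;> first | (exfalso; omega) | exact pair_eq (by omega) (by omega)
      · unfold DA
        split_ifs <;> first | (exfalso; omega) | exact pair_eq (by omega) (by omega)
    rcases Nat.lt_or_ge δ (2 * g + 2) with h3 | h3
    · refine ⟨3 * g + 1, g + 1,
        Or.inr (Or.inr (Or.inl (cons_mk (2 * g - 1) (by omega) ?_ ?_))), by omega⟩
      · unfold DA
        split_ifs <;> first | (exfalso; omega) | exact pair_eq (by omega) (by omega)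
      · unfold DA
        split_ifs <;> first | (exfalso; omega) | exact pair_eq (by omega) (by omega)
    rcases Nat.even_or_odd' (6 * g - δ) with ⟨j, hj | hj⟩
    · refine ⟨j + 1, 2 * g - j,
        Or.inr (Or.inl (cons_mk (6 * g - δ) (by omega) ?_ ?_)), by omega⟩
      · unfold CA
        split_ifs <;> first | (exfalso; omega) | exact pair_eq (by omega) (by omega)
      · unfold CA
        split_ifs <;> first | (exfalso; omega) | exact pair_eq (by omega) (by omega)
    · refine ⟨j + 1, 2 * g - j - 1,
        Or.inl (cons_mk (6 * g - δ) (by omega) ?_ ?_), by omega⟩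
      · unfold CA
        split_ifs <;> first | (exfalso; omega) | exact pair_eq (by omega) (by omega)
      · unfold CA
        split_ifs <;> first | (exfalso; omega) | exact pair_eq (by omega) (by omega)
  inf := by
    intro l hl j hj
    obtain rfl : j = 0 := by omega
    obtain rfl | rfl : l = 0 ∨ l = 1 := by omega
    · exact ⟨0, Or.inr (Or.inr (Or.inr (Or.inr (Or.inl ⟨rfl, rfl⟩))))⟩
    · exact ⟨0, Or.inr (Or.inr (Or.inr (Or.inr (Or.inr (Or.inr ⟨rfl, rfl⟩)))))⟩

/-- First cycle, `s = 4 g + 2`. -/
def CB (g t : ℕ) : ℕ × ℕ :=
  if t < 2 * g then (if t % 2 = 0 then (0, g + 2 + t / 2) else (1, 3 * g + 2 - t / 2))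
  else if t = 4 * g + 1 then (0, g + 1)
  else (if t % 2 = 0 then (1, 3 * g + 2 - t / 2) else (0, g + 3 + t / 2))

/-- Second cycle, `s = 4 g + 2`. -/
def DB (g t : ℕ) : ℕ × ℕ :=
  if t = 0 then (0, 2 * g + 2)
  else if t < 2 * g + 1 then (if t % 2 = 0 then (0, 4 * g + 3 - t / 2) else (0, 1 + t / 2))
  else (if t % 2 = 0 then (1, 2 * g + 2 + t / 2) else (1, 2 * g + 1 - t / 2))

theorem famB {g : ℕ} (hg : 1 ≤ g) :
    Fam (4 * g + 3) 1 (4 * g + 2) 0 0 (CB g) (DB g) (fun _ => False) where
  valid_t := by omega
  valid_c := by
    intro t ht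
    unfold CB
    split_ifs <;> first | exact v0 (by omega) | exact v1 (by omega)
  valid_d := by
    intro t ht
    unfold DB
    split_ifs <;> first | exact v0 (by omega) | exact v1 (by omega)
  inj_c := by
    intro t ht u hu h
    unfold CB at h
    split_ifs at h <;> have h := pair_inj h <;> omega
  inj_d := by
    intro t ht u hu h
    unfold DB at h
    split_ifs at h <;> have h := pair_inj h <;> omega
  ne_cd := by
    intro t ht u hu
    unfold CB DB
    split_ifs <;> apply pair_ne <;> omega
  ne_tc := by
    intro t ht
    unfold CB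
    split_ifs <;> refine ⟨pair_ne ?_, pair_ne ?_, pair_ne ?_⟩ <;> omega
  ne_td := by
    intro t ht
    unfold DB
    split_ifs <;> refine ⟨pair_ne ?_, pair_ne ?_, pair_ne ?_⟩ <;> omega
  pure := by
    intro l hl δ h1 h2 _
    obtain rfl | rfl : l = 0 ∨ l = 1 := by omega
    · rcases Nat.lt_or_ge δ 2 with h3 | h3
      · refine ⟨g + 1, g + 2, Or.inl (cons_wrap ?_ ?_), Or.inl (by omega)⟩
        · unfold CB
          split_ifs <;> first | (exfalso; omega) | exact pair_eq (by omega) (by omega)
        · unfold CB
          split_ifs <;> first | (exfalso; omega) | exact pair_eq (by omega) (by omega)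
      rcases Nat.lt_or_ge δ (2 * g + 1) with h4 | h4
      · rcases Nat.even_or_odd' (δ - 1) with ⟨j, hj | hj⟩
        · refine ⟨4 * g + 3 - j, j + 1,
            Or.inr (Or.inr (Or.inl (cons_mk (δ - 1) (by omega) ?_ ?_))), ?_⟩
          · unfold DB
            split_ifs <;> first | (exfalso; omega) | exact pair_eq (by omega) (by omega)
          · unfold DB
            split_ifs <;> first | (exfalso; omega) | exact pair_eq (by omega) (by omega)
          · unfold Rel
            omega
        · refine ⟨j + 1, 4 * g + 2 - j,
            Or.inr (Or.inr (Or.inl (cons_mk (δ - 1) (by omega) ?_ ?_))), ?_⟩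
          · unfold DB
            split_ifs <;> first | (exfalso; omega) | exact pair_eq (by omega) (by omega)
          · unfold DB
            split_ifs <;> first | (exfalso; omega) | exact pair_eq (by omega) (by omega)
          · unfold Rel
            omega
      · refine ⟨2 * g + 2, 1,
            Or.inr (Or.inr (Or.inl (cons_mk 0 (by omega) ?_ ?_))), ?_⟩
        · unfold DB
          split_ifs <;> first | (exfalso; omega) | exact pair_eq (by omega) (by omega)
        · unfold DB
          split_ifs <;> first | (exfalso; omega) | exact pair_eq (by omega) (by omega)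
        · unfold Rel
          omega
    · rcases Nat.lt_or_ge δ 2 with h3 | h3
      · refine ⟨2 * g + 3, 2 * g + 2, Or.inl (cons_mk (2 * g - 1) (by omega) ?_ ?_), ?_⟩
        · unfold CB
          split_ifs <;> first | (exfalso; omega) | exact pair_eq (by omega) (by omega)
        · unfold CB
          split_ifs <;> first | (exfalso; omega) | exact pair_eq (by omega) (by omega)
        · unfold Rel
          omega
      · rcases Nat.even_or_odd' (4 * g + 2 - δ) with ⟨j, hj | hj⟩
        · refine ⟨2 * g + 2 + j, 2 * g + 1 - j,
            Or.inr (Or.inr (Or.inl (cons_mk (4 * g + 2 - δ) (by omega) ?_ ?_))), ?_⟩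
          · unfold DB
            split_ifs <;> first | (exfalso; omega) | exact pair_eq (by omega) (by omega)
          · unfold DB
            split_ifs <;> first | (exfalso; omega) | exact pair_eq (by omega) (by omega)
          · unfold Rel
            omega
        · refine ⟨2 * g + 1 - j, 2 * g + 3 + j,
            Or.inr (Or.inr (Or.inl (cons_mk (4 * g + 2 - δ) (by omega) ?_ ?_))), ?_⟩
          · unfold DB
            split_ifs <;> first | (exfalso; omega) | exact pair_eq (by omega) (by omega)
          · unfold DB
            split_ifs <;> first | (exfalso; omega) | exact pair_eq (by omega) (by omega)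
          · unfold Rel
            omega
  mixed := by
    intro δ hδ
    rcases Nat.eq_zero_or_pos δ with h0 | h0
    · exact ⟨0, 0, Or.inr (Or.inr (Or.inr (Or.inr (Or.inr (Or.inl ⟨rfl, rfl⟩))))), by omega⟩
    rcases Nat.lt_or_ge δ 2 with h1 | h1
    · refine ⟨g + 1, g + 2, Or.inr (Or.inl (cons_mk (4 * g) (by omega) ?_ ?_)), by omega⟩
      · unfold CB
        split_ifs <;> first | (exfalso; omega) | exact pair_eq (by omega) (by omega)
      · unfold CB
        split_ifs <;> first | (exfalso; omega) | exact pair_eq (by omega) (by omega)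
    rcases Nat.lt_or_ge δ (2 * g + 1) with h2 | h2
    · rcases Nat.even_or_odd' (2 * g - δ) with ⟨j, hj | hj⟩
      · refine ⟨g + 2 + j, 3 * g + 2 - j,
          Or.inl (cons_mk (2 * g - δ) (by omega) ?_ ?_), by omega⟩
        · unfold CB
          split_ifs <;> first | (exfalso; omega) | exact pair_eq (by omega) (by omega)
        · unfold CB
          split_ifs <;> first | (exfalso; omega) | exact pair_eq (by omega) (by omega)
      · refine ⟨g + 3 + j, 3 * g + 2 - j,
          Or.inr (Or.inl (cons_mk (2 * g - δ) (by omega) ?_ ?_)), by omega⟩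
        · unfold CB
          split_ifs <;> first | (exfalso; omega) | exact pair_eq (by omega) (by omega)
        · unfold CB
          split_ifs <;> first | (exfalso; omega) | exact pair_eq (by omega) (by omega)
    rcases Nat.lt_or_ge δ (2 * g + 2) with h3 | h3
    · refine ⟨3 * g + 3, g + 1,
        Or.inr (Or.inr (Or.inl (cons_mk (2 * g) (by omega) ?_ ?_))), by omega⟩
      · unfold DB
        split_ifs <;> first | (exfalso; omega) | exact pair_eq (by omega) (by omega)
      · unfold DB
        split_ifs <;> first | (exfalso; omega) | exact pair_eq (by omega) (by omega)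
    rcases Nat.lt_or_ge δ (2 * g + 3) with h4 | h4
    · refine ⟨2 * g + 2, 1, Or.inr (Or.inr (Or.inr (Or.inl (cons_wrap ?_ ?_)))), by omega⟩
      · unfold DB
        split_ifs <;> first | (exfalso; omega) | exact pair_eq (by omega) (by omega)
      · unfold DB
        split_ifs <;> first | (exfalso; omega) | exact pair_eq (by omega) (by omega)
    rcases Nat.even_or_odd' (6 * g + 2 - δ) with ⟨j, hj | hj⟩
    · refine ⟨g + 3 + j, 3 * g + 2 - j,
        Or.inr (Or.inl (cons_mk (6 * g + 2 - δ) (by omega) ?_ ?_)), by omega⟩
      · unfold CB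
        split_ifs <;> first | (exfalso; omega) | exact pair_eq (by omega) (by omega)
      · unfold CB
        split_ifs <;> first | (exfalso; omega) | exact pair_eq (by omega) (by omega)
    · refine ⟨g + 3 + j, 3 * g + 1 - j,
        Or.inl (cons_mk (6 * g + 2 - δ) (by omega) ?_ ?_), by omega⟩
      · unfold CB
        split_ifs <;> first | (exfalso; omega) | exact pair_eq (by omega) (by omega)
      · unfold CB
        split_ifs <;> first | (exfalso; omega) | exact pair_eq (by omega) (by omega)
  inf := by
    intro l hl j hj
    obtain rfl : j = 0 := by omega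
    obtain rfl | rfl : l = 0 ∨ l = 1 := by omega
    · exact ⟨0, Or.inr (Or.inr (Or.inr (Or.inr (Or.inl ⟨rfl, rfl⟩))))⟩
    · exact ⟨0, Or.inr (Or.inr (Or.inr (Or.inr (Or.inr (Or.inr ⟨rfl, rfl⟩)))))⟩

/-- First cycle, `s = 2 h + 1`. -/
def CO (h t : ℕ) : ℕ × ℕ :=
  if t = 2 * h then (2, 1)
  else if t % 2 = 0 then (0, t / 2) else (1, h - 1 - t / 2)

/-- Second cycle, `s = 2 h + 1`. -/
def DO (h t : ℕ) : ℕ × ℕ :=
  if t = h then (2, 2)
  else if t < h then (if t % 2 = 0 then (0, 2 * h - t / 2) else (0, h + 1 + t / 2))
  else (if t % 2 = 0 then (1, 2 * h - t / 2) else (1, h + t / 2))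

theorem famO {h : ℕ} (hh : 1 ≤ h) :
    Fam (2 * h + 1) 3 (2 * h + 1) h (2 * h) (CO h) (DO h) (fun δ => δ = h) where
  valid_t := by omega
  valid_c := by
    intro t ht
    unfold CO
    split_ifs <;> first | exact v0 (by omega) | exact v1 (by omega) | exact v2 (by omega)
  valid_d := by
    intro t ht
    unfold DO
    split_ifs <;> first | exact v0 (by omega) | exact v1 (by omega) | exact v2 (by omega)
  inj_c := by
    intro t ht u hu e
    unfold CO at e
    split_ifs at e <;> have e := pair_inj e <;> omega
  inj_d := by
    intro t ht u hu e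
    unfold DO at e
    split_ifs at e <;> have e := pair_inj e <;> omega
  ne_cd := by
    intro t ht u hu
    unfold CO DO
    split_ifs <;> apply pair_ne <;> omega
  ne_tc := by
    intro t ht
    unfold CO
    split_ifs <;> refine ⟨pair_ne ?_, pair_ne ?_, pair_ne ?_⟩ <;> omega
  ne_td := by
    intro t ht
    unfold DO
    split_ifs <;> refine ⟨pair_ne ?_, pair_ne ?_, pair_ne ?_⟩ <;> omega
  pure := by
    intro l hl δ h1 h2 h3
    obtain rfl | rfl : l = 0 ∨ l = 1 := by omega
    · rcases Nat.even_or_odd' (h - 1 - δ) with ⟨j, hj | hj⟩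
      · refine ⟨2 * h - j, h + 1 + j,
          Or.inr (Or.inr (Or.inl (cons_mk (h - 1 - δ) (by omega) ?_ ?_))), ?_⟩
        · unfold DO
          split_ifs <;> first | (exfalso; omega) | exact pair_eq (by omega) (by omega)
        · unfold DO
          split_ifs <;> first | (exfalso; omega) | exact pair_eq (by omega) (by omega)
        · unfold Rel
          omega
      · refine ⟨h + 1 + j, 2 * h - 1 - j,
          Or.inr (Or.inr (Or.inl (cons_mk (h - 1 - δ) (by omega) ?_ ?_))), ?_⟩
        · unfold DO
          split_ifs <;> first | (exfalso; omega) | exact pair_eq (by omega) (by omega)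
        · unfold DO
          split_ifs <;> first | (exfalso; omega) | exact pair_eq (by omega) (by omega)
        · unfold Rel
          omega
    · rcases Nat.even_or_odd' (h + δ) with ⟨j, hj | hj⟩
      · refine ⟨2 * h - j, h + j,
          Or.inr (Or.inr (Or.inl (cons_mk (h + δ) (by omega) ?_ ?_))), ?_⟩
        · unfold DO
          split_ifs <;> first | (exfalso; omega) | exact pair_eq (by omega) (by omega)
        · unfold DO
          split_ifs <;> first | (exfalso; omega) | exact pair_eq (by omega) (by omega)
        · unfold Rel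
          omega
      · refine ⟨h + j, 2 * h - 1 - j,
          Or.inr (Or.inr (Or.inl (cons_mk (h + δ) (by omega) ?_ ?_))), ?_⟩
        · unfold DO
          split_ifs <;> first | (exfalso; omega) | exact pair_eq (by omega) (by omega)
        · unfold DO
          split_ifs <;> first | (exfalso; omega) | exact pair_eq (by omega) (by omega)
        · unfold Rel
          omega
  mixed := by
    intro δ hδ
    rcases Nat.lt_or_ge δ h with h1 | h1
    · rcases Nat.even_or_odd' (h - 1 - δ) with ⟨j, hj | hj⟩
      · refine ⟨j, h - 1 - j, Or.inl (cons_mk (h - 1 - δ) (by omega) ?_ ?_), by omega⟩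
        · unfold CO
          split_ifs <;> first | (exfalso; omega) | exact pair_eq (by omega) (by omega)
        · unfold CO
          split_ifs <;> first | (exfalso; omega) | exact pair_eq (by omega) (by omega)
      · refine ⟨j + 1, h - 1 - j,
          Or.inr (Or.inl (cons_mk (h - 1 - δ) (by omega) ?_ ?_)), by omega⟩
        · unfold CO
          split_ifs <;> first | (exfalso; omega) | exact pair_eq (by omega) (by omega)
        · unfold CO
          split_ifs <;> first | (exfalso; omega) | exact pair_eq (by omega) (by omega)
    rcases Nat.lt_or_ge δ (h + 1) with h2 | h2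
    · exact ⟨h, 2 * h, Or.inr (Or.inr (Or.inr (Or.inr (Or.inr (Or.inl ⟨rfl, rfl⟩))))),
        by omega⟩
    rcases Nat.lt_or_ge δ (h + 2) with h3 | h3
    · refine ⟨2 * h, h, Or.inr (Or.inr (Or.inr (Or.inl (cons_wrap ?_ ?_)))), by omega⟩
      · unfold DO
        split_ifs <;> first | (exfalso; omega) | exact pair_eq (by omega) (by omega)
      · unfold DO
        split_ifs <;> first | (exfalso; omega) | exact pair_eq (by omega) (by omega)
    rcases Nat.even_or_odd' (3 * h - δ) with ⟨j, hj | hj⟩
    · refine ⟨j, h - 1 - j, Or.inl (cons_mk (3 * h - δ) (by omega) ?_ ?_), by omega⟩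
      · unfold CO
        split_ifs <;> first | (exfalso; omega) | exact pair_eq (by omega) (by omega)
      · unfold CO
        split_ifs <;> first | (exfalso; omega) | exact pair_eq (by omega) (by omega)
    · refine ⟨j + 1, h - 1 - j,
        Or.inr (Or.inl (cons_mk (3 * h - δ) (by omega) ?_ ?_)), by omega⟩
      · unfold CO
        split_ifs <;> first | (exfalso; omega) | exact pair_eq (by omega) (by omega)
      · unfold CO
        split_ifs <;> first | (exfalso; omega) | exact pair_eq (by omega) (by omega)
  inf := by
    intro l hl j hj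
    obtain rfl | rfl | rfl : j = 0 ∨ j = 1 ∨ j = 2 := by omega
    · obtain rfl | rfl : l = 0 ∨ l = 1 := by omega
      · exact ⟨h, Or.inr (Or.inr (Or.inr (Or.inr (Or.inl ⟨rfl, rfl⟩))))⟩
      · exact ⟨2 * h, Or.inr (Or.inr (Or.inr (Or.inr (Or.inr (Or.inr ⟨rfl, rfl⟩)))))⟩
    · obtain rfl | rfl : l = 0 ∨ l = 1 := by omega
      · refine ⟨0, Or.inl (cons_wrap ?_ ?_)⟩
        · unfold CO
          split_ifs <;> first | (exfalso; omega) | exact pair_eq (by omega) (by omega)
        · unfold CO
          split_ifs <;> first | (exfalso; omega) | exact pair_eq (by omega) (by omega)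
      · refine ⟨0, Or.inr (Or.inl (cons_mk (2 * h - 1) (by omega) ?_ ?_))⟩
        · unfold CO
          split_ifs <;> first | (exfalso; omega) | exact pair_eq (by omega) (by omega)
        · unfold CO
          split_ifs <;> first | (exfalso; omega) | exact pair_eq (by omega) (by omega)
    · obtain rfl | rfl : l = 0 ∨ l = 1 := by omega
      · rcases Nat.even_or_odd' (h - 1) with ⟨j, hj | hj⟩
        · refine ⟨2 * h - j,
            Or.inr (Or.inr (Or.inr (Or.inl (cons_mk (h - 1) (by omega) ?_ ?_))))⟩
          · unfold DO
            split_ifs <;> first | (exfalso; omega) | exact pair_eq (by omega) (by omega)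
          · unfold DO
            split_ifs <;> first | (exfalso; omega) | exact pair_eq (by omega) (by omega)
        · refine ⟨h + 1 + j,
            Or.inr (Or.inr (Or.inr (Or.inl (cons_mk (h - 1) (by omega) ?_ ?_))))⟩
          · unfold DO
            split_ifs <;> first | (exfalso; omega) | exact pair_eq (by omega) (by omega)
          · unfold DO
            split_ifs <;> first | (exfalso; omega) | exact pair_eq (by omega) (by omega)
      · rcases Nat.even_or_odd' (h + 1) with ⟨j, hj | hj⟩
        · refine ⟨2 * h - j,
            Or.inr (Or.inr (Or.inl (cons_mk h (by omega) ?_ ?_)))⟩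
          · unfold DO
            split_ifs <;> first | (exfalso; omega) | exact pair_eq (by omega) (by omega)
          · unfold DO
            split_ifs <;> first | (exfalso; omega) | exact pair_eq (by omega) (by omega)
        · refine ⟨h + j,
            Or.inr (Or.inr (Or.inl (cons_mk h (by omega) ?_ ?_)))⟩
          · unfold DO
            split_ifs <;> first | (exfalso; omega) | exact pair_eq (by omega) (by omega)
          · unfold DO
            split_ifs <;> first | (exfalso; omega) | exact pair_eq (by omega) (by omega)

end Pool.Agent.R67.OW
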