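import Mathlib

/-!
# Stacked books: the numbers

`k = 2 h + 1` leaves. From the row `2` on, the labels of the leaves of a row are described by a
bijection of the leaves onto `S = {0, …, 2 h + 1} \ {h}`, and one passes to the next row by the
permutation `sig h` of `S`.
-/

set_option autoImplicit false

namespace Pool.Agent.R67.SB

/-- The permutation of `S = {0, …, 2 h + 1} \ {h}`. -/
def sig (h s : ℕ) : ℕ :=
  if s = 2 * h + 1 then (h - 1) / 2 else if s = 2 * h then 2 * h + 1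
  else if s % 2 = 1 then (if s < h then h - (s + 1) / 2 else 2 * h - s / 2)
  else (if s < h then 2 * h - s / 2 else h - 1 - s / 2)

theorem sig_mem {h s : ℕ} (hh : 1 ≤ h) (h1 : s ≤ 2 * h + 1) (h2 : s ≠ h) :
    sig h s ≤ 2 * h + 1 ∧ sig h s ≠ h := by
  unfold sig
  split_ifs <;> omega

theorem sig_inj {h s t : ℕ} (hh : 1 ≤ h) (h1 : s ≤ 2 * h + 1) (h2 : s ≠ h)
    (h3 : t ≤ 2 * h + 1) (h4 : t ≠ h) (e : sig h s = sig h t) : s = t := by
  unfold sig at e
  split_ifs at e <;> omega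

theorem sig_surj {h b : ℕ} (hh : 1 ≤ h) (h1 : b ≤ 2 * h + 1) (h2 : b ≠ h) :
    ∃ s, s ≤ 2 * h + 1 ∧ s ≠ h ∧ sig h s = b := by
  by_cases c1 : b = 2 * h + 1
  · exact ⟨2 * h, by omega, by omega, by unfold sig; split_ifs <;> omega⟩
  by_cases c2 : b = (h - 1) / 2
  · exact ⟨2 * h + 1, by omega, by omega, by unfold sig; split_ifs <;> omega⟩
  by_cases c3 : b < h
  · by_cases c4 : 2 * b + 2 < h
    · exact ⟨2 * (h - 1 - b), by omega, by omega, by unfold sig; split_ifs <;> omega⟩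
    · exact ⟨2 * (h - b) - 1, by omega, by omega, by unfold sig; split_ifs <;> omega⟩
  · by_cases c4 : 2 * b ≤ 3 * h
    · exact ⟨2 * (2 * h - b) + 1, by omega, by omega, by unfold sig; split_ifs <;> omega⟩
    · exact ⟨2 * (2 * h - b), by omega, by omega, by unfold sig; split_ifs <;> omega⟩

theorem sig_sum {h t : ℕ} (hh : 1 ≤ h) (h1 : h ≤ t) (h2 : t ≤ 3 * h) (h3 : t + 1 ≠ 2 * h) :
    ∃ s, s ≤ 2 * h + 1 ∧ s ≠ h ∧ s + sig h s = t := by
  by_cases c1 : t = 2 * h + 1 + (h - 1) / 2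
  · exact ⟨2 * h + 1, by omega, by omega, by unfold sig; split_ifs <;> omega⟩
  by_cases c2 : t < 2 * h
  · by_cases c3 : 2 * t + 2 ≤ 3 * h
    · exact ⟨2 * (t - h) + 1, by omega, by omega, by unfold sig; split_ifs <;> omega⟩
    · exact ⟨2 * (t + 1 - h), by omega, by omega, by unfold sig; split_ifs <;> omega⟩
  · by_cases c3 : 2 * t < 5 * h
    · exact ⟨2 * (t - 2 * h), by omega, by omega, by unfold sig; split_ifs <;> omega⟩
    · exact ⟨2 * (t - 2 * h) - 1, by omega, by omega, by unfold sig; split_ifs <;> omega⟩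

theorem sig_top {h : ℕ} (hh : 1 ≤ h) : 2 * h + sig h (2 * h) = 4 * h + 1 := by
  unfold sig
  split_ifs <;> omega

/-- The data of the first three rows. -/
structure Base (h c : ℕ) (s0 s1 s2 : Fin (2 * h + 1) → ℕ) : Prop where
  hc : c < 4 * h + 3
  s0_inj : Function.Injective s0
  s0_ne : ∀ j, s0 j ≠ c
  s0_lt : ∀ j, s0 j < 4 * h + 3 ∨ s0 j = 5 * h + 3
  s1_inj : Function.Injective s1
  s1_gt : ∀ j, c < s1 j
  s1_lt : ∀ j, s1 j < c + 4 * h + 2
  s2_inj : Function.Injective s2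
  s2_mem : ∀ j, s2 j ≤ 2 * h + 1 ∧ s2 j ≠ h
  s2_surj : ∀ s, s ≤ 2 * h + 1 → s ≠ h → ∃ j, s2 j = s
  cover : ∀ v, v < 10 * h + 7 → (∃ j, s0 j = v) ∨ (∃ j, s1 j = v) ∨
    (∃ j, 8 * h + 5 + s2 j = v) ∨ v = c ∨ v = c + 4 * h + 2 ∨ (∃ j, s0 j + s1 j = v + c) ∨
    (∃ j, s1 j + s2 j + 4 * h + 3 = v + c)

/-- The values of the leaves in the row `i + 2`. -/
def rw' {h : ℕ} (s2 : Fin (2 * h + 1) → ℕ) : ℕ → Fin (2 * h + 1) → ℕ
  | 0 => s2
  | i + 1 => fun j => sig h (rw' s2 i j)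

section
variable {h c : ℕ} {s0 s1 s2 : Fin (2 * h + 1) → ℕ}

theorem rw_mem (hh : 1 ≤ h) (B : Base h c s0 s1 s2) (i : ℕ) (j : Fin (2 * h + 1)) :
    rw' s2 i j ≤ 2 * h + 1 ∧ rw' s2 i j ≠ h := by
  induction i with
  | zero => exact B.s2_mem j
  | succ i ih => exact sig_mem hh ih.1 ih.2

theorem rw_inj (hh : 1 ≤ h) (B : Base h c s0 s1 s2) (i : ℕ) : Function.Injective (rw' s2 i) := by
  induction i with
  | zero => exact B.s2_inj
  | succ i ih =>
    intro a b e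
    exact ih (sig_inj hh (rw_mem hh B i a).1 (rw_mem hh B i a).2 (rw_mem hh B i b).1
      (rw_mem hh B i b).2 e)

theorem rw_surj (hh : 1 ≤ h) (B : Base h c s0 s1 s2) (i : ℕ) (s : ℕ) (h1 : s ≤ 2 * h + 1)
    (h2 : s ≠ h) : ∃ j, rw' s2 i j = s := by
  induction i generalizing s with
  | zero => exact B.s2_surj s h1 h2
  | succ i ih =>
    obtain ⟨t, ht1, ht2, ht⟩ := sig_surj hh h1 h2
    obtain ⟨j, hj⟩ := ih t ht1 ht2
    exact ⟨j, by show sig h (rw' s2 i j) = s; rw [hj, ht]⟩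

/-- The number of the centre of the row `i`. -/
def pc (h c i : ℕ) : ℕ :=
  if i = 0 then 0 else if i = 1 then c
  else if i % 2 = 0 then (i / 2) * (4 * h + 3) - 1 else (i / 2) * (4 * h + 3) + 3 * h + 1

/-- The number of the leaf `j` in the row `i`. -/
def pl (c : ℕ) (s0 s1 s2 : Fin (2 * h + 1) → ℕ) (i : ℕ) (j : Fin (2 * h + 1)) : ℕ :=
  if i = 0 then s0 j else if i = 1 then s1 j - c
  else if i % 2 = 0 then (i / 2) * (4 * h + 3) + rw' s2 (i - 2) j
  else (i / 2) * (4 * h + 3) + h + 1 + rw' s2 (i - 2) j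

/-- The sum `v` is attained by an edge among the rows `0, …, N`. -/
def Att (N c : ℕ) (s0 s1 s2 : Fin (2 * h + 1) → ℕ) (v : ℕ) : Prop :=
  (∃ i j, i ≤ N ∧ pc h c i + pl c s0 s1 s2 i j = v) ∨
  (∃ i, i + 1 ≤ N ∧ pc h c i + pc h c (i + 1) = v) ∨
  (∃ i j, i + 1 ≤ N ∧ pl c s0 s1 s2 i j + pl c s0 s1 s2 (i + 1) j = v)

theorem att_base (hh : 1 ≤ h) (B : Base h c s0 s1 s2) {N v : ℕ} (hN : 2 ≤ N)
    (hv : v < 10 * h + 7) : Att N c s0 s1 s2 v := by
  have c0 : pc h c 0 = 0 := rfl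
  have c1 : pc h c 1 = c := rfl
  have c2 : pc h c 2 = 4 * h + 2 := by simp [pc]
  have l0 : ∀ j, pl c s0 s1 s2 0 j = s0 j := fun j => rfl
  have l1 : ∀ j, pl c s0 s1 s2 1 j = s1 j - c := fun j => rfl
  have l2 : ∀ j, pl c s0 s1 s2 2 j = 4 * h + 3 + s2 j := fun j => by simp [pl, rw']
  rcases B.cover v hv with ⟨j, hj⟩ | ⟨j, hj⟩ | ⟨j, hj⟩ | hj | hj | ⟨j, hj⟩ | ⟨j, hj⟩
  · exact Or.inl ⟨0, j, by omega, by rw [c0, l0]; omega⟩
  · have := B.s1_gt j
    exact Or.inl ⟨1, j, by omega, by rw [c1, l1]; omega⟩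
  · exact Or.inl ⟨2, j, by omega, by rw [c2, l2]; omega⟩
  · exact Or.inr (Or.inl ⟨0, by omega, by rw [c0, zero_add, c1]; omega⟩)
  · exact Or.inr (Or.inl ⟨1, by omega, by rw [c1]; show c + pc h c 2 = v; rw [c2]; omega⟩)
  · have := B.s1_gt j
    exact Or.inr (Or.inr ⟨0, j, by omega, by rw [l0, zero_add, l1]; omega⟩)
  · have := B.s1_gt j
    exact Or.inr (Or.inr ⟨1, j, by omega, by
      rw [l1]; show s1 j - c + pl c s0 s1 s2 2 j = v; rw [l2]; omega⟩)

theorem pc_even {u : ℕ} (hu : 1 ≤ u) : pc h c (2 * u) = u * (4 * h + 3) - 1 := by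
  unfold pc
  rw [if_neg (by omega), if_neg (by omega), if_pos (by omega), show 2 * u / 2 = u by omega]

theorem pc_odd {u : ℕ} (hu : 1 ≤ u) : pc h c (2 * u + 1) = u * (4 * h + 3) + 3 * h + 1 := by
  unfold pc
  rw [if_neg (by omega), if_neg (by omega), if_neg (by omega), show (2 * u + 1) / 2 = u by omega]

theorem pl_even {u : ℕ} (hu : 1 ≤ u) (j : Fin (2 * h + 1)) :
    pl c s0 s1 s2 (2 * u) j = u * (4 * h + 3) + rw' s2 (2 * u - 2) j := by
  unfold pl
  rw [if_neg (by omega), if_neg (by omega), if_pos (by omega), show 2 * u / 2 = u by omega]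

theorem pl_odd {u : ℕ} (hu : 1 ≤ u) (j : Fin (2 * h + 1)) :
    pl c s0 s1 s2 (2 * u + 1) j = u * (4 * h + 3) + h + 1 + rw' s2 (2 * u + 1 - 2) j := by
  unfold pl
  rw [if_neg (by omega), if_neg (by omega), if_neg (by omega), show (2 * u + 1) / 2 = u by omega]

/-- Later blocks. -/
theorem att_step (hh : 1 ≤ h) (B : Base h c s0 s1 s2) {N i r : ℕ} (hi : 2 ≤ i)
    (hN : i + 1 ≤ N) (hr : r < 4 * h + 3) :
    Att N c s0 s1 s2 (i * (4 * h + 3) + 2 * h + 1 + r) := by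
  obtain ⟨w, rfl⟩ : ∃ w, i = w + 2 := ⟨i - 2, by omega⟩
  -- sums
  have D : pc h c (w + 2) + pc h c (w + 2 + 1) = (w + 2) * (4 * h + 3) + 3 * h := by
    rcases Nat.even_or_odd' w with ⟨u, rfl | rfl⟩
    · rw [show 2 * u + 2 = 2 * (u + 1) by ring, pc_even (by omega), pc_odd (by omega)]
      have e : 2 * (u + 1) * (4 * h + 3) = 2 * ((u + 1) * (4 * h + 3)) := by ring
      have e2 : 4 * h + 3 ≤ (u + 1) * (4 * h + 3) := Nat.le_mul_of_pos_left _ (by omega)
      rw [e]; omega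
    · rw [show 2 * u + 1 + 2 = 2 * (u + 1) + 1 by ring, pc_odd (by omega),
        show 2 * (u + 1) + 1 + 1 = 2 * (u + 2) by ring, pc_even (by omega)]
      have e : (2 * (u + 1) + 1) * (4 * h + 3) = 2 * ((u + 1) * (4 * h + 3)) + (4 * h + 3) := by
        ring
      have e2 : (u + 2) * (4 * h + 3) = (u + 1) * (4 * h + 3) + (4 * h + 3) := by ring
      rw [e, e2]; omega
  have V : ∀ j, pl c s0 s1 s2 (w + 2) j + pl c s0 s1 s2 (w + 2 + 1) j =
      (w + 2) * (4 * h + 3) + h + 1 + (rw' s2 w j + sig h (rw' s2 w j)) := by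
    intro j
    have e0 : rw' s2 (w + 1) j = sig h (rw' s2 w j) := rfl
    rcases Nat.even_or_odd' w with ⟨u, rfl | rfl⟩
    · rw [show 2 * u + 2 = 2 * (u + 1) by ring, pl_even (by omega), pl_odd (by omega),
        show 2 * (u + 1) - 2 = 2 * u by omega, show 2 * (u + 1) + 1 - 2 = 2 * u + 1 by omega, e0]
      have e : 2 * (u + 1) * (4 * h + 3) = 2 * ((u + 1) * (4 * h + 3)) := by ring
      rw [e]; omega
    · rw [show 2 * u + 1 + 2 = 2 * (u + 1) + 1 by ring, pl_odd (by omega),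
        show 2 * (u + 1) + 1 + 1 = 2 * (u + 2) by ring, pl_even (by omega),
        show 2 * (u + 1) + 1 - 2 = 2 * u + 1 by omega,
        show 2 * (u + 2) - 2 = 2 * u + 1 + 1 by omega, e0]
      have e : (2 * (u + 1) + 1) * (4 * h + 3) = 2 * ((u + 1) * (4 * h + 3)) + (4 * h + 3) := by
        ring
      have e2 : (u + 2) * (4 * h + 3) = (u + 1) * (4 * h + 3) + (4 * h + 3) := by ring
      rw [e, e2]; omega
  have S : ∀ j, pc h c (w + 2 + 1) + pl c s0 s1 s2 (w + 2 + 1) j =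
      (w + 2) * (4 * h + 3) + 4 * h + 2 + rw' s2 (w + 1) j := by
    intro j
    rcases Nat.even_or_odd' w with ⟨u, rfl | rfl⟩
    · rw [show 2 * u + 2 = 2 * (u + 1) by ring, pc_odd (by omega), pl_odd (by omega),
        show 2 * (u + 1) + 1 - 2 = 2 * u + 1 by omega]
      have e : 2 * (u + 1) * (4 * h + 3) = 2 * ((u + 1) * (4 * h + 3)) := by ring
      rw [e]; omega
    · rw [show 2 * u + 1 + 2 + 1 = 2 * (u + 2) by ring, pc_even (by omega), pl_even (by omega),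
        show 2 * (u + 2) - 2 = 2 * u + 1 + 1 by omega]
      have e : (2 * u + 1 + 2) * (4 * h + 3) = 2 * ((u + 1) * (4 * h + 3)) + (4 * h + 3) := by
        ring
      have e2 : (u + 2) * (4 * h + 3) = (u + 1) * (4 * h + 3) + (4 * h + 3) := by ring
      rw [e, e2]; omega
  by_cases h1 : r ≤ 2 * h
  · by_cases h2 : r + 1 = h
    · exact Or.inr (Or.inl ⟨w + 2, hN, by rw [D]; omega⟩)
    · obtain ⟨s, hs1, hs2, hs⟩ := sig_sum (h := h) (t := r + h) hh (by omega) (by omega) (by omega)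
      obtain ⟨j, hj⟩ := rw_surj hh B w s hs1 hs2
      exact Or.inr (Or.inr ⟨w + 2, j, hN, by rw [V, hj]; omega⟩)
  · by_cases h2 : r = 3 * h + 1
    · obtain ⟨j, hj⟩ := rw_surj hh B w (2 * h) (by omega) (by omega)
      have := sig_top hh
      exact Or.inr (Or.inr ⟨w + 2, j, hN, by rw [V, hj]; omega⟩)
    · obtain ⟨j, hj⟩ := rw_surj hh B (w + 1) (r - (2 * h + 1)) (by omega) (by omega)
      exact Or.inl ⟨w + 2 + 1, j, hN, by rw [S, hj]; omega⟩

theorem att_all (hh : 1 ≤ h) (B : Base h c s0 s1 s2) {N v : ℕ} (hN : 2 ≤ N)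
    (hv : v < N * (4 * h + 3) + 2 * h + 1) : Att N c s0 s1 s2 v := by
  by_cases h1 : v < 10 * h + 7
  · exact att_base hh B hN h1
  · obtain ⟨a, r, hr, hw⟩ : ∃ a r, r < 4 * h + 3 ∧ v - (10 * h + 7) = a * (4 * h + 3) + r :=
      ⟨(v - (10 * h + 7)) / (4 * h + 3), (v - (10 * h + 7)) % (4 * h + 3),
        Nat.mod_lt _ (by omega), by
        have := Nat.div_add_mod' (v - (10 * h + 7)) (4 * h + 3); omega⟩
    have e : (a + 2) * (4 * h + 3) = a * (4 * h + 3) + (8 * h + 6) := by ring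
    have hle : a + 2 + 1 ≤ N := by
      by_contra hc
      have : N * (4 * h + 3) ≤ (a + 2) * (4 * h + 3) := Nat.mul_le_mul_right _ (by omega)
      omega
    have := att_step hh B (i := a + 2) (r := r) (by omega) hle hr
    have e2 : v = (a + 2) * (4 * h + 3) + 2 * h + 1 + r := by omega
    rw [e2]
    exact this

end

end Pool.Agent.R67.SB
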