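import Pool.Agent.R67.SB1

/-!
# Stacked books: the first three rows
-/

set_option autoImplicit false

namespace Pool.Agent.R67.SB

/-- Row `0` for `h ≥ 3`. -/
def g0 (h j : ℕ) : ℕ := if j ≤ h then j else j + 1

/-- From row `0` to row `1`. -/
def gx (h a : ℕ) : ℕ :=
  if a = h then 3 * h + 3 else if a = 2 then 7 * h + 3 else if a = 0 then 5 * h + 4 + h / 2
  else if a = 2 * h + 1 then 4 * h + 3 + (h + 1) / 2
  else if a % 2 = 1 then 4 * h + 3 + (2 * h + 1 - a) / 2 else 6 * h + 4 - a / 2

/-- From row `1` to row `2`. -/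
def gy (h b : ℕ) : ℕ :=
  if b = 3 * h + 3 then 2 * h - 1 else if b = 7 * h + 3 then h + 1
  else if b = 4 * h + 2 + (h + 1) / 2 then 2 * h + 1
  else if b = 6 * h + 3 - (h + 1) / 2 then 0
  else if 5 * h + 3 ≤ b then 12 * h + 6 - 2 * b else 10 * h + 5 - 2 * b

/-- The values in the row `1`. -/
def InB (h b : ℕ) : Prop := b = 3 * h + 3 ∨ b = 7 * h + 3 ∨ (4 * h + 4 ≤ b ∧ b ≤ 6 * h + 2)

theorem g0_mem {h j : ℕ} (hj : j < 2 * h + 1) : g0 h j ≤ 2 * h + 1 ∧ g0 h j ≠ h + 1 := by
  unfold g0
  split_ifs <;> first | contradiction | omega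

theorem g0_surj {h a : ℕ} (h1 : a ≤ 2 * h + 1) (h2 : a ≠ h + 1) :
    ∃ j : Fin (2 * h + 1), g0 h j = a := by
  by_cases c : a ≤ h
  · exact ⟨⟨a, by omega⟩, by unfold g0; simp [c]⟩
  · refine ⟨⟨a - 1, by omega⟩, ?_⟩
    unfold g0
    simp only
    split_ifs <;> first | contradiction | omega

theorem gx_mem {h a : ℕ} (hh : 3 ≤ h) (h1 : a ≤ 2 * h + 1) (h2 : a ≠ h + 1) : InB h (gx h a) := by
  unfold InB gx
  split_ifs <;> first | contradiction | omega

theorem gx_inj {h a b : ℕ} (hh : 3 ≤ h) (h1 : a ≤ 2 * h + 1) (h2 : a ≠ h + 1)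
    (h3 : b ≤ 2 * h + 1) (h4 : b ≠ h + 1) (e : gx h a = gx h b) : a = b := by
  unfold gx at e
  split_ifs at e <;> omega

theorem gx_surj {h b : ℕ} (hh : 3 ≤ h) (hb : InB h b) :
    ∃ a, a ≤ 2 * h + 1 ∧ a ≠ h + 1 ∧ gx h a = b := by
  unfold InB at hb
  by_cases c1 : b = 3 * h + 3
  · exact ⟨h, by omega, by omega, by unfold gx; split_ifs <;> first | contradiction | omega⟩
  by_cases c2 : b = 7 * h + 3
  · exact ⟨2, by omega, by omega, by unfold gx; split_ifs <;> first | contradiction | omega⟩
  by_cases c3 : b = 5 * h + 4 + h / 2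
  · exact ⟨0, by omega, by omega, by unfold gx; split_ifs <;> first | contradiction | omega⟩
  by_cases c4 : b = 4 * h + 3 + (h + 1) / 2
  · exact ⟨2 * h + 1, by omega, by omega, by unfold gx; split_ifs <;> first | contradiction | omega⟩
  by_cases c5 : b ≤ 5 * h + 3
  · exact ⟨2 * h + 1 - 2 * (b - (4 * h + 3)), by omega, by omega, by
      unfold gx; split_ifs <;> first | contradiction | omega⟩
  · exact ⟨12 * h + 8 - 2 * b, by omega, by omega, by unfold gx; split_ifs <;> first | contradiction | omega⟩

theorem gy_mem {h b : ℕ} (hh : 3 ≤ h) (hb : InB h b) : gy h b ≤ 2 * h + 1 ∧ gy h b ≠ h := by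
  unfold InB at hb
  unfold gy
  split_ifs <;> first | contradiction | omega

theorem gy_inj {h a b : ℕ} (hh : 3 ≤ h) (ha : InB h a) (hb : InB h b) (e : gy h a = gy h b) :
    a = b := by
  unfold InB at ha hb
  unfold gy at e
  split_ifs at e <;> omega

theorem gy_surj {h s : ℕ} (hh : 3 ≤ h) (h1 : s ≤ 2 * h + 1) (h2 : s ≠ h) :
    ∃ b, InB h b ∧ gy h b = s := by
  by_cases c1 : s = 2 * h - 1
  · exact ⟨3 * h + 3, by unfold InB; omega, by unfold gy; split_ifs <;> first | contradiction | omega⟩
  by_cases c2 : s = h + 1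
  · exact ⟨7 * h + 3, by unfold InB; omega, by unfold gy; split_ifs <;> first | contradiction | omega⟩
  by_cases c3 : s = 2 * h + 1
  · exact ⟨4 * h + 2 + (h + 1) / 2, by unfold InB; omega, by unfold gy; split_ifs <;> first | contradiction | omega⟩
  by_cases c4 : s = 0
  · exact ⟨6 * h + 3 - (h + 1) / 2, by unfold InB; omega, by unfold gy; split_ifs <;> first | contradiction | omega⟩
  rcases Nat.even_or_odd' s with ⟨w, hw | hw⟩
  · exact ⟨6 * h + 3 - w, by unfold InB; omega, by unfold gy; split_ifs <;> first | contradiction | omega⟩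
  · exact ⟨5 * h + 2 - w, by unfold InB; omega, by unfold gy; split_ifs <;> first | contradiction | omega⟩

theorem base_large {h : ℕ} (hh : 3 ≤ h) : Base h (3 * h + 2) (fun j => g0 h j)
    (fun j => gx h (g0 h j)) (fun j => gy h (gx h (g0 h j))) := by
  have surj1 : ∀ b, InB h b → ∃ j : Fin (2 * h + 1), gx h (g0 h j) = b := by
    intro b hb
    obtain ⟨a, h1, h2, h3⟩ := gx_surj hh hb
    obtain ⟨j, hj⟩ := g0_surj h1 h2
    exact ⟨j, by rw [hj, h3]⟩
  have inj0 : Function.Injective (fun j : Fin (2 * h + 1) => g0 h j) := by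
    intro a b e
    simp only [g0] at e
    apply Fin.ext
    split_ifs at e <;> omega
  have inj1 : Function.Injective (fun j : Fin (2 * h + 1) => gx h (g0 h j)) := by
    intro a b e
    exact inj0 (gx_inj hh (g0_mem a.2).1 (g0_mem a.2).2 (g0_mem b.2).1 (g0_mem b.2).2 e)
  have mem1 : ∀ j : Fin (2 * h + 1), InB h (gx h (g0 h j)) := fun j =>
    gx_mem hh (g0_mem j.2).1 (g0_mem j.2).2
  refine
    { hc := by omega
      s0_inj := inj0
      s0_ne := fun j => ?_
      s0_lt := fun j => ?_
      s1_inj := inj1
      s1_gt := fun j => ?_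
      s1_lt := fun j => ?_
      s2_inj := fun a b e => inj1 (gy_inj hh (mem1 a) (mem1 b) e)
      s2_mem := fun j => gy_mem hh (mem1 j)
      s2_surj := fun s h1 h2 => ?_
      cover := fun v hv => ?_ }
  · have := g0_mem j.2
    omega
  · have := g0_mem j.2
    omega
  · have := mem1 j
    unfold InB at this
    omega
  · have := mem1 j
    unfold InB at this
    omega
  · obtain ⟨b, hb, hs⟩ := gy_surj hh h1 h2
    obtain ⟨j, hj⟩ := surj1 b hb
    exact ⟨j, by rw [hj, hs]⟩
  · -- helper forms
    have P0 : ∀ a, a ≤ 2 * h + 1 → a ≠ h + 1 → a = v → ∃ j : Fin (2 * h + 1), g0 h j = v := by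
      intro a h1 h2 h3
      obtain ⟨j, hj⟩ := g0_surj h1 h2
      exact ⟨j, by omega⟩
    have P01 : ∀ a, a ≤ 2 * h + 1 → a ≠ h + 1 → a + gx h a = v + (3 * h + 2) →
        ∃ j : Fin (2 * h + 1), g0 h j + gx h (g0 h j) = v + (3 * h + 2) := by
      intro a h1 h2 h3
      obtain ⟨j, hj⟩ := g0_surj h1 h2
      exact ⟨j, by rw [hj, h3]⟩
    have P12 : ∀ b, InB h b → b + gy h b + 4 * h + 3 = v + (3 * h + 2) →
        ∃ j : Fin (2 * h + 1), gx h (g0 h j) + gy h (gx h (g0 h j)) + 4 * h + 3 =
          v + (3 * h + 2) := by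
      intro b hb h3
      obtain ⟨j, hj⟩ := surj1 b hb
      exact ⟨j, by rw [hj, h3]⟩
    by_cases c1 : v ≤ 2 * h + 1
    · by_cases c2 : v = h + 1
      · right; right; right; right; right; left
        exact P01 h (by omega) (by omega) (by unfold gx; split_ifs <;> first | contradiction | omega)
      · left
        exact P0 v c1 c2 rfl
    by_cases c2 : v = 3 * h + 2
    · right; right; right; left; exact c2
    by_cases c3 : v = 7 * h + 4
    · right; right; right; right; left; omega
    by_cases c4 : v ≤ 3 * h + 1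
    · right; right; right; right; right; left
      by_cases c5 : v = 2 * h + 2 + h / 2
      · exact P01 0 (by omega) (by omega) (by unfold gx; split_ifs <;> first | contradiction | omega)
      · exact P01 (2 * v - 4 * h - 3) (by omega) (by omega) (by unfold gx; split_ifs <;> first | contradiction | omega)
    by_cases c5 : v = 3 * h + 3
    · right; left
      obtain ⟨j, hj⟩ := surj1 v (by unfold InB; omega)
      exact ⟨j, hj⟩
    by_cases c6 : v ≤ 4 * h + 2
    · right; right; right; right; right; left
      by_cases c7 : v = 3 * h + 2 + (h + 1) / 2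
      · exact P01 (2 * h + 1) (by omega) (by omega) (by unfold gx; split_ifs <;> first | contradiction | omega)
      · exact P01 (2 * v - 6 * h - 4) (by omega) (by omega) (by unfold gx; split_ifs <;> first | contradiction | omega)
    by_cases c7 : v = 4 * h + 3
    · right; right; right; right; right; left
      exact P01 2 (by omega) (by omega) (by unfold gx; split_ifs <;> first | contradiction | omega)
    by_cases c8 : v ≤ 6 * h + 2 ∨ v = 7 * h + 3
    · right; left
      obtain ⟨j, hj⟩ := surj1 v (by unfold InB; omega)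
      exact ⟨j, hj⟩
    by_cases c9 : v = 9 * h + 5
    · right; right; right; right; right; right
      exact P12 (7 * h + 3) (by unfold InB; omega) (by unfold gy; split_ifs <;> first | contradiction | omega)
    by_cases c10 : v ≤ 8 * h + 4
    · right; right; right; right; right; right
      by_cases d1 : v = 6 * h + 3
      · exact P12 (3 * h + 3) (by unfold InB; omega) (by unfold gy; split_ifs <;> first | contradiction | omega)
      by_cases d2 : v = 7 * h + 4 - (h + 1) / 2
      · exact P12 (6 * h + 3 - (h + 1) / 2) (by unfold InB; omega) (by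
          unfold gy; split_ifs <;> first | contradiction | omega)
      by_cases d3 : v = 7 * h + 4 + (h + 1) / 2
      · exact P12 (4 * h + 2 + (h + 1) / 2) (by unfold InB; omega) (by
          unfold gy; split_ifs <;> first | contradiction | omega)
      by_cases d4 : v ≤ 7 * h + 2
      · exact P12 (11 * h + 6 - v) (by unfold InB; omega) (by unfold gy; split_ifs <;> first | contradiction | omega)
      · exact P12 (13 * h + 7 - v) (by unfold InB; omega) (by unfold gy; split_ifs <;> first | contradiction | omega)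
    · right; right; left
      obtain ⟨b, hb, hs⟩ := gy_surj (s := v - (8 * h + 5)) hh (by omega) (by omega)
      obtain ⟨j, hj⟩ := surj1 b hb
      refine ⟨j, ?_⟩
      rw [hj, hs]
      omega

theorem base_one : Base 1 1 ![0, 6, 8] ![3, 5, 4] ![0, 3, 2] :=
  { hc := by norm_num
    s0_inj := by decide
    s0_ne := by decide
    s0_lt := by decide
    s1_inj := by decide
    s1_gt := by decide
    s1_lt := by decide
    s2_inj := by decide
    s2_mem := by decide
    s2_surj := by
      intro s h1 h2
      have : s ≤ 3 := by omega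
      interval_cases s <;> first | exact absurd rfl h2 | decide
    cover := by decide }

theorem base_two : Base 2 8 ![0, 1, 3, 4, 7] ![10, 12, 11, 13, 17] ![1, 0, 5, 4, 3] :=
  { hc := by norm_num
    s0_inj := by decide
    s0_ne := by decide
    s0_lt := by decide
    s1_inj := by decide
    s1_gt := by decide
    s1_lt := by decide
    s2_inj := by decide
    s2_mem := by decide
    s2_surj := by
      intro s h1 h2
      have : s ≤ 5 := by omega
      interval_cases s <;> first | exact absurd rfl h2 | decide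
    cover := by decide }

theorem exists_base {h : ℕ} (hh : 1 ≤ h) : ∃ c s0 s1 s2, Base h c s0 s1 s2 := by
  rcases Nat.lt_or_ge h 3 with h3 | h3
  · interval_cases h
    · exact ⟨_, _, _, _, base_one⟩
    · exact ⟨_, _, _, _, base_two⟩
  · exact ⟨_, _, _, _, base_large h3⟩

end Pool.Agent.R67.SB
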