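import Pool.Agent.R67.SB1

/-!
# Stacked books: the labels are distinct
-/

set_option autoImplicit false

namespace Pool.Agent.R67.SB

variable {h c : ℕ} {s0 s1 s2 : Fin (2 * h + 1) → ℕ}

/-- The number of a vertex. -/
def pos (c : ℕ) (s0 s1 s2 : Fin (2 * h + 1) → ℕ) (x : Option (Fin (2 * h + 1))) (i : ℕ) : ℕ :=
  match x with
  | none => pc h c i
  | some j => pl c s0 s1 s2 i j

/-- The lower class. -/
def IsLow (x : Option (Fin (2 * h + 1))) (i : ℕ) : Prop :=
  match x with
  | none => i % 2 = 0
  | some _ => i % 2 = 1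

theorem row_cases (i : ℕ) : i = 0 ∨ i = 1 ∨ (∃ u, 1 ≤ u ∧ i = 2 * u) ∨
    (∃ u, 1 ≤ u ∧ i = 2 * u + 1) := by
  rcases Nat.even_or_odd' i with ⟨u, hu | hu⟩
  · rcases Nat.eq_zero_or_pos u with h | h
    · left; omega
    · right; right; left; exact ⟨u, h, hu⟩
  · rcases Nat.eq_zero_or_pos u with h | h
    · right; left; omega
    · right; right; right; exact ⟨u, h, hu⟩

theorem mul_facts (P u v : ℕ) : (1 ≤ u → P ≤ u * P) ∧ (u = 1 → u * P = P) ∧
    (2 ≤ u → 2 * P ≤ u * P) ∧ (u < v → u * P + P ≤ v * P) ∧ (u = v → u * P = v * P) := by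
  refine ⟨fun h => Nat.le_mul_of_pos_left _ h, fun h => by rw [h, one_mul],
    fun h => Nat.mul_le_mul_right _ h, fun h => ?_, fun h => by rw [h]⟩
  have := Nat.mul_le_mul_right P (show u + 1 ≤ v from h)
  rw [add_mul, one_mul] at this
  exact this

theorem low_inj (hh : 1 ≤ h) (B : Base h c s0 s1 s2) {x y : Option (Fin (2 * h + 1))} {i k : ℕ}
    (hx : IsLow x i) (hy : IsLow y k) (e : pos c s0 s1 s2 x i = pos c s0 s1 s2 y k) :
    x = y ∧ i = k := by
  have p0 : pc h c 0 = 0 := rfl
  have l1 : ∀ j, pl c s0 s1 s2 1 j = s1 j - c := fun j => rfl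
  have hs1 := B.s1_gt
  have hs1' := B.s1_lt
  rcases x with _ | x <;> rcases y with _ | y <;> simp only [IsLow, pos] at hx hy e
  · rcases row_cases i with rfl | rfl | ⟨u, hu, rfl⟩ | ⟨u, hu, rfl⟩ <;>
      rcases row_cases k with rfl | rfl | ⟨v, hv, rfl⟩ | ⟨v, hv, rfl⟩ <;>
      first
      | omega
      | exact ⟨rfl, rfl⟩
      | (rw [p0, pc_even hv] at e
         have := (mul_facts (4 * h + 3) v v).1 hv
         omega)
      | (rw [p0, pc_even hu] at e
         have := (mul_facts (4 * h + 3) u u).1 hu
         omega)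
      | (rw [pc_even hu, pc_even hv] at e
         have a1 := mul_facts (4 * h + 3) u v
         have a2 := mul_facts (4 * h + 3) v u
         refine ⟨rfl, ?_⟩
         omega)
  · exfalso
    rcases row_cases i with rfl | rfl | ⟨u, hu, rfl⟩ | ⟨u, hu, rfl⟩ <;>
      rcases row_cases k with rfl | rfl | ⟨v, hv, rfl⟩ | ⟨v, hv, rfl⟩ <;>
      first
      | omega
      | (rw [p0, l1] at e
         have := hs1 y
         omega)
      | (rw [p0, pl_odd hv] at e
         omega)
      | (rw [pc_even hu, l1] at e
         have := (mul_facts (4 * h + 3) u u).1 hu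
         have := hs1 y
         have := hs1' y
         omega)
      | (rw [pc_even hu, pl_odd hv] at e
         have a1 := mul_facts (4 * h + 3) u v
         have a2 := mul_facts (4 * h + 3) v u
         have a3 := rw_mem hh B (2 * v + 1 - 2) y
         omega)
  · exfalso
    rcases row_cases i with rfl | rfl | ⟨u, hu, rfl⟩ | ⟨u, hu, rfl⟩ <;>
      rcases row_cases k with rfl | rfl | ⟨v, hv, rfl⟩ | ⟨v, hv, rfl⟩ <;>
      first
      | omega
      | (rw [p0, l1] at e
         have := hs1 x
         omega)
      | (rw [p0, pl_odd hu] at e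
         omega)
      | (rw [pc_even hv, l1] at e
         have := (mul_facts (4 * h + 3) v v).1 hv
         have := hs1 x
         have := hs1' x
         omega)
      | (rw [pc_even hv, pl_odd hu] at e
         have a1 := mul_facts (4 * h + 3) u v
         have a2 := mul_facts (4 * h + 3) v u
         have a3 := rw_mem hh B (2 * u + 1 - 2) x
         omega)
  · rcases row_cases i with rfl | rfl | ⟨u, hu, rfl⟩ | ⟨u, hu, rfl⟩ <;>
      rcases row_cases k with rfl | rfl | ⟨v, hv, rfl⟩ | ⟨v, hv, rfl⟩ <;>
      first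
      | omega
      | (rw [l1, l1] at e
         have := hs1 x
         have := hs1 y
         have h3 : s1 x = s1 y := by omega
         rw [B.s1_inj h3]
         exact ⟨rfl, rfl⟩)
      | (rw [l1, pl_odd hv] at e
         have := hs1 x
         have := hs1' x
         have := (mul_facts (4 * h + 3) v v).1 hv
         omega)
      | (rw [l1, pl_odd hu] at e
         have := hs1 y
         have := hs1' y
         have := (mul_facts (4 * h + 3) u u).1 hu
         omega)
      | (rw [pl_odd hu, pl_odd hv] at e
         have a1 := mul_facts (4 * h + 3) u v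
         have a2 := mul_facts (4 * h + 3) v u
         have a3 := rw_mem hh B (2 * v + 1 - 2) y
         have a4 := rw_mem hh B (2 * u + 1 - 2) x
         have huv : u = v := by omega
         subst huv
         have h3 : rw' s2 (2 * u + 1 - 2) x = rw' s2 (2 * u + 1 - 2) y := by omega
         rw [rw_inj hh B _ h3]
         exact ⟨rfl, rfl⟩)

theorem high_inj (hh : 1 ≤ h) (B : Base h c s0 s1 s2) {x y : Option (Fin (2 * h + 1))} {i k : ℕ}
    (hx : ¬ IsLow x i) (hy : ¬ IsLow y k) (e : pos c s0 s1 s2 x i = pos c s0 s1 s2 y k) :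
    x = y ∧ i = k := by
  have p1 : pc h c 1 = c := rfl
  have l0 : ∀ j, pl c s0 s1 s2 0 j = s0 j := fun j => rfl
  have hc := B.hc
  have hne := B.s0_ne
  have hlt := B.s0_lt
  rcases x with _ | x <;> rcases y with _ | y <;> simp only [IsLow, pos] at hx hy e
  · rcases row_cases i with rfl | rfl | ⟨u, hu, rfl⟩ | ⟨u, hu, rfl⟩ <;>
      rcases row_cases k with rfl | rfl | ⟨v, hv, rfl⟩ | ⟨v, hv, rfl⟩ <;>
      first
      | omega
      | exact ⟨rfl, rfl⟩
      | (rw [p1, pc_odd hv] at e
         have := (mul_facts (4 * h + 3) v v).1 hv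
         omega)
      | (rw [p1, pc_odd hu] at e
         have := (mul_facts (4 * h + 3) u u).1 hu
         omega)
      | (rw [pc_odd hu, pc_odd hv] at e
         have a1 := mul_facts (4 * h + 3) u v
         have a2 := mul_facts (4 * h + 3) v u
         refine ⟨rfl, ?_⟩
         omega)
  · exfalso
    rcases row_cases i with rfl | rfl | ⟨u, hu, rfl⟩ | ⟨u, hu, rfl⟩ <;>
      rcases row_cases k with rfl | rfl | ⟨v, hv, rfl⟩ | ⟨v, hv, rfl⟩ <;>
      first
      | omega
      | (rw [p1, l0] at e
         exact hne y e.symm)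
      | (rw [p1, pl_even hv] at e
         have := (mul_facts (4 * h + 3) v v).1 hv
         omega)
      | (rw [pc_odd hu, l0] at e
         have := (mul_facts (4 * h + 3) u u).1 hu
         have := hlt y
         omega)
      | (rw [pc_odd hu, pl_even hv] at e
         have a1 := mul_facts (4 * h + 3) u v
         have a2 := mul_facts (4 * h + 3) v u
         have a3 := rw_mem hh B (2 * v - 2) y
         omega)
  · exfalso
    rcases row_cases i with rfl | rfl | ⟨u, hu, rfl⟩ | ⟨u, hu, rfl⟩ <;>
      rcases row_cases k with rfl | rfl | ⟨v, hv, rfl⟩ | ⟨v, hv, rfl⟩ <;>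
      first
      | omega
      | (rw [p1, l0] at e
         exact hne x e)
      | (rw [p1, pl_even hu] at e
         have := (mul_facts (4 * h + 3) u u).1 hu
         omega)
      | (rw [pc_odd hv, l0] at e
         have := (mul_facts (4 * h + 3) v v).1 hv
         have := hlt x
         omega)
      | (rw [pc_odd hv, pl_even hu] at e
         have a1 := mul_facts (4 * h + 3) u v
         have a2 := mul_facts (4 * h + 3) v u
         have a3 := rw_mem hh B (2 * u - 2) x
         omega)
  · rcases row_cases i with rfl | rfl | ⟨u, hu, rfl⟩ | ⟨u, hu, rfl⟩ <;>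
      rcases row_cases k with rfl | rfl | ⟨v, hv, rfl⟩ | ⟨v, hv, rfl⟩ <;>
      first
      | omega
      | (rw [l0, l0] at e
         rw [B.s0_inj e]
         exact ⟨rfl, rfl⟩)
      | (rw [l0, pl_even hv] at e
         exfalso
         have := hlt x
         have a1 := mul_facts (4 * h + 3) v v
         have a3 := rw_mem hh B (2 * v - 2) y
         omega)
      | (rw [l0, pl_even hu] at e
         exfalso
         have := hlt y
         have a1 := mul_facts (4 * h + 3) u u
         have a3 := rw_mem hh B (2 * u - 2) x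
         omega)
      | (rw [pl_even hu, pl_even hv] at e
         have a1 := mul_facts (4 * h + 3) u v
         have a2 := mul_facts (4 * h + 3) v u
         have a3 := rw_mem hh B (2 * v - 2) y
         have a4 := rw_mem hh B (2 * u - 2) x
         have huv : u = v := by omega
         subst huv
         have h3 : rw' s2 (2 * u - 2) x = rw' s2 (2 * u - 2) y := by omega
         rw [rw_inj hh B _ h3]
         exact ⟨rfl, rfl⟩)

/-- Bound in the lower class. -/
def Lm (h N : ℕ) : ℕ :=
  if N % 2 = 0 then (N / 2) * (4 * h + 3) - 1 else (N / 2) * (4 * h + 3) + 3 * h + 2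

/-- Bound in the upper class. -/
def Hm (h N : ℕ) : ℕ :=
  if N % 2 = 0 then (N / 2) * (4 * h + 3) + 2 * h + 1 else (N / 2) * (4 * h + 3) + 3 * h + 1

theorem Lm_Hm {N : ℕ} (hN : 2 ≤ N) : Lm h N + Hm h N < N * (4 * h + 3) + 2 * h + 1 := by
  unfold Lm Hm
  rcases Nat.even_or_odd' N with ⟨U, rfl | rfl⟩
  · rw [if_pos (by omega), if_pos (by omega), show 2 * U / 2 = U by omega]
    have e : 2 * U * (4 * h + 3) = 2 * (U * (4 * h + 3)) := by ring
    have := (mul_facts (4 * h + 3) U U).1 (by omega)
    omega
  · rw [if_neg (by omega), if_neg (by omega), show (2 * U + 1) / 2 = U by omega]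
    have e : (2 * U + 1) * (4 * h + 3) = 2 * (U * (4 * h + 3)) + (4 * h + 3) := by ring
    omega

theorem low_le (hh : 1 ≤ h) (B : Base h c s0 s1 s2) {N : ℕ} (hN : 2 ≤ N)
    {x : Option (Fin (2 * h + 1))} {i : ℕ} (hi : i ≤ N) (hx : IsLow x i) :
    pos c s0 s1 s2 x i ≤ Lm h N := by
  have p0 : pc h c 0 = 0 := rfl
  have l1 : ∀ j, pl c s0 s1 s2 1 j = s1 j - c := fun j => rfl
  have hs1' := B.s1_lt
  unfold Lm
  rcases Nat.even_or_odd' N with ⟨U, rfl | rfl⟩
  · rw [if_pos (by omega), show 2 * U / 2 = U by omega]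
    have b1 := (mul_facts (4 * h + 3) U U).1 (by omega)
    rcases x with _ | x <;> simp only [IsLow, pos] at hx ⊢
    · rcases row_cases i with rfl | rfl | ⟨u, hu, rfl⟩ | ⟨u, hu, rfl⟩
      · rw [p0]; omega
      · omega
      · rw [pc_even hu]
        have a1 := mul_facts (4 * h + 3) u U
        omega
      · omega
    · rcases row_cases i with rfl | rfl | ⟨u, hu, rfl⟩ | ⟨u, hu, rfl⟩
      · omega
      · rw [l1]
        have := hs1' x
        omega
      · omega
      · rw [pl_odd hu]
        have a1 := mul_facts (4 * h + 3) u U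
        have a3 := rw_mem hh B (2 * u + 1 - 2) x
        omega
  · rw [if_neg (by omega), show (2 * U + 1) / 2 = U by omega]
    have b1 := (mul_facts (4 * h + 3) U U).1 (by omega)
    rcases x with _ | x <;> simp only [IsLow, pos] at hx ⊢
    · rcases row_cases i with rfl | rfl | ⟨u, hu, rfl⟩ | ⟨u, hu, rfl⟩
      · rw [p0]; omega
      · omega
      · rw [pc_even hu]
        have a1 := mul_facts (4 * h + 3) u U
        omega
      · omega
    · rcases row_cases i with rfl | rfl | ⟨u, hu, rfl⟩ | ⟨u, hu, rfl⟩
      · omega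
      · rw [l1]
        have := hs1' x
        omega
      · omega
      · rw [pl_odd hu]
        have a1 := mul_facts (4 * h + 3) u U
        have a3 := rw_mem hh B (2 * u + 1 - 2) x
        omega

theorem high_le (hh : 1 ≤ h) (B : Base h c s0 s1 s2) {N : ℕ} (hN : 2 ≤ N)
    {x : Option (Fin (2 * h + 1))} {i : ℕ} (hi : i ≤ N) (hx : ¬ IsLow x i) :
    pos c s0 s1 s2 x i ≤ Hm h N := by
  have p1 : pc h c 1 = c := rfl
  have l0 : ∀ j, pl c s0 s1 s2 0 j = s0 j := fun j => rfl
  have hc := B.hc
  have hlt := B.s0_lt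
  unfold Hm
  rcases Nat.even_or_odd' N with ⟨U, rfl | rfl⟩
  · rw [if_pos (by omega), show 2 * U / 2 = U by omega]
    have b1 := (mul_facts (4 * h + 3) U U).1 (by omega)
    rcases x with _ | x <;> simp only [IsLow, pos] at hx ⊢
    · rcases row_cases i with rfl | rfl | ⟨u, hu, rfl⟩ | ⟨u, hu, rfl⟩
      · omega
      · rw [p1]; omega
      · omega
      · rw [pc_odd hu]
        have a1 := mul_facts (4 * h + 3) u U
        omega
    · rcases row_cases i with rfl | rfl | ⟨u, hu, rfl⟩ | ⟨u, hu, rfl⟩
      · rw [l0]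
        have := hlt x
        omega
      · omega
      · rw [pl_even hu]
        have a1 := mul_facts (4 * h + 3) u U
        have a3 := rw_mem hh B (2 * u - 2) x
        omega
      · omega
  · rw [if_neg (by omega), show (2 * U + 1) / 2 = U by omega]
    have b1 := (mul_facts (4 * h + 3) U U).1 (by omega)
    rcases x with _ | x <;> simp only [IsLow, pos] at hx ⊢
    · rcases row_cases i with rfl | rfl | ⟨u, hu, rfl⟩ | ⟨u, hu, rfl⟩
      · omega
      · rw [p1]; omega
      · omega
      · rw [pc_odd hu]
        have a1 := mul_facts (4 * h + 3) u U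
        omega
    · rcases row_cases i with rfl | rfl | ⟨u, hu, rfl⟩ | ⟨u, hu, rfl⟩
      · rw [l0]
        have := hlt x
        omega
      · omega
      · rw [pl_even hu]
        have a1 := mul_facts (4 * h + 3) u U
        have a3 := rw_mem hh B (2 * u - 2) x
        omega
      · omega

end Pool.Agent.R67.SB
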