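import Mathlib

/-!
# Ordered patterns in graph colourings: largest homogeneous sets, an unbalanced Ramsey bound,
and the embedding lemma
-/

set_option autoImplicit false

namespace Pool.Agent.R67.UN

open Finset

/-- All pairs of `S` have colour `b`. -/
def HomG (G : ℕ → ℕ → Bool) (b : Bool) (S : Finset ℕ) : Prop :=
  ∀ x ∈ S, ∀ y ∈ S, x < y → G x y = b

open Classical in
/-- The largest size of a subset of `U` with all pairs of colour `b`. -/
noncomputable def al (G : ℕ → ℕ → Bool) (b : Bool) (U : Finset ℕ) : ℕ :=
  (U.powerset.filter (fun S => HomG G b S)).sup card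

variable {G : ℕ → ℕ → Bool}

theorem le_al {b : Bool} {U S : Finset ℕ} (hS : S ⊆ U) (h : HomG G b S) : S.card ≤ al G b U := by
  classical
  unfold al
  exact Finset.le_sup (f := card) (mem_filter.2 ⟨mem_powerset.2 hS, h⟩)

theorem exists_al (b : Bool) (U : Finset ℕ) : ∃ S ⊆ U, HomG G b S ∧ S.card = al G b U := by
  classical
  have hne : (U.powerset.filter (fun S => HomG G b S)).Nonempty :=
    ⟨∅, mem_filter.2 ⟨empty_mem_powerset U, fun x hx => absurd hx (notMem_empty x)⟩⟩
  obtain ⟨S, hS, h⟩ := Finset.exists_mem_eq_sup _ hne card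
  have h1 := mem_filter.1 hS
  exact ⟨S, mem_powerset.1 h1.1, h1.2, h.symm⟩

theorem al_mono {b : Bool} {U U' : Finset ℕ} (h : U' ⊆ U) : al G b U' ≤ al G b U := by
  obtain ⟨S, hS, hh, hc⟩ := exists_al (G := G) b U'
  rw [← hc]
  exact le_al (hS.trans h) hh

/-- adding a set with all cross pairs of the same colour -/
theorem al_union {b : Bool} {U X I : Finset ℕ} (hX : X ⊆ U) (hI : I ⊆ U) (hXb : HomG G b X)
    (hIb : HomG G b I) (hlt : ∀ x ∈ X, ∀ y ∈ I, x < y ∧ G x y = b) :
    X.card + I.card ≤ al G b U := by
  have hd : Disjoint X I := by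
    rw [Finset.disjoint_left]
    intro x hx hx'
    exact absurd (hlt x hx x hx').1 (lt_irrefl x)
  rw [← card_union_of_disjoint hd]
  apply le_al (union_subset hX hI)
  intro x hx y hy hxy
  rcases mem_union.1 hx with hx | hx
  · rcases mem_union.1 hy with hy | hy
    · exact hXb x hx y hy hxy
    · exact (hlt x hx y hy).2
  · rcases mem_union.1 hy with hy | hy
    · exact absurd (hlt y hy x hx).1 (by omega)
    · exact hIb x hx y hy hxy

theorem al_insert {b : Bool} {U W : Finset ℕ} {x : ℕ} (hx : x ∈ U) (hW : W ⊆ U)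
    (h : ∀ y ∈ W, x < y ∧ G x y = b) : al G b W + 1 ≤ al G b U := by
  obtain ⟨S, hS, hh, hc⟩ := exists_al (G := G) b W
  have := al_union (G := G) (b := b) (U := U) (X := {x}) (I := S)
    (singleton_subset_iff.2 hx) (hS.trans hW) (by
      intro a ha c hc' hac
      rw [mem_singleton] at ha hc'
      omega) hh (by
      intro a ha y hy
      rw [mem_singleton] at ha
      rw [ha]
      exact h y (hS hy))
  rw [card_singleton, hc] at this
  omega

/-- The unbalanced Ramsey bound: a set with at least `2 P ^ s Q ^ t - 1` elements, where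
`1 / P + 1 / Q = 1`, contains a set of size `s` of colour `b` or a set of size `t` of the other
colour. -/
theorem ramsey (G : ℕ → ℕ → Bool) (b : Bool) {P Q : ℝ} (hP : 0 < P) (hQ : 0 < Q)
    (hPQ : 1 / P + 1 / Q = 1) : ∀ (s t : ℕ) (U : Finset ℕ), 2 * P ^ s * Q ^ t ≤ U.card + 1 →
      s ≤ al G b U ∨ t ≤ al G (!b) U := by
  classical
  intro s
  induction s with
  | zero => intro t U _; left; exact Nat.zero_le _
  | succ s ihs =>
    intro t
    induction t with
    | zero => intro U _; right; exact Nat.zero_le _
    | succ t iht =>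
      intro U hU
      have hP1 : 1 ≤ P := by
        by_contra hc
        push Not at hc
        have : 1 < 1 / P := by rw [lt_div_iff₀ hP]; linarith
        have : 0 < 1 / Q := by positivity
        linarith
      have hQ1 : 1 ≤ Q := by
        by_contra hc
        push Not at hc
        have : 1 < 1 / Q := by rw [lt_div_iff₀ hQ]; linarith
        have : 0 < 1 / P := by positivity
        linarith
      have hpos : 1 ≤ P ^ (s + 1) * Q ^ (t + 1) := by
        have h1 : 1 ≤ P ^ (s + 1) := one_le_pow₀ hP1
        have h2 : 1 ≤ Q ^ (t + 1) := one_le_pow₀ hQ1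
        nlinarith
      have hne : U.Nonempty := by
        rw [nonempty_iff_ne_empty]
        rintro rfl
        simp only [card_empty, Nat.cast_zero] at hU
        linarith
      set x := U.min' hne with hx
      have hxU : x ∈ U := U.min'_mem hne
      set W := U.erase x with hW
      have hWc : W.card + 1 = U.card := card_erase_add_one hxU
      have hlt : ∀ y ∈ W, x < y := by
        intro y hy
        have h := mem_erase.1 hy
        exact lt_of_le_of_ne (U.min'_le y h.2) (fun e => h.1 e.symm)
      set W1 := W.filter (fun y => G x y = b) with hW1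
      set W2 := W.filter (fun y => ¬ G x y = b) with hW2
      have hsum : W1.card + W2.card = W.card := card_filter_add_card_filter_not _
      have hW1U : W1 ⊆ U := (filter_subset _ _).trans (erase_subset _ _)
      have hW2U : W2 ⊆ U := (filter_subset _ _).trans (erase_subset _ _)
      by_cases h1 : 2 * P ^ s * Q ^ (t + 1) ≤ W1.card + 1
      · rcases ihs (t + 1) W1 h1 with h | h
        · left
          have := al_insert (G := G) (b := b) hxU hW1U (fun y hy =>
            ⟨hlt y (mem_filter.1 hy).1, (mem_filter.1 hy).2⟩)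
          omega
        · right
          exact h.trans (al_mono hW1U)
      · by_cases h2 : 2 * P ^ (s + 1) * Q ^ t ≤ W2.card + 1
        · rcases iht W2 h2 with h | h
          · left
            exact h.trans (al_mono hW2U)
          · right
            have := al_insert (G := G) (b := !b) hxU hW2U (fun y hy =>
              ⟨hlt y (mem_filter.1 hy).1, by
                have := (mem_filter.1 hy).2
                cases h : G x y <;> cases hb : b <;> simp_all⟩)
            omega
        · exfalso
          push Not at h1 h2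
          have e1 : 2 * P ^ s * Q ^ (t + 1) = 2 * P ^ (s + 1) * Q ^ (t + 1) * (1 / P) := by
            field_simp
            ring
          have e2 : 2 * P ^ (s + 1) * Q ^ t = 2 * P ^ (s + 1) * Q ^ (t + 1) * (1 / Q) := by
            field_simp
            ring
          have e3 : (W1.card : ℝ) + W2.card = W.card := by exact_mod_cast hsum
          have e4 : (W.card : ℝ) + 1 = U.card := by exact_mod_cast hWc
          rw [e1] at h1
          rw [e2] at h2
          have e5 : 2 * P ^ (s + 1) * Q ^ (t + 1) * (1 / P) +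
              2 * P ^ (s + 1) * Q ^ (t + 1) * (1 / Q) = 2 * P ^ (s + 1) * Q ^ (t + 1) := by
            rw [← mul_add, hPQ, mul_one]
          linarith

/-- The embedding lemma: a pattern is embedded in a given sequence of sets, or there is a pair
of large sets with few pairs of one of the colours. -/
theorem embed (G : ℕ → ℕ → Bool) {p : ℝ} (hp : 0 < p) (hp1 : p ≤ 1) :
    ∀ (k : ℕ) (h : ℕ → ℕ → Bool) (V : ℕ → Finset ℕ) (L : ℝ), 0 < L →
      (∀ i < k, L ≤ (V i).card) →
      (∃ y : ℕ → ℕ, (∀ i < k, y i ∈ V i) ∧ ∀ i j, i < j → j < k → G (y i) (y j) = h i j) ∨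
      ∃ (i j : ℕ) (b : Bool) (A B : Finset ℕ), i < j ∧ j < k ∧ A ⊆ V i ∧ B ⊆ V j ∧
        p ^ k * L / k ≤ A.card ∧ p ^ k * L ≤ B.card ∧
        ∀ x ∈ A, ((B.filter (fun y => G x y = b)).card : ℝ) ≤ p * B.card := by
  classical
  intro k
  induction k with
  | zero =>
    intro h V L _ _
    left
    exact ⟨fun _ => 0, fun i hi => absurd hi (Nat.not_lt_zero i),
      fun i j _ hj => absurd hj (Nat.not_lt_zero j)⟩
  | succ k ih =>
    intro h V L hL hV
    have hV0 : (V 0).Nonempty := by
      rw [← card_pos]
      have := hV 0 (Nat.succ_pos k)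
      have h1 : (0 : ℝ) < (V 0).card := lt_of_lt_of_le hL this
      exact_mod_cast h1
    by_cases hgood : ∃ v ∈ V 0, ∀ j < k,
        p * (V (j + 1)).card < (((V (j + 1)).filter (fun y => G v y = h 0 (j + 1))).card : ℝ)
    · obtain ⟨v, hv, hvj⟩ := hgood
      rcases ih (fun i j => h (i + 1) (j + 1))
        (fun j => (V (j + 1)).filter (fun y => G v y = h 0 (j + 1))) (p * L) (by positivity)
        (by
          intro j hj
          have h1 := hvj j hj
          have h2 := hV (j + 1) (by omega)
          have h3 : p * L ≤ p * (V (j + 1)).card := mul_le_mul_of_nonneg_left h2 hp.le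
          linarith) with hy | ⟨i, j, b, A, B, hij, hj, hA, hB, hAc, hBc, hAB⟩
      · obtain ⟨y, hy1, hy2⟩ := hy
        left
        refine ⟨fun i => if i = 0 then v else y (i - 1), ?_, ?_⟩
        · intro i hi
          by_cases h0 : i = 0
          · subst h0
            simpa using hv
          · obtain ⟨i', rfl⟩ : ∃ i', i = i' + 1 := ⟨i - 1, by omega⟩
            simpa using (mem_filter.1 (hy1 i' (by omega))).1
        · intro i j hij hj
          obtain ⟨j', rfl⟩ : ∃ j', j = j' + 1 := ⟨j - 1, by omega⟩
          by_cases h0 : i = 0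
          · subst h0
            simpa using (mem_filter.1 (hy1 j' (by omega))).2
          · obtain ⟨i', rfl⟩ : ∃ i', i = i' + 1 := ⟨i - 1, by omega⟩
            simpa using hy2 i' j' (by omega) (by omega)
      · right
        have hk : 0 < k := by omega
        refine ⟨i + 1, j + 1, b, A, B, by omega, by omega, hA.trans (filter_subset _ _),
          hB.trans (filter_subset _ _), ?_, ?_, hAB⟩
        · refine le_trans ?_ hAc
          have e : p ^ k * (p * L) = p ^ (k + 1) * L := by ring
          rw [e]
          apply div_le_div_of_nonneg_left (by positivity) (by exact_mod_cast hk)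
          push_cast
          linarith
        · have e : p ^ k * (p * L) = p ^ (k + 1) * L := by ring
          rw [e] at hBc
          exact hBc
    · push Not at hgood
      right
      -- every vertex of `V 0` fails for some `j`
      rcases Nat.eq_zero_or_pos k with hk0 | hk0
      · exfalso
        obtain ⟨v, hv⟩ := hV0
        obtain ⟨j, hj, _⟩ := hgood v hv
        omega
      choose! f hf1 hf2 using hgood
      have hmaps : ∀ v ∈ V 0, f v ∈ range k := fun v hv => mem_range.2 (hf1 v hv)
      have hsum := card_eq_sum_card_fiberwise hmaps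
      have hex : ∃ j ∈ range k, (V 0).card ≤ k * ((V 0).filter (fun v => f v = j)).card := by
        by_contra hcon
        push Not at hcon
        have h1 : ∑ j ∈ range k, k * ((V 0).filter (fun v => f v = j)).card <
            ∑ _j ∈ range k, (V 0).card :=
          sum_lt_sum_of_nonempty (nonempty_range_iff.2 (by omega)) hcon
        rw [← mul_sum, ← hsum, sum_const, card_range, smul_eq_mul] at h1
        exact lt_irrefl _ h1
      obtain ⟨j, hj, hjc⟩ := hex
      have hj' := mem_range.1 hj
      refine ⟨0, j + 1, h 0 (j + 1), (V 0).filter (fun v => f v = j), V (j + 1), by omega,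
        by omega, filter_subset _ _, Subset.rfl, ?_, ?_, ?_⟩
      · have h1 := hV 0 (Nat.succ_pos k)
        have h2 : ((V 0).card : ℝ) ≤ k * ((V 0).filter (fun v => f v = j)).card := by
          exact_mod_cast hjc
        have h3 : p ^ (k + 1) ≤ 1 := pow_le_one₀ hp.le hp1
        have h4 : p ^ (k + 1) * L ≤ L := by nlinarith
        have hk1 : (0 : ℝ) < k := by exact_mod_cast hk0
        rw [div_le_iff₀ (by positivity)]
        push_cast
        have h5 : (0 : ℝ) ≤ ((V 0).filter (fun v => f v = j)).card := by positivity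
        nlinarith
      · have h1 := hV (j + 1) (by omega)
        have h3 : p ^ (k + 1) ≤ 1 := pow_le_one₀ hp.le hp1
        nlinarith
      · intro x hx
        have h1 := mem_filter.1 hx
        have := hf2 x h1.1
        rw [h1.2] at this
        exact this

/-- Splitting a set into `k` consecutive blocks of size `q`. -/
theorem blocks (U : Finset ℕ) (k q : ℕ) (h : k * q ≤ U.card) :
    ∃ V : ℕ → Finset ℕ, (∀ i < k, V i ⊆ U ∧ (V i).card = q) ∧
      ∀ i j, i < j → j < k → ∀ x ∈ V i, ∀ y ∈ V j, x < y := by
  classical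
  let e := U.orderEmbOfFin rfl
  let x : ℕ → ℕ := fun i => if hi : i < U.card then e ⟨i, hi⟩ else 0
  have hx : ∀ i, i < U.card → x i ∈ U := by
    intro i hi
    simp only [x, hi, dif_pos]
    exact Finset.orderEmbOfFin_mem U rfl _
  have hm : ∀ i j, i < j → j < U.card → x i < x j := by
    intro i j hij hj
    have hi : i < U.card := hij.trans hj
    simp only [x, hi, hj, dif_pos]
    exact e.strictMono (by simpa using hij)
  have hbd : ∀ i < k, ∀ t, t < (i + 1) * q → t < U.card := by
    intro i hi t ht
    have : (i + 1) * q ≤ k * q := Nat.mul_le_mul_right _ hi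
    omega
  refine ⟨fun i => (Ico (i * q) ((i + 1) * q)).image x, ?_, ?_⟩
  · intro i hi
    refine ⟨?_, ?_⟩
    · intro y hy
      obtain ⟨t, ht, rfl⟩ := mem_image.1 hy
      exact hx t (hbd i hi t (mem_Ico.1 ht).2)
    · rw [card_image_of_injOn, Nat.card_Ico]
      · rw [Nat.succ_mul]; omega
      · intro t ht t' ht' he
        have ht1 := hbd i hi t (mem_Ico.1 (mem_coe.1 ht)).2
        have ht2 := hbd i hi t' (mem_Ico.1 (mem_coe.1 ht')).2
        rcases lt_trichotomy t t' with h' | h' | h'
        · exact absurd he (hm t t' h' ht2).ne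
        · exact h'
        · exact absurd he.symm (hm t' t h' ht1).ne
  · intro i j hij hj a ha b hb
    obtain ⟨t, ht, rfl⟩ := mem_image.1 ha
    obtain ⟨t', ht', rfl⟩ := mem_image.1 hb
    have h1 := (mem_Ico.1 ht).2
    have h2 := (mem_Ico.1 ht').1
    have h3 := (mem_Ico.1 ht').2
    apply hm t t' _ (hbd j hj t' h3)
    have : (i + 1) * q ≤ j * q := Nat.mul_le_mul_right _ hij
    omega

/-- The embedding lemma for one set. -/
theorem pair_or_embed (G : ℕ → ℕ → Bool) {p : ℝ} (hp : 0 < p) (hp1 : p ≤ 1) (k : ℕ) (hk : 1 ≤ k)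
    (h : ℕ → ℕ → Bool) (U : Finset ℕ) (hU : k ≤ U.card) :
    (∃ y : ℕ → ℕ, (∀ i < k, y i ∈ U) ∧ (∀ i j, i < j → j < k → y i < y j) ∧
      ∀ i j, i < j → j < k → G (y i) (y j) = h i j) ∨
    ∃ (b : Bool) (A B : Finset ℕ), A ⊆ U ∧ B ⊆ U ∧ (∀ x ∈ A, ∀ y ∈ B, x < y) ∧
        p ^ k / (2 * k ^ 2) * U.card ≤ A.card ∧ p ^ k / (2 * k ^ 2) * U.card ≤ B.card ∧
        ∀ x ∈ A, ((B.filter (fun y => G x y = b)).card : ℝ) ≤ p * B.card := by
  classical
  set q := U.card / k with hq
  have hkq : k * q ≤ U.card := Nat.mul_div_le _ _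
  have hq1 : 1 ≤ q := (Nat.one_le_div_iff (by omega)).2 hU
  have hq2 : (U.card : ℝ) ≤ 2 * k * q := by
    have h1 : U.card < k * (q + 1) := Nat.lt_mul_div_succ _ (by omega)
    have h2 : k * (q + 1) ≤ k * (2 * q) := Nat.mul_le_mul_left _ (by omega)
    have h3 : U.card ≤ 2 * k * q := by nlinarith
    exact_mod_cast h3
  obtain ⟨V, hV1, hV2⟩ := blocks U k q hkq
  rcases embed G hp hp1 k h V q (by exact_mod_cast hq1) (fun i hi => by rw [(hV1 i hi).2])
    with ⟨y, hy1, hy2⟩ | ⟨i, j, b, A, B, hij, hj, hA, hB, hAc, hBc, hAB⟩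
  · left
    exact ⟨y, fun i hi => (hV1 i hi).1 (hy1 i hi),
      fun i j hij hj => hV2 i j hij hj _ (hy1 i (hij.trans hj)) _ (hy1 j hj), hy2⟩
  · right
    have hk0 : (1 : ℝ) ≤ k := by exact_mod_cast hk
    have hA' : p ^ k / (2 * k ^ 2) * U.card ≤ p ^ k * q / k := by
      have : p ^ k / (2 * k ^ 2) * U.card ≤ p ^ k / (2 * k ^ 2) * (2 * k * q) :=
        mul_le_mul_of_nonneg_left hq2 (by positivity)
      refine this.trans (le_of_eq ?_)
      field_simp
    refine ⟨b, A, B, hA.trans (hV1 i (hij.trans hj)).1, hB.trans (hV1 j hj).1, ?_,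
      hA'.trans hAc, ?_, hAB⟩
    · intro x hx y hy
      exact hV2 i j hij hj x (hA hx) y (hB hy)
    · refine (hA'.trans ?_).trans hBc
      rw [div_le_iff₀ (by linarith)]
      have : 0 ≤ p ^ k * q := by positivity
      nlinarith

end Pool.Agent.R67.UN
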