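import Pool.Agent.R67.UN1

/-!
# Ordered patterns in graph colourings: the two combinatorial cores
-/

set_option autoImplicit false

namespace Pool.Agent.R67.UN

open Finset

variable {G : ℕ → ℕ → Bool}

/-- Many vertices of `B` have the same small neighbourhood in `X`. -/
theorem thin (G : ℕ → ℕ → Bool) (b : Bool) {p ξ : ℝ} (hp : 0 < p) (hξ : 0 < ξ)
    (X B : Finset ℕ) (h : ∀ x ∈ X, ((B.filter (fun y => G x y = b)).card : ℝ) ≤ p * B.card) :
    ∃ T ⊆ X, (T.card : ℝ) ≤ 2 * p * X.card ∧
      1 / 2 * B.card * ξ ^ T.card / (1 + ξ) ^ X.card ≤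
        (B.filter (fun y => X.filter (fun x => G x y = b) = T)).card := by
  classical
  rcases B.eq_empty_or_nonempty with hB | hB
  · refine ⟨∅, empty_subset _, ?_, ?_⟩
    · simp only [card_empty, Nat.cast_zero]
      positivity
    · rw [hB]
      simp
  set B1 := B.filter (fun y => ((X.filter (fun x => G x y = b)).card : ℝ) ≤ 2 * p * X.card)
    with hB1
  set B2 := B.filter (fun y => ¬ ((X.filter (fun x => G x y = b)).card : ℝ) ≤ 2 * p * X.card)
    with hB2
  have hsum : B1.card + B2.card = B.card := card_filter_add_card_filter_not _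
  have hBpos : (0 : ℝ) < B.card := by exact_mod_cast card_pos.2 hB
  have hdc : ∑ y ∈ B, (X.filter (fun x => G x y = b)).card =
      ∑ x ∈ X, (B.filter (fun y => G x y = b)).card := by
    simp only [card_filter]
    exact sum_comm
  have h2 : (B2.card : ℝ) ≤ B.card / 2 := by
    rcases X.eq_empty_or_nonempty with hX | hX
    · have : B2 = ∅ := by
        rw [hB2, filter_eq_empty_iff]
        intro y _
        rw [hX]
        simp
      rw [this]
      simp only [card_empty, Nat.cast_zero]
      positivity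
    · have hXpos : (0 : ℝ) < X.card := by exact_mod_cast card_pos.2 hX
      have h3 : (B2.card : ℝ) * (2 * p * X.card) ≤
          ∑ y ∈ B2, ((X.filter (fun x => G x y = b)).card : ℝ) := by
        rw [← nsmul_eq_mul]
        apply card_nsmul_le_sum
        intro y hy
        exact (not_le.1 (mem_filter.1 hy).2).le
      have h4 : ∑ y ∈ B2, ((X.filter (fun x => G x y = b)).card : ℝ) ≤
          ∑ y ∈ B, ((X.filter (fun x => G x y = b)).card : ℝ) :=
        sum_le_sum_of_subset_of_nonneg (filter_subset _ _) (fun _ _ _ => Nat.cast_nonneg _)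
      have h5 : ∑ y ∈ B, ((X.filter (fun x => G x y = b)).card : ℝ) ≤ X.card * (p * B.card) := by
        have : ∑ y ∈ B, ((X.filter (fun x => G x y = b)).card : ℝ) =
            ∑ x ∈ X, ((B.filter (fun y => G x y = b)).card : ℝ) := by exact_mod_cast hdc
        rw [this, ← nsmul_eq_mul]
        exact sum_le_card_nsmul _ _ _ h
      have h6 : (B2.card : ℝ) * (2 * p * X.card) ≤ X.card * (p * B.card) := (h3.trans h4).trans h5
      have h7 : (B2.card : ℝ) * 2 * (p * X.card) ≤ B.card * (p * X.card) := by nlinarith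
      have h8 : (B2.card : ℝ) * 2 ≤ B.card := le_of_mul_le_mul_right h7 (by positivity)
      linarith
  have h1 : (B.card : ℝ) / 2 ≤ B1.card := by
    have : (B1.card : ℝ) + B2.card = B.card := by exact_mod_cast hsum
    linarith
  have hB1pos : (0 : ℝ) < B1.card := by linarith
  have hden : 0 < (1 + ξ) ^ X.card := by positivity
  have hex : ∃ T ∈ X.powerset, (B1.card : ℝ) * ξ ^ T.card / (1 + ξ) ^ X.card ≤
      (B1.filter (fun y => X.filter (fun x => G x y = b) = T)).card := by
    by_contra hcon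
    push Not at hcon
    have hmaps : ∀ y ∈ B1, X.filter (fun x => G x y = b) ∈ X.powerset :=
      fun y _ => mem_powerset.2 (filter_subset _ _)
    have hs := card_eq_sum_card_fiberwise hmaps
    have hlt : ∑ T ∈ X.powerset,
        ((B1.filter (fun y => X.filter (fun x => G x y = b) = T)).card : ℝ) <
        ∑ T ∈ X.powerset, (B1.card : ℝ) * ξ ^ T.card / (1 + ξ) ^ X.card :=
      sum_lt_sum_of_nonempty ⟨∅, empty_mem_powerset X⟩ hcon
    have e1 : ∑ T ∈ X.powerset, (B1.card : ℝ) * ξ ^ T.card / (1 + ξ) ^ X.card = B1.card := by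
      rw [← sum_div, ← mul_sum]
      have := Finset.sum_pow_mul_eq_add_pow ξ (1 : ℝ) X
      simp only [one_pow, mul_one] at this
      rw [this, add_comm ξ 1]
      field_simp
    rw [e1] at hlt
    have e2 : (B1.card : ℝ) = ∑ T ∈ X.powerset,
        ((B1.filter (fun y => X.filter (fun x => G x y = b) = T)).card : ℝ) := by
      exact_mod_cast hs
    linarith
  obtain ⟨T, hT, hTc⟩ := hex
  have hTX := mem_powerset.1 hT
  have hpos : (0 : ℝ) < (B1.filter (fun y => X.filter (fun x => G x y = b) = T)).card :=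
    lt_of_lt_of_le (by positivity) hTc
  have hpos' : 0 < (B1.filter (fun y => X.filter (fun x => G x y = b) = T)).card := by
    exact_mod_cast hpos
  obtain ⟨y, hy⟩ := card_pos.1 hpos'
  have hy1 := mem_filter.1 hy
  have hy2 := (mem_filter.1 hy1.1).2
  rw [hy1.2] at hy2
  refine ⟨T, hTX, hy2, ?_⟩
  calc 1 / 2 * (B.card : ℝ) * ξ ^ T.card / (1 + ξ) ^ X.card
      ≤ (B1.card : ℝ) * ξ ^ T.card / (1 + ξ) ^ X.card := by
        apply div_le_div_of_nonneg_right _ hden.le
        apply mul_le_mul_of_nonneg_right _ (by positivity)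
        linarith
    _ ≤ (B1.filter (fun y => X.filter (fun x => G x y = b) = T)).card := hTc
    _ ≤ (B.filter (fun y => X.filter (fun x => G x y = b) = T)).card := by
        exact_mod_cast card_le_card (filter_subset_filter _ (filter_subset _ _))

/-- The core of the proof of universality. -/
theorem core (G h : ℕ → ℕ → Bool) (k : ℕ) (hk : 1 ≤ k) (U : Finset ℕ) (hU : k ≤ U.card)
    (n s₀ g : ℕ) {p ξ q : ℝ} (hp : 0 < p) (hp1 : p ≤ 1) (hξ : 0 < ξ)
    (hal : ∀ b, al G b U ≤ n)
    (hstab : ∀ U' ⊆ U, q * U.card ≤ U'.card → ∀ b, al G b U ≤ al G b U' + g)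
    (hlow : ∀ U' ⊆ U, q * U.card ≤ U'.card → ∀ b, s₀ ≤ al G b U')
    (hq : ∀ τ : ℕ, (τ : ℝ) ≤ 2 * p * n → q ≤ p ^ k / (4 * k ^ 2) * ξ ^ τ / (1 + ξ) ^ n)
    (hfin : 2 * p * n + g < s₀) :
    ∃ y : ℕ → ℕ, (∀ i < k, y i ∈ U) ∧ (∀ i j, i < j → j < k → y i < y j) ∧
      ∀ i j, i < j → j < k → G (y i) (y j) = h i j := by
  classical
  rcases pair_or_embed G hp hp1 k hk h U hU with hy | ⟨b, A, B, hA, hB, hAB, hAc, hBc, hfew⟩
  · exact hy
  exfalso
  have hk0 : (1 : ℝ) ≤ k := by exact_mod_cast hk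
  have hUn : (0 : ℝ) ≤ U.card := Nat.cast_nonneg _
  have hρ : 0 < p ^ k / (4 * k ^ 2) := by positivity
  -- `A` is large
  have hqA : q * U.card ≤ A.card := by
    have h1 := hq 0 (by push_cast; positivity)
    rw [pow_zero, mul_one] at h1
    have h2 : 1 ≤ (1 + ξ) ^ n := one_le_pow₀ (by linarith)
    have h3 : p ^ k / (4 * k ^ 2) / (1 + ξ) ^ n ≤ p ^ k / (4 * k ^ 2) := div_le_self hρ.le h2
    have h4 : p ^ k / (4 * k ^ 2) ≤ p ^ k / (2 * k ^ 2) := by
      apply div_le_div_of_nonneg_left (by positivity) (by positivity)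
      nlinarith
    have h5 : q ≤ p ^ k / (2 * k ^ 2) := h1.trans (h3.trans h4)
    exact (mul_le_mul_of_nonneg_right h5 hUn).trans hAc
  obtain ⟨X, hXA, hXh, hXc⟩ := exists_al (G := G) (!b) A
  have hXn : X.card ≤ n := by
    rw [hXc]
    exact (al_mono hA).trans (hal _)
  obtain ⟨T, hTX, hTc, hU'⟩ := thin G b hp hξ X B (fun x hx => hfew x (hXA hx))
  set U' := B.filter (fun y => X.filter (fun x => G x y = b) = T) with hU'd
  have hU'B : U' ⊆ B := filter_subset _ _
  have hXn' : (X.card : ℝ) ≤ n := by exact_mod_cast hXn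
  have hTn : (T.card : ℝ) ≤ 2 * p * n := hTc.trans (by nlinarith)
  have hqU' : q * U.card ≤ U'.card := by
    refine le_trans ?_ hU'
    have h1 := hq T.card hTn
    have h2 : (1 + ξ) ^ X.card ≤ (1 + ξ) ^ n := pow_le_pow_right₀ (by linarith) hXn
    have h3 : (0 : ℝ) < (1 + ξ) ^ X.card := by positivity
    calc q * U.card ≤ p ^ k / (4 * k ^ 2) * ξ ^ T.card / (1 + ξ) ^ n * U.card :=
          mul_le_mul_of_nonneg_right h1 hUn
      _ ≤ p ^ k / (4 * k ^ 2) * ξ ^ T.card / (1 + ξ) ^ X.card * U.card := by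
          apply mul_le_mul_of_nonneg_right _ hUn
          exact div_le_div_of_nonneg_left (by positivity) h3 h2
      _ = 1 / 2 * (p ^ k / (2 * k ^ 2) * U.card) * ξ ^ T.card / (1 + ξ) ^ X.card := by
          field_simp
          ring
      _ ≤ 1 / 2 * B.card * ξ ^ T.card / (1 + ξ) ^ X.card := by
          apply div_le_div_of_nonneg_right _ h3.le
          apply mul_le_mul_of_nonneg_right _ (by positivity)
          linarith
  have hs := hlow U' (hU'B.trans hB) hqU' (!b)
  obtain ⟨I, hIU, hIh, hIc⟩ := exists_al (G := G) (!b) U'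
  have hun := al_union (G := G) (b := !b) (U := U) (X := X \ T) (I := I)
    (sdiff_subset.trans (hXA.trans hA)) (hIU.trans (hU'B.trans hB))
    (fun x hx y hy hxy => hXh x (sdiff_subset hx) y (sdiff_subset hy) hxy) hIh (by
      intro x hx y hy
      have hx1 := mem_sdiff.1 hx
      have hy1 := mem_filter.1 (hIU hy)
      refine ⟨hAB x (hXA hx1.1) y hy1.1, ?_⟩
      have h3 : ¬ G x y = b := by
        intro h4
        apply hx1.2
        rw [← hy1.2]
        exact mem_filter.2 ⟨hx1.1, h4⟩
      cases h5 : G x y <;> cases h6 : b <;> simp_all)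
  have hst := hstab A hA hqA (!b)
  have hsd : (X \ T).card + T.card = X.card := card_sdiff_add_card_eq_card hTX
  rw [hIc] at hun
  rw [← hXc] at hst
  have e1 : ((X \ T).card : ℝ) + T.card = X.card := by exact_mod_cast hsd
  have e2 : ((X \ T).card : ℝ) + al G (!b) U' ≤ al G (!b) U := by exact_mod_cast hun
  have e3 : (al G (!b) U : ℝ) ≤ X.card + g := by exact_mod_cast hst
  have e4 : (s₀ : ℝ) ≤ al G (!b) U' := by exact_mod_cast hs
  linarith

/-- The choice of a set on which the sizes of homogeneous sets are stable. -/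
theorem stable (G : ℕ → ℕ → Bool) (V : Finset ℕ) (n g J : ℕ) {q : ℝ} (hq0 : 0 < q) (hq1 : q ≤ 1)
    (hJ : 2 * n < J * (g + 1)) (hal : ∀ b, al G b V ≤ n) :
    ∃ U ⊆ V, q ^ J * V.card ≤ U.card ∧
      ∀ U' ⊆ U, q * U.card ≤ U'.card → ∀ b, al G b U ≤ al G b U' + g := by
  classical
  by_contra hcon
  push Not at hcon
  have key : ∀ j ≤ J, ∃ U ⊆ V, q ^ j * V.card ≤ U.card ∧
      al G false U + al G true U + j * (g + 1) ≤ 2 * n := by
    intro j
    induction j with
    | zero =>
      intro _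
      refine ⟨V, Subset.rfl, by simp, ?_⟩
      have h1 := hal false
      have h2 := hal true
      omega
    | succ j ih =>
      intro hj
      obtain ⟨U, hUV, hUc, hΦ⟩ := ih (by omega)
      have h1 : q ^ J * V.card ≤ U.card := by
        refine le_trans ?_ hUc
        apply mul_le_mul_of_nonneg_right _ (Nat.cast_nonneg _)
        exact pow_le_pow_of_le_one hq0.le hq1 (by omega)
      obtain ⟨U', hU'U, hU'c, b, hb⟩ := hcon U hUV h1
      refine ⟨U', hU'U.trans hUV, ?_, ?_⟩
      · rw [pow_succ']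
        calc q * q ^ j * V.card = q * (q ^ j * V.card) := by ring
          _ ≤ q * U.card := mul_le_mul_of_nonneg_left hUc hq0.le
          _ ≤ U'.card := hU'c
      · have m0 := al_mono (G := G) (b := false) hU'U
        have m1 := al_mono (G := G) (b := true) hU'U
        have : (j + 1) * (g + 1) = j * (g + 1) + (g + 1) := by ring
        cases b <;> omega
  obtain ⟨U, _, _, h⟩ := key J le_rfl
  omega

/-- The core of the proof of the Erdős–Hajnal theorem for ordered patterns. -/
theorem core_eh (G h : ℕ → ℕ → Bool) (k : ℕ) (hk : 1 ≤ k) (V : Finset ℕ) (J : ℕ)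
    {p w : ℝ} (hp : 0 < p) (hp1 : p ≤ 1) (hJ : 2 ^ J * p ≤ 1) (hw : 4 * k ^ 2 / p ^ k ≤ w)
    (hno : ¬ ∃ y : ℕ → ℕ, (∀ i < k, y i ∈ V) ∧ (∀ i j, i < j → j < k → y i < y j) ∧
      ∀ i j, i < j → j < k → G (y i) (y j) = h i j) :
    ∀ j ≤ J, ∀ U ⊆ V, w ^ j ≤ U.card → ∃ S ⊆ U, S.card ≤ 2 ^ j ∧
      2 ^ j ≤ al G false S * al G true S := by
  classical
  have hk0 : (1 : ℝ) ≤ k := by exact_mod_cast hk
  have hρ : 0 < p ^ k / (2 * k ^ 2) := by positivity
  have hpk : p ^ k ≤ 1 := pow_le_one₀ hp.le hp1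
  have hpk0 : 0 < p ^ k := by positivity
  have hw2 : 2 ≤ p ^ k / (2 * k ^ 2) * w := by
    have : p ^ k / (2 * k ^ 2) * (4 * k ^ 2 / p ^ k) ≤ p ^ k / (2 * k ^ 2) * w :=
      mul_le_mul_of_nonneg_left hw hρ.le
    have e : p ^ k / (2 * (k : ℝ) ^ 2) * (4 * k ^ 2 / p ^ k) = 2 := by
      field_simp
      ring
    linarith
  have hwk : (k : ℝ) ≤ w := by
    refine le_trans ?_ hw
    rw [le_div_iff₀ hpk0]
    nlinarith
  have hw1 : 1 ≤ w := hk0.trans hwk
  intro j
  induction j with
  | zero =>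
    intro _ U _ hU
    rw [pow_zero] at hU
    have : 1 ≤ U.card := by exact_mod_cast hU
    obtain ⟨x, hx⟩ := card_pos.1 this
    refine ⟨{x}, singleton_subset_iff.2 hx, by simp, ?_⟩
    have h1 : ∀ b, 1 ≤ al G b {x} := by
      intro b
      have := le_al (G := G) (b := b) (U := {x}) (S := {x}) Subset.rfl (by
        intro a ha c hc hac
        rw [mem_singleton] at ha hc
        omega)
      simpa using this
    have h2 := h1 false
    have h3 := h1 true
    rw [pow_zero]
    exact Nat.mul_pos h2 h3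
  | succ j ih =>
    intro hj U hUV hU
    have hwj : 1 ≤ w ^ j := one_le_pow₀ hw1
    have hUk : k ≤ U.card := by
      have : (k : ℝ) ≤ U.card := by
        refine le_trans hwk (le_trans ?_ hU)
        rw [pow_succ]
        nlinarith
      exact_mod_cast this
    rcases pair_or_embed G hp hp1 k hk h U hUk with ⟨y, hy1, hy2, hy3⟩ |
        ⟨b, A, B, hA, hB, hAB, hAc, hBc, hfew⟩
    · exact absurd ⟨y, fun i hi => hUV (hy1 i hi), hy2, hy3⟩ hno
    have hbig : 2 * w ^ j ≤ p ^ k / (2 * k ^ 2) * U.card := by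
      have h1 : p ^ k / (2 * k ^ 2) * w ^ (j + 1) ≤ p ^ k / (2 * k ^ 2) * U.card :=
        mul_le_mul_of_nonneg_left hU hρ.le
      have e3 : w ^ (j + 1) = w ^ j * w := pow_succ w j
      rw [e3] at h1
      have h2 : 2 * w ^ j ≤ (p ^ k / (2 * k ^ 2) * w) * w ^ j :=
        mul_le_mul_of_nonneg_right hw2 (by linarith)
      have e4 : p ^ k / (2 * (k : ℝ) ^ 2) * (w ^ j * w) = (p ^ k / (2 * k ^ 2) * w) * w ^ j := by
        ring
      linarith
    obtain ⟨S1, hS1A, hS1c, hS1p⟩ := ih (by omega) A (hA.trans hUV) (by linarith)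
    set B' := B.filter (fun y => ∀ x ∈ S1, ¬ G x y = b) with hB'
    have hB'B : B' ⊆ B := filter_subset _ _
    have hB'c : w ^ j ≤ B'.card := by
      have h1 : B ⊆ B' ∪ S1.biUnion (fun x => B.filter (fun y => G x y = b)) := by
        intro y hy
        by_cases h2 : ∀ x ∈ S1, ¬ G x y = b
        · exact mem_union_left _ (mem_filter.2 ⟨hy, h2⟩)
        · push Not at h2
          obtain ⟨x, hx, hxy⟩ := h2
          exact mem_union_right _ (mem_biUnion.2 ⟨x, hx, mem_filter.2 ⟨hy, hxy⟩⟩)
      have h2 : (B.card : ℝ) ≤ B'.card + ∑ x ∈ S1, ((B.filter (fun y => G x y = b)).card : ℝ) := by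
        have := (card_le_card h1).trans ((card_union_le _ _).trans
          (Nat.add_le_add_left card_biUnion_le _))
        exact_mod_cast this
      have h3 : ∑ x ∈ S1, ((B.filter (fun y => G x y = b)).card : ℝ) ≤
          S1.card * (p * B.card) := by
        rw [← nsmul_eq_mul]
        exact sum_le_card_nsmul _ _ _ (fun x hx => hfew x (hS1A hx))
      have h4 : (S1.card : ℝ) ≤ 2 ^ j := by exact_mod_cast hS1c
      have h5 : (2 : ℝ) ^ j * p ≤ 1 / 2 := by
        have : (2 : ℝ) ^ (j + 1) * p ≤ 1 := by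
          refine le_trans ?_ hJ
          apply mul_le_mul_of_nonneg_right _ hp.le
          exact pow_le_pow_right₀ (by norm_num) hj
        rw [pow_succ] at this
        linarith
      have h6 : (S1.card : ℝ) * (p * B.card) ≤ 1 / 2 * B.card := by
        have : (S1.card : ℝ) * p ≤ 1 / 2 := (mul_le_mul_of_nonneg_right h4 hp.le).trans h5
        have hBn : (0 : ℝ) ≤ B.card := Nat.cast_nonneg _
        nlinarith
      linarith
    obtain ⟨S2, hS2B, hS2c, hS2p⟩ := ih (by omega) B' (hB'B.trans (hB.trans hUV)) hB'c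
    refine ⟨S1 ∪ S2, union_subset (hS1A.trans hA) (hS2B.trans (hB'B.trans hB)), ?_, ?_⟩
    · refine (card_union_le _ _).trans ?_
      rw [pow_succ]
      omega
    · -- cross pairs have the colour `!b`
      have hcross : ∀ x ∈ S1, ∀ y ∈ S2, x < y ∧ G x y = !b := by
        intro x hx y hy
        have hy1 := mem_filter.1 (hS2B hy)
        refine ⟨hAB x (hS1A hx) y hy1.1, ?_⟩
        have := hy1.2 x hx
        cases h5 : G x y <;> cases h6 : b <;> simp_all
      obtain ⟨I1, hI1, hI1h, hI1c⟩ := exists_al (G := G) (!b) S1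
      obtain ⟨I2, hI2, hI2h, hI2c⟩ := exists_al (G := G) (!b) S2
      have hu := al_union (G := G) (b := !b) (U := S1 ∪ S2) (hI1.trans subset_union_left)
        (hI2.trans subset_union_right) hI1h hI2h
        (fun x hx y hy => hcross x (hI1 hx) y (hI2 hy))
      rw [hI1c, hI2c] at hu
      have ha := al_mono (G := G) (b := b) (subset_union_left : S1 ⊆ S1 ∪ S2)
      have hb := al_mono (G := G) (b := b) (subset_union_right : S2 ⊆ S1 ∪ S2)
      have e : ∀ S, al G false S * al G true S = al G b S * al G (!b) S := by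
        intro S
        cases b
        · rfl
        · exact mul_comm _ _
      rw [e] at hS1p hS2p ⊢
      rw [pow_succ]
      nlinarith

end Pool.Agent.R67.UN
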