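import Pool.Agent.R67.UN2
import Pool.Agent.TH138.NF.Asym

/-!
# Ordered patterns in graph colourings: the two theorems on graphs
-/

set_option autoImplicit false

namespace Pool.Agent.R67.UN

open Finset
open Pool.Agent.TH138.NF (two_rpow_ge nat_le_rpow)

/-- The pattern `h` of size `k` occurs in the colouring `G` of the pairs of `{0, …, m - 1}`. -/
def Occurs (G h : ℕ → ℕ → Bool) (k m : ℕ) : Prop :=
  ∃ y : ℕ → ℕ, (∀ i < k, y i < m) ∧ (∀ i j, i < j → j < k → y i < y j) ∧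
    ∀ i j, i < j → j < k → G (y i) (y j) = h i j

theorem pow_le_two_rpow {y : ℝ} (hy : 0 ≤ y) (N : ℕ) : y ^ N ≤ (2 : ℝ) ^ (y * N) := by
  rw [Real.rpow_mul (by norm_num), Real.rpow_natCast]
  exact pow_le_pow_left₀ hy (two_rpow_ge y) N

theorem two_rpow_ge_one_add {x : ℝ} (hx : 0 ≤ x) : 1 + 0.69 * x ≤ (2 : ℝ) ^ x := by
  have h1 : (2 : ℝ) ^ x = Real.exp (Real.log 2 * x) := by
    rw [Real.rpow_def_of_pos (by norm_num)]
  have hl : (0.6931471803 : ℝ) < Real.log 2 := Real.log_two_gt_d9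
  have h2 := Real.add_one_le_exp (Real.log 2 * x)
  rw [h1]
  nlinarith

theorem one_add_pow_le {ξ : ℝ} (hξ : 0 ≤ ξ) (n : ℕ) : (1 + ξ) ^ n ≤ (2 : ℝ) ^ (2 * ξ * n) := by
  rw [Real.rpow_mul (by norm_num), Real.rpow_natCast]
  apply pow_le_pow_left₀ (by linarith)
  have := two_rpow_ge_one_add (x := 2 * ξ) (by linarith)
  nlinarith

theorem one_div_one_sub_le {x : ℝ} (hx : 0 ≤ x) (hx1 : x ≤ 1 / 2) :
    1 / (1 - x) ≤ (2 : ℝ) ^ (3 * x) := by
  have h := two_rpow_ge_one_add (x := 3 * x) (by linarith)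
  rw [div_le_iff₀ (by linarith)]
  have h2 : (1 + 2 * x) * (1 - x) ≤ (2 : ℝ) ^ (3 * x) * (1 - x) :=
    mul_le_mul_of_nonneg_right (by linarith) (by linarith)
  nlinarith

theorem al_lt {G : ℕ → ℕ → Bool} {n m : ℕ}
    (hG : ∀ S ⊆ range m, S.card = n → ∀ b, ¬ HomG G b S) (b : Bool) :
    al G b (range m) < n := by
  by_contra hcon
  push Not at hcon
  obtain ⟨S, hS, hh, hc⟩ := exists_al (G := G) b (range m)
  rw [← hc] at hcon
  obtain ⟨S', hS', hc'⟩ := Finset.exists_subset_card_eq hcon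
  exact hG S' (hS'.trans hS) hc' b (fun x hx y hy => hh x (hS' hx) y (hS' hy))

/-- Colourings of the pairs of `2 ^ (ε n)` vertices without homogeneous `n`-set contain all
ordered patterns of size `δ n`. -/
theorem graph_universal (ε : ℝ) (hε : 0 < ε) (hε1 : ε ≤ 1) : ∃ δ : ℝ, 0 < δ ∧ ∃ n₀ : ℕ,
    ∀ n : ℕ, n₀ ≤ n → ∀ m : ℕ, (2 : ℝ) ^ (ε * n) ≤ m → ∀ G : ℕ → ℕ → Bool,
      (∀ S ⊆ range m, S.card = n → ∀ b, ¬ HomG G b S) →
      ∀ k : ℕ, (k : ℝ) ≤ δ * n → ∀ h : ℕ → ℕ → Bool, Occurs G h k m := by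
  obtain ⟨σ, hσ⟩ : ∃ σ' : ℝ, σ' = ε ^ 2 / 256 := ⟨_, rfl⟩
  have hσ0 : 0 < σ := by rw [hσ]; positivity
  have hσ1 : σ ≤ 1 := by rw [hσ]; nlinarith
  obtain ⟨γ, hγ⟩ : ∃ γ' : ℝ, γ' = σ / 8 := ⟨_, rfl⟩
  have hγ0 : 0 < γ := by rw [hγ]; positivity
  obtain ⟨J, hJ⟩ : ∃ J' : ℕ, J' = ⌈2 / γ⌉₊ + 1 := ⟨_, rfl⟩
  have hJγ : 2 ≤ J * γ := by
    have h1 : 2 / γ ≤ (J : ℝ) := by
      rw [hJ]
      push_cast
      linarith [Nat.le_ceil (2 / γ)]
    rwa [div_le_iff₀ hγ0] at h1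
  obtain ⟨κ, hκ⟩ : ∃ κ' : ℝ, κ' = ε / (2 * (J + 1)) := ⟨_, rfl⟩
  have hJ0 : (0 : ℝ) ≤ J := Nat.cast_nonneg J
  have hκ0 : 0 < κ := by rw [hκ]; positivity
  have hκJ : κ * (J + 1) = ε / 2 := by
    rw [hκ]
    field_simp
  have hκ1 : κ ≤ 1 := by nlinarith
  obtain ⟨ξ, hξ⟩ : ∃ ξ' : ℝ, ξ' = κ / 8 := ⟨_, rfl⟩
  have hξ0 : 0 < ξ := by rw [hξ]; positivity
  obtain ⟨p, hp⟩ : ∃ p' : ℝ, p' = min (κ * ξ / 8) (σ / 16) := ⟨_, rfl⟩
  have hp0 : 0 < p := by rw [hp]; exact lt_min (by positivity) (by positivity)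
  have hpa : p ≤ κ * ξ / 8 := by rw [hp]; exact min_le_left _ _
  have hpb : p ≤ σ / 16 := by rw [hp]; exact min_le_right _ _
  have hp1 : p ≤ 1 := by linarith
  have hpκ : κ * p ≤ 1 := by nlinarith
  obtain ⟨a1, ha1⟩ := nat_le_rpow (κ / 16) (by positivity)
  obtain ⟨a2, ha2⟩ := exists_nat_gt (16 / κ)
  obtain ⟨a3, ha3⟩ := exists_nat_gt (4 / ε)
  obtain ⟨a4, ha4⟩ := exists_nat_gt (2 / σ)
  refine ⟨κ * p / 4, by positivity, max (max a1 a2) (max a3 a4) + 1, ?_⟩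
  intro n hn m hm G hG k hk h
  have hn1 : a1 ≤ n := by omega
  have hn2 : (16 / κ : ℝ) ≤ n := by
    have : (a2 : ℝ) ≤ n := by exact_mod_cast (show a2 ≤ n by omega)
    linarith
  have hn3 : (4 / ε : ℝ) ≤ n := by
    have : (a3 : ℝ) ≤ n := by exact_mod_cast (show a3 ≤ n by omega)
    linarith
  have hn4 : (2 / σ : ℝ) ≤ n := by
    have : (a4 : ℝ) ≤ n := by exact_mod_cast (show a4 ≤ n by omega)
    linarith
  have hnpos : 1 ≤ n := by omega
  have hnpos' : (1 : ℝ) ≤ n := by exact_mod_cast hnpos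
  have c2 : 16 ≤ κ * n := by rw [div_le_iff₀ hκ0] at hn2; linarith
  have c3 : 4 ≤ ε * n := by rw [div_le_iff₀ hε] at hn3; linarith
  have c4 : 2 ≤ σ * n := by rw [div_le_iff₀ hσ0] at hn4; linarith
  have c1 : 2 * (n : ℝ) ≤ 2 ^ (κ * n / 8) := by
    have h1 := ha1 n hn1
    have h2 : (2 : ℝ) ^ (κ * n / 8) = 2 ^ (κ / 16 * n) * 2 ^ (κ / 16 * n) := by
      rw [← Real.rpow_add (by norm_num)]
      ring_nf
    have h3 : (2 : ℝ) ≤ 2 ^ (κ / 16 * n) := by
      calc (2 : ℝ) = 2 ^ (1 : ℝ) := by norm_num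
        _ ≤ 2 ^ (κ / 16 * n) := Real.rpow_le_rpow_of_exponent_le (by norm_num) (by linarith)
    rw [h2]
    nlinarith
  rcases Nat.eq_zero_or_pos k with hk0 | hk0
  · refine ⟨fun _ => 0, ?_, ?_, ?_⟩
    · intro i hi; omega
    · intro i j _ hj; omega
    · intro i j _ hj; omega
  have hkn : (k : ℝ) ≤ n := by nlinarith
  have hal : ∀ b, al G b (range m) < n := al_lt hG
  obtain ⟨g, hg⟩ : ∃ g' : ℕ, g' = ⌊γ * n⌋₊ := ⟨_, rfl⟩
  have hg1 : (g : ℝ) ≤ γ * n := by rw [hg]; exact Nat.floor_le (by positivity)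
  have hg2 : γ * n < g + 1 := by rw [hg]; exact Nat.lt_floor_add_one _
  obtain ⟨q, hq⟩ : ∃ q' : ℝ, q' = 2 ^ (-(κ * n)) := ⟨_, rfl⟩
  have hq0 : 0 < q := by rw [hq]; positivity
  have hq1 : q ≤ 1 := by
    rw [hq, Real.rpow_neg (by norm_num)]
    apply inv_le_one_of_one_le₀
    exact Real.one_le_rpow (by norm_num) (by positivity)
  have hJg : 2 * n < J * (g + 1) := by
    have h1 : (2 : ℝ) * n < J * (g + 1) := by
      have hJpos : (0 : ℝ) < J := by
        rw [hJ]; push_cast; positivity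
      nlinarith
    exact_mod_cast h1
  obtain ⟨U, hUV, hUc, hst⟩ := stable G (range m) n g J hq0 hq1 hJg (fun b => (hal b).le)
  rw [card_range] at hUc
  have hqU : (2 : ℝ) ^ (ε * n / 2) ≤ q * U.card := by
    have h1 : q * (q ^ J * m) ≤ q * U.card := mul_le_mul_of_nonneg_left hUc hq0.le
    have h2 : q * q ^ J = 2 ^ (-(ε * n / 2)) := by
      rw [← pow_succ', hq, ← Real.rpow_natCast, ← Real.rpow_mul (by norm_num)]
      congr 1
      push_cast
      have : κ * n * (J + 1) = ε * n / 2 := by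
        calc κ * n * (J + 1) = (κ * (J + 1)) * n := by ring
          _ = ε * n / 2 := by rw [hκJ]; ring
      linarith
    have h3 : (2 : ℝ) ^ (-(ε * n / 2)) * 2 ^ (ε * n) = 2 ^ (ε * n / 2) := by
      rw [← Real.rpow_add (by norm_num)]
      ring_nf
    have h4 : (2 : ℝ) ^ (-(ε * n / 2)) * 2 ^ (ε * n) ≤ 2 ^ (-(ε * n / 2)) * m :=
      mul_le_mul_of_nonneg_left hm (by positivity)
    calc (2 : ℝ) ^ (ε * n / 2) ≤ 2 ^ (-(ε * n / 2)) * m := by rw [← h3]; exact h4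
      _ = q * (q ^ J * m) := by rw [← h2]; ring
      _ ≤ q * U.card := h1
  -- lower bound for homogeneous sets in large subsets
  obtain ⟨s₀, hs⟩ : ∃ s₀' : ℕ, s₀' = ⌊σ * n⌋₊ := ⟨_, rfl⟩
  have hs1 : (s₀ : ℝ) ≤ σ * n := by rw [hs]; exact Nat.floor_le (by positivity)
  have hs2 : σ * n < s₀ + 1 := by rw [hs]; exact Nat.lt_floor_add_one _
  have hlow : ∀ U' ⊆ U, q * U.card ≤ U'.card → ∀ b, s₀ ≤ al G b U' := by
    intro U' hU' hU'c b
    have hP : (0 : ℝ) < 32 / ε := by positivity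
    have hx : ε / 32 ≤ 1 / 2 := by linarith
    have hQ : (0 : ℝ) < 1 / (1 - ε / 32) := by
      apply one_div_pos.2
      linarith
    have hPQ : 1 / (32 / ε) + 1 / (1 / (1 - ε / 32)) = 1 := by
      rw [one_div_one_div, one_div_div]
      ring
    rcases ramsey G b hP hQ hPQ s₀ n U' (by
      have e1 : (32 / ε) ^ s₀ ≤ (2 : ℝ) ^ (ε * n / 8) := by
        refine (pow_le_two_rpow hP.le s₀).trans ?_
        apply Real.rpow_le_rpow_of_exponent_le (by norm_num)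
        have : 32 / ε * s₀ ≤ 32 / ε * (σ * n) := mul_le_mul_of_nonneg_left hs1 hP.le
        refine this.trans (le_of_eq ?_)
        rw [hσ]
        field_simp
        ring
      have e2 : (1 / (1 - ε / 32)) ^ n ≤ (2 : ℝ) ^ (ε * n / 8) := by
        refine (pow_le_pow_left₀ hQ.le (one_div_one_sub_le (by positivity) hx) n).trans ?_
        rw [← Real.rpow_natCast, ← Real.rpow_mul (by norm_num)]
        apply Real.rpow_le_rpow_of_exponent_le (by norm_num)
        nlinarith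
      have e3 : (2 : ℝ) ≤ 2 ^ (ε * n / 4) := by
        calc (2 : ℝ) = 2 ^ (1 : ℝ) := by norm_num
          _ ≤ 2 ^ (ε * n / 4) := Real.rpow_le_rpow_of_exponent_le (by norm_num) (by linarith)
      have e4 : (2 : ℝ) ^ (ε * n / 2) =
          2 ^ (ε * n / 4) * 2 ^ (ε * n / 8) * 2 ^ (ε * n / 8) := by
        rw [← Real.rpow_add (by norm_num), ← Real.rpow_add (by norm_num)]
        ring_nf
      have e5 : 2 * (32 / ε) ^ s₀ * (1 / (1 - ε / 32)) ^ n ≤ (2 : ℝ) ^ (ε * n / 2) := by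
        rw [e4]
        apply mul_le_mul _ e2 (by positivity) (by positivity)
        exact mul_le_mul e3 e1 (by positivity) (by positivity)
      linarith) with h1 | h1
    · exact h1
    · exfalso
      have h2 := al_mono (G := G) (b := !b) (hU'.trans hUV)
      have h3 := hal (!b)
      omega
  have hUk : k ≤ U.card := by
    have h1 : (U.card : ℝ) ≥ q * U.card := by
      have : (0 : ℝ) ≤ U.card := Nat.cast_nonneg _
      nlinarith
    have h2 : (n : ℝ) ≤ 2 ^ (κ * n / 8) := by linarith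
    have h3 : (2 : ℝ) ^ (κ * n / 8) ≤ 2 ^ (ε * n / 2) := by
      apply Real.rpow_le_rpow_of_exponent_le (by norm_num)
      have : κ ≤ ε / 2 := by nlinarith
      nlinarith
    have : (k : ℝ) ≤ U.card := by linarith
    exact_mod_cast this
  obtain ⟨y, hy1, hy2, hy3⟩ := core G h k hk0 U hUk n s₀ g hp0 hp1 hξ0
    (fun b => (al_mono hUV).trans (hal b).le) hst hlow (by
      intro τ hτ
      have hk1 : (1 : ℝ) ≤ k := by exact_mod_cast hk0
      have e0 : (4 * (k : ℝ) ^ 2) ≤ 2 ^ (κ * n / 4) := by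
        have h1 : (2 : ℝ) ^ (κ * n / 4) = 2 ^ (κ * n / 8) * 2 ^ (κ * n / 8) := by
          rw [← Real.rpow_add (by norm_num)]
          ring_nf
        rw [h1]
        nlinarith
      have e1 : (1 / p) ^ k ≤ (2 : ℝ) ^ (κ * n / 4) := by
        refine (pow_le_two_rpow (by positivity) k).trans ?_
        apply Real.rpow_le_rpow_of_exponent_le (by norm_num)
        have : 1 / p * k ≤ 1 / p * (κ * p / 4 * n) :=
          mul_le_mul_of_nonneg_left hk (by positivity)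
        refine this.trans (le_of_eq ?_)
        field_simp
      have e2 : (1 / ξ) ^ τ ≤ (2 : ℝ) ^ (κ * n / 4) := by
        refine (pow_le_two_rpow (by positivity) τ).trans ?_
        apply Real.rpow_le_rpow_of_exponent_le (by norm_num)
        have h1 : 1 / ξ * τ ≤ 1 / ξ * (2 * p * n) := mul_le_mul_of_nonneg_left hτ (by positivity)
        have h2 : 1 / ξ * (2 * p * n) ≤ 1 / ξ * (2 * (κ * ξ / 8) * n) := by
          apply mul_le_mul_of_nonneg_left _ (by positivity)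
          nlinarith
        refine (h1.trans h2).trans (le_of_eq ?_)
        field_simp
        ring
      have e3 : (1 + ξ) ^ n ≤ (2 : ℝ) ^ (κ * n / 4) := by
        refine (one_add_pow_le hξ0.le n).trans (le_of_eq ?_)
        congr 1
        rw [hξ]
        ring
      have e4 : (2 : ℝ) ^ (κ * n) = 2 ^ (κ * n / 4) * 2 ^ (κ * n / 4) * 2 ^ (κ * n / 4) *
          2 ^ (κ * n / 4) := by
        rw [← Real.rpow_add (by norm_num), ← Real.rpow_add (by norm_num),
          ← Real.rpow_add (by norm_num)]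
        ring_nf
      have e5 : (4 * (k : ℝ) ^ 2) * (1 / p) ^ k * (1 / ξ) ^ τ * (1 + ξ) ^ n ≤ 2 ^ (κ * n) := by
        rw [e4]
        apply mul_le_mul _ e3 (by positivity) (by positivity)
        apply mul_le_mul _ e2 (by positivity) (by positivity)
        exact mul_le_mul e0 e1 (by positivity) (by positivity)
      have e6 : p ^ k / (4 * k ^ 2) * ξ ^ τ / (1 + ξ) ^ n =
          1 / ((4 * (k : ℝ) ^ 2) * (1 / p) ^ k * (1 / ξ) ^ τ * (1 + ξ) ^ n) := by
        rw [one_div_pow, one_div_pow]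
        field_simp
      rw [e6, hq, Real.rpow_neg (by norm_num), ← one_div]
      exact one_div_le_one_div_of_le (by positivity) e5) (by
      have f1 : p * n ≤ σ / 16 * n := mul_le_mul_of_nonneg_right hpb (by positivity)
      have f2 : (g : ℝ) ≤ σ / 8 * n := by rw [← hγ]; exact hg1
      linarith)
  exact ⟨y, fun i hi => mem_range.1 (hUV (hy1 i hi)), hy2, hy3⟩

/-- Colourings of the pairs of `2 ^ (80 k (log₂ n) ^ 2)` vertices without homogeneous `n`-set
contain all ordered patterns of size `k`. -/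
theorem graph_eh (n k m : ℕ) (hn : 2 ≤ n) (hm : (2 : ℝ) ^ (80 * k * Real.logb 2 n ^ 2) ≤ m)
    (G : ℕ → ℕ → Bool) (hG : ∀ S ⊆ range m, S.card = n → ∀ b, ¬ HomG G b S)
    (h : ℕ → ℕ → Bool) : Occurs G h k m := by
  rcases Nat.eq_zero_or_pos k with hk0 | hk0
  · refine ⟨fun _ => 0, ?_, ?_, ?_⟩
    · intro i hi; omega
    · intro i j _ hj; omega
    · intro i j _ hj; omega
  by_contra hcon
  obtain ⟨J, hJ⟩ : ∃ J' : ℕ, J' = 2 * Nat.clog 2 n := ⟨_, rfl⟩
  have hc1 : 1 ≤ Nat.clog 2 n := Nat.clog_pos (by norm_num) hn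
  obtain ⟨p, hp⟩ : ∃ p' : ℝ, p' = 1 / 2 ^ J := ⟨_, rfl⟩
  have hp0 : 0 < p := by rw [hp]; positivity
  have hp1 : p ≤ 1 := by
    rw [hp]
    apply div_le_one_of_le₀ _ (by positivity)
    exact one_le_pow₀ (by norm_num)
  obtain ⟨w, hw⟩ : ∃ w' : ℝ, w' = 2 ^ (2 + 2 * k + J * k) := ⟨_, rfl⟩
  have hw1 : 4 * (k : ℝ) ^ 2 / p ^ k ≤ w := by
    have h1 : (k : ℝ) ≤ 2 ^ k := by exact_mod_cast (Nat.lt_two_pow_self (n := k)).le
    have h2 : (k : ℝ) ^ 2 ≤ (2 ^ k) ^ 2 := pow_le_pow_left₀ (by positivity) h1 2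
    have h3 : p ^ k = 1 / 2 ^ (J * k) := by
      rw [hp, one_div_pow, ← pow_mul]
    rw [h3, hw]
    have h4 : 4 * (k : ℝ) ^ 2 / (1 / 2 ^ (J * k)) = 4 * (k : ℝ) ^ 2 * 2 ^ (J * k) := by
      field_simp
    rw [h4]
    have h5 : (2 : ℝ) ^ (2 + 2 * k + J * k) = 4 * (2 ^ k) ^ 2 * 2 ^ (J * k) := by
      rw [pow_add, pow_add, mul_comm 2 k, pow_mul]
      norm_num
    rw [h5]
    apply mul_le_mul_of_nonneg_right _ (by positivity)
    linarith
  have hno : ¬ ∃ y : ℕ → ℕ, (∀ i < k, y i ∈ range m) ∧ (∀ i j, i < j → j < k → y i < y j) ∧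
      ∀ i j, i < j → j < k → G (y i) (y j) = h i j := by
    rintro ⟨y, hy1, hy2, hy3⟩
    exact hcon ⟨y, fun i hi => mem_range.1 (hy1 i hi), hy2, hy3⟩
  have hlog : (Nat.clog 2 n : ℝ) ≤ 2 * Real.logb 2 n := by
    have h1 : 2 ^ (Nat.clog 2 n - 1) < n := Nat.pow_pred_clog_lt_self (by norm_num) (by omega)
    have h2 : ((Nat.clog 2 n - 1 : ℕ) : ℝ) ≤ Real.logb 2 n := by
      rw [Real.le_logb_iff_rpow_le (by norm_num) (by positivity), Real.rpow_natCast]
      exact_mod_cast h1.le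
    have h3 : (1 : ℝ) ≤ Real.logb 2 n := by
      rw [Real.le_logb_iff_rpow_le (by norm_num) (by positivity), Real.rpow_one]
      exact_mod_cast hn
    rw [Nat.cast_sub hc1] at h2
    push_cast at h2
    linarith
  obtain ⟨S, hS, _, hSp⟩ := core_eh G h k hk0 (range m) J hp0 hp1
    (by rw [hp]; field_simp; exact le_rfl) hw1 hno J le_rfl (range m) Subset.rfl (by
      rw [card_range]
      refine le_trans ?_ hm
      rw [hw, ← pow_mul, ← Real.rpow_natCast]
      apply Real.rpow_le_rpow_of_exponent_le (by norm_num)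
      have hJ1 : 1 ≤ J := by omega
      have h1 : (2 + 2 * k + J * k) * J ≤ 5 * k * J ^ 2 := by
        have : 2 + 2 * k + J * k ≤ 5 * k * J := by nlinarith
        nlinarith
      have h2 : (((2 + 2 * k + J * k) * J : ℕ) : ℝ) ≤ 5 * k * J ^ 2 := by exact_mod_cast h1
      refine h2.trans ?_
      have h3 : (J : ℝ) ≤ 4 * Real.logb 2 n := by
        rw [hJ]
        push_cast
        linarith
      have h4 : (J : ℝ) ^ 2 ≤ (4 * Real.logb 2 n) ^ 2 := pow_le_pow_left₀ (by positivity) h3 2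
      have hk1 : (0 : ℝ) ≤ k := by positivity
      nlinarith)
  have h1 := (al_mono (G := G) (b := false) hS).trans_lt (al_lt hG false)
  have h2 := (al_mono (G := G) (b := true) hS).trans_lt (al_lt hG true)
  have h3 : al G false S * al G true S < n * n := by
    apply Nat.mul_lt_mul_of_lt_of_le h1 h2.le
    omega
  have h4 : n ≤ 2 ^ Nat.clog 2 n := Nat.le_pow_clog (by norm_num) n
  have h5 : n * n ≤ 2 ^ J := by
    rw [hJ, two_mul, pow_add]
    exact Nat.mul_le_mul h4 h4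
  omega

end Pool.Agent.R67.UN
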