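import Pool.Agent.R67.UN3
import Pool.Agent.TH138.NF.End

/-!
# From pairs to `r`-sets: end-homogeneous sequences and reflection
-/

set_option autoImplicit false

namespace Pool.Agent.R67.UN

open Finset
open Pool.Agent.TH138.NF (end_hom tow tow_mono le_tow tow_gap two_rpow_ge Homogeneous)

/-- All increasing tuples of elements of `S` have the same colour. -/
def HomT {r : ℕ} (L : (Fin r → ℕ) → Bool) (S : Finset ℕ) : Prop :=
  ∃ b, ∀ x : Fin r → ℕ, StrictMono x → (∀ i, x i ∈ S) → L x = b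

/-- The pattern `h` occurs at the positions `a`, `a + 1`. -/
def OccT (s : ℕ) (a : Fin (s + 1)) (L : (Fin (s + 2) → ℕ) → Bool) (h : ℕ → ℕ → Bool)
    (k N : ℕ) : Prop :=
  ∃ y : ℕ → ℕ, (∀ i < k, y i < N) ∧ (∀ i j, i < j → j < k → y i < y j) ∧
    ∀ x : Fin (s + 2) → ℕ, StrictMono x → (∀ i, x i < k) →
      L (fun i => y (x i)) = h (x a.castSucc) (x a.succ)

/-- All patterns of size `k` occur in the colourings without homogeneous `n`-set. -/
def Univ (s : ℕ) (a : Fin (s + 1)) (N n k : ℕ) : Prop :=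
  ∀ L : (Fin (s + 2) → ℕ) → Bool, (∀ S ⊆ range N, S.card = n → ¬ HomT L S) →
    ∀ h : ℕ → ℕ → Bool, OccT s a L h k N

theorem univ_zero (m n k : ℕ) (hG : ∀ G : ℕ → ℕ → Bool,
    (∀ S ⊆ range m, S.card = n → ∀ b, ¬ HomG G b S) → ∀ h, Occurs G h k m) (a : Fin 1) :
    Univ 0 a m n k := by
  intro L hL h
  have ha : a = 0 := Subsingleton.elim _ _
  subst ha
  have e : ∀ x : Fin 2 → ℕ, x = ![x 0, x 1] := by
    intro x
    funext i
    fin_cases i <;> rfl
  obtain ⟨y, hy1, hy2, hy3⟩ := hG (fun x y => L ![x, y]) (by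
    intro S hS hc b hb
    apply hL S hS hc
    refine ⟨b, fun x hx hxS => ?_⟩
    rw [e x]
    exact hb (x 0) (hxS 0) (x 1) (hxS 1) (hx (by decide))) h
  refine ⟨y, hy1, hy2, fun x hx hxk => ?_⟩
  have h1 := hy3 (x 0) (x 1) (hx (by decide)) (hxk 1)
  rw [e (fun i => y (x i))]
  exact h1

theorem univ_reflect (s : ℕ) (a : Fin (s + 1)) (N n k : ℕ) (hU : Univ s a N n k) :
    Univ s a.rev N n k := by
  classical
  intro L hL h
  obtain ⟨y, hy1, hy2, hy3⟩ := hU (fun x => L (fun i => N - 1 - x i.rev)) (by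
    intro S hS hc hhom
    obtain ⟨b, hb⟩ := hhom
    have hinj : Set.InjOn (fun x => N - 1 - x) (S : Set ℕ) := by
      intro x hx x' hx' he
      have h1 := mem_range.1 (hS (mem_coe.1 hx))
      have h2 := mem_range.1 (hS (mem_coe.1 hx'))
      simp only at he
      omega
    apply hL (S.image (fun x => N - 1 - x))
    · intro z hz
      obtain ⟨x, hx, rfl⟩ := mem_image.1 hz
      have h1 := mem_range.1 (hS hx)
      rw [mem_range]
      omega
    · rw [card_image_of_injOn hinj, hc]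
    · refine ⟨b, fun x hx hxS => ?_⟩
      have hxN : ∀ i, x i < N := by
        intro i
        obtain ⟨z, hz, hzi⟩ := mem_image.1 (hxS i)
        have h1 := mem_range.1 (hS hz)
        omega
      have h2 := hb (fun i => N - 1 - x i.rev) (by
        intro i j hij
        have h3 := hx (Fin.rev_lt_rev.2 hij)
        have h4 := hxN i.rev
        simp only
        omega) (by
        intro i
        obtain ⟨z, hz, hzi⟩ := mem_image.1 (hxS i.rev)
        have h1 := mem_range.1 (hS hz)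
        have h3 : N - 1 - x i.rev = z := by omega
        rw [h3]
        exact hz)
      rw [← h2]
      congr 1
      funext i
      have h4 := hxN i
      simp only [Fin.rev_rev]
      omega) (fun i j => h (k - 1 - j) (k - 1 - i))
  refine ⟨fun i => N - 1 - y (k - 1 - i), ?_, ?_, ?_⟩
  · intro i hi
    have := hy1 (k - 1 - i) (by omega)
    simp only
    omega
  · intro i j hij hj
    have h1 := hy2 (k - 1 - j) (k - 1 - i) (by omega) (by omega)
    have h2 := hy1 (k - 1 - i) (by omega)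
    simp only
    omega
  · intro x hx hxk
    have h1 := hy3 (fun i => k - 1 - x i.rev) (by
      intro i j hij
      have h3 := hx (Fin.rev_lt_rev.2 hij)
      have h4 := hxk i.rev
      simp only
      omega) (by
      intro i
      have h4 := hxk i.rev
      omega)
    simp only [Fin.rev_rev] at h1
    rw [h1]
    have h4 := hxk (a.castSucc.rev)
    have h5 := hxk (a.succ.rev)
    have e1 : k - 1 - (k - 1 - x a.succ.rev) = x a.succ.rev := by omega
    have e2 : k - 1 - (k - 1 - x a.castSucc.rev) = x a.castSucc.rev := by omega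
    rw [e1, e2, Fin.rev_castSucc, Fin.rev_succ]

theorem univ_step (s : ℕ) (a : Fin (s + 1)) (m N n k : ℕ) (hU : Univ s a m n k)
    (hN : (2 * 2 ^ ((s + 2) * m ^ (s + 1))) ^ m ≤ N) : Univ (s + 1) a.castSucc N n k := by
  classical
  intro L hL h
  obtain ⟨v, W, hWV, hWc, hvV, hvm, hvW, _, h2⟩ := end_hom (s := s + 1) L (range N) m
    (2 * 2 ^ ((s + 2) * m ^ (s + 1))) (by simp) (by rw [card_range]; exact hN) m le_rfl
  rw [Nat.sub_self, pow_zero] at hWc
  obtain ⟨w0, hw0⟩ := card_pos.1 hWc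
  have key : ∀ x : Fin (s + 3) → ℕ, StrictMono x → (∀ i, x i < m) →
      L (fun i => v (x i)) =
        L (Fin.snoc (fun b : Fin (s + 2) => v (x b.castSucc)) w0) := by
    intro x hx hxm
    have h3 := h2 (fun b => x b.castSucc) (x (Fin.last _)) (hxm _)
      (fun b => hx (Fin.castSucc_lt_last b)) w0 hw0
    rw [← h3]
    congr 1
    funext i
    refine Fin.lastCases ?_ (fun i => ?_) i
    · rw [Fin.snoc_last]
    · rw [Fin.snoc_castSucc]
  obtain ⟨y, hy1, hy2, hy3⟩ := hU (fun x => L (Fin.snoc (fun b => v (x b)) w0)) (by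
    intro S hS hc hhom
    obtain ⟨b, hb⟩ := hhom
    have hinj : Set.InjOn v (S : Set ℕ) := by
      intro x hx x' hx' he
      have h1 := mem_range.1 (hS (mem_coe.1 hx))
      have h2 := mem_range.1 (hS (mem_coe.1 hx'))
      rcases lt_trichotomy x x' with h' | h' | h'
      · exact absurd he (hvm x x' h' h2).ne
      · exact h'
      · exact absurd he.symm (hvm x' x h' h1).ne
    apply hL (S.image v)
    · intro z hz
      obtain ⟨x, hx, rfl⟩ := mem_image.1 hz
      exact hvV x (mem_range.1 (hS hx))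
    · rw [card_image_of_injOn hinj, hc]
    · refine ⟨b, fun x hx hxS => ?_⟩
      choose i hi1 hi2 using fun j => mem_image.1 (hxS j)
      have him : ∀ j, i j < m := fun j => mem_range.1 (hS (hi1 j))
      have himono : StrictMono i := by
        intro j j' hjj
        have h3 := hx hjj
        rw [← hi2 j, ← hi2 j'] at h3
        by_contra hcon
        push Not at hcon
        rcases hcon.lt_or_eq with h4 | h4
        · exact absurd (hvm _ _ h4 (him j)) (by omega)
        · rw [h4] at h3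
          exact lt_irrefl _ h3
      have h5 : x = fun j => v (i j) := by
        funext j
        exact (hi2 j).symm
      rw [h5, key i himono him]
      exact hb (fun b => i b.castSucc) (himono.comp (Fin.strictMono_castSucc))
        (fun j => hi1 _)) h
  refine ⟨fun i => v (y i), ?_, ?_, ?_⟩
  · intro i hi
    exact mem_range.1 (hvV _ (hy1 i hi))
  · intro i j hij hj
    exact hvm _ _ (hy2 i j hij hj) (hy1 j hj)
  · intro x hx hxk
    have hymono : StrictMono (fun i => y (x i)) := by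
      intro i j hij
      exact hy2 _ _ (hx hij) (hxk j)
    have h3 := key (fun i => y (x i)) hymono (fun i => hy1 _ (hxk i))
    rw [h3]
    exact hy3 (fun b => x b.castSucc) (hx.comp (Fin.strictMono_castSucc)) (fun i => hxk _)

theorem univ_succ (s m N n k : ℕ) (hU : ∀ a, Univ s a m n k)
    (hN : (2 * 2 ^ ((s + 2) * m ^ (s + 1))) ^ m ≤ N) (a : Fin (s + 2)) :
    Univ (s + 1) a N n k := by
  refine Fin.lastCases ?_ (fun a => ?_) a
  · have h1 := univ_reflect (s + 1) _ N n k (univ_step s 0 m N n k (hU 0) hN)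
    have e : (Fin.castSucc (0 : Fin (s + 1))).rev = Fin.last (s + 1) := by
      rw [Fin.castSucc_zero, Fin.rev_zero]
    rwa [e] at h1
  · exact univ_step s a m N n k (hU a) hN

theorem tow_mul (s D : ℕ) : ∃ C : ℝ, 1 ≤ C ∧ ∀ X : ℝ, 1 ≤ X →
    D * tow s X + D ≤ tow s (C * X) := by
  refine ⟨2 * D + 1, by linarith [(Nat.cast_nonneg D : (0 : ℝ) ≤ D)], fun X hX => ?_⟩
  have hD : (0 : ℝ) ≤ D := Nat.cast_nonneg D
  cases s with
  | zero =>
    show (D : ℝ) * X + D ≤ (2 * D + 1) * X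
    nlinarith
  | succ s =>
    have h1 : X ≤ (2 * D + 1) * X := by nlinarith
    have h2 := tow_gap s hX h1
    have h3 : 1 ≤ tow s X := hX.trans (le_tow s X)
    show (D : ℝ) * 2 ^ tow s X + D ≤ 2 ^ tow s ((2 * D + 1) * X)
    have h4 : (1 : ℝ) ≤ 2 ^ tow s X := Real.one_le_rpow (by norm_num) (by linarith)
    have h5 : (2 : ℝ) * D ≤ 2 ^ (2 * (D : ℝ)) := two_rpow_ge _
    calc (D : ℝ) * 2 ^ tow s X + D ≤ (2 * D) * 2 ^ tow s X := by nlinarith
      _ ≤ 2 ^ (2 * (D : ℝ)) * 2 ^ tow s X := mul_le_mul_of_nonneg_right h5 (by linarith)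
      _ = 2 ^ (2 * (D : ℝ) + tow s X) := by rw [Real.rpow_add (by norm_num)]
      _ ≤ 2 ^ tow s ((2 * D + 1) * X) := by
          apply Real.rpow_le_rpow_of_exponent_le (by norm_num)
          nlinarith

theorem size_step (s : ℕ) : ∃ C : ℝ, 1 ≤ C ∧ ∀ X : ℝ, 1 ≤ X → ∀ N : ℕ,
    tow (s + 2) (C * X) ≤ N →
    ∃ m : ℕ, tow (s + 1) X ≤ m ∧ (2 * 2 ^ ((s + 2) * m ^ (s + 1))) ^ m ≤ N := by
  obtain ⟨C, hC, hCX⟩ := tow_mul s (2 * s + 5)
  refine ⟨C, hC, fun X hX N hN => ⟨⌈tow (s + 1) X⌉₊, Nat.le_ceil _, ?_⟩⟩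
  obtain ⟨m, hm⟩ : ∃ m' : ℕ, m' = ⌈tow (s + 1) X⌉₊ := ⟨_, rfl⟩
  rw [← hm]
  have h1X : X ≤ tow (s + 1) X := le_tow _ _
  have hts : X ≤ tow s X := le_tow _ _
  have hmX : (m : ℝ) ≤ 2 ^ (tow s X + 1) := by
    have h1 : (m : ℝ) < tow (s + 1) X + 1 := by
      rw [hm]
      exact Nat.ceil_lt_add_one (by linarith)
    have h2 : (2 : ℝ) ^ (tow s X + 1) = 2 * tow (s + 1) X := by
      rw [Real.rpow_add (by norm_num), Real.rpow_one]
      show (2 : ℝ) ^ tow s X * 2 = 2 * 2 ^ tow s X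
      ring
    rw [h2]
    linarith
  have hm1 : 1 ≤ m := by
    have : (0 : ℝ) < m := by
      rw [hm]
      have := Nat.le_ceil (tow (s + 1) X)
      linarith
    exact_mod_cast this
  have h1 : (2 * 2 ^ ((s + 2) * m ^ (s + 1))) ^ m ≤ 2 ^ ((s + 3) * m ^ (s + 2)) := by
    rw [← pow_succ', ← pow_mul]
    apply Nat.pow_le_pow_right (by norm_num)
    have h2 : 1 ≤ m ^ (s + 1) := Nat.one_le_pow _ _ hm1
    have h3 : ((s + 2) * m ^ (s + 1) + 1) * m ≤ ((s + 3) * m ^ (s + 1)) * m :=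
      Nat.mul_le_mul_right _ (by nlinarith)
    refine h3.trans (le_of_eq ?_)
    ring
  have h2 : ((2 ^ ((s + 3) * m ^ (s + 2)) : ℕ) : ℝ) ≤ N := by
    refine le_trans ?_ hN
    push_cast
    show (2 : ℝ) ^ ((s + 3) * m ^ (s + 2)) ≤ 2 ^ tow (s + 1) (C * X)
    rw [← Real.rpow_natCast]
    apply Real.rpow_le_rpow_of_exponent_le (by norm_num)
    push_cast
    show ((s : ℝ) + 3) * m ^ (s + 2) ≤ 2 ^ tow s (C * X)
    have h4 : (m : ℝ) ^ (s + 2) ≤ 2 ^ ((tow s X + 1) * ((s : ℝ) + 2)) := by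
      rw [Real.rpow_mul (by norm_num)]
      have : ((s : ℝ) + 2) = ((s + 2 : ℕ) : ℝ) := by push_cast; ring
      rw [this, Real.rpow_natCast]
      exact pow_le_pow_left₀ (by positivity) hmX _
    have h5 : (s : ℝ) + 3 ≤ 2 ^ ((s : ℝ) + 3) := two_rpow_ge _
    calc ((s : ℝ) + 3) * m ^ (s + 2) ≤ 2 ^ ((s : ℝ) + 3) * 2 ^ ((tow s X + 1) * ((s : ℝ) + 2)) :=
          mul_le_mul h5 h4 (by positivity) (by positivity)
      _ = 2 ^ ((s : ℝ) + 3 + (tow s X + 1) * ((s : ℝ) + 2)) :=
          (Real.rpow_add (by norm_num) _ _).symm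
      _ ≤ 2 ^ tow s (C * X) := by
          apply Real.rpow_le_rpow_of_exponent_le (by norm_num)
          have := hCX X hX
          push_cast at this
          have hs0 : (0 : ℝ) ≤ s := Nat.cast_nonneg s
          nlinarith
  exact_mod_cast (show (((2 * 2 ^ ((s + 2) * m ^ (s + 1))) ^ m : ℕ) : ℝ) ≤ N from
    le_trans (by exact_mod_cast h1) h2)

/-- From pairs to `(s + 2)`-sets. -/
theorem transfer (s : ℕ) : ∃ C : ℝ, 1 ≤ C ∧ ∀ X : ℝ, 1 ≤ X → ∀ n k : ℕ,
    (∀ m : ℕ, (2 : ℝ) ^ X ≤ m → ∀ G : ℕ → ℕ → Bool,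
      (∀ S ⊆ range m, S.card = n → ∀ b, ¬ HomG G b S) → ∀ h, Occurs G h k m) →
    ∀ N : ℕ, tow (s + 1) (C * X) ≤ N → ∀ a, Univ s a N n k := by
  induction s with
  | zero =>
    refine ⟨1, le_rfl, fun X hX n k hG N hN a => ?_⟩
    rw [one_mul] at hN
    exact univ_zero N n k (hG N hN) a
  | succ s ih =>
    obtain ⟨C, hC, ihC⟩ := ih
    obtain ⟨C', hC', hstep⟩ := size_step s
    refine ⟨C' * C, by nlinarith, fun X hX n k hG N hN a => ?_⟩
    have hCX : 1 ≤ C * X := by nlinarith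
    rw [mul_assoc] at hN
    obtain ⟨m, hm1, hm2⟩ := hstep (C * X) hCX N hN
    exact univ_succ s m N n k (ihC X hX n k hG m hm1) hm2 a

/-- Translation to colourings of finite sets. -/
theorem occurs_of_univ {s : ℕ} {a : Fin (s + 1)} {N n k : ℕ} (hU : Univ s a N n k)
    (c : Finset ℕ → Bool) (hc : ∀ S ⊆ range N, S.card = n → ¬ Homogeneous (s + 2) c S)
    (h : Fin k → Fin k → Bool) : ∃ y : Fin k → ℕ, StrictMono y ∧ (∀ i, y i < N) ∧
      ∀ x : Fin (s + 2) → Fin k, StrictMono x →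
        c (Finset.univ.image (fun i => y (x i))) = h (x a.castSucc) (x a.succ) := by
  classical
  obtain ⟨y, hy1, hy2, hy3⟩ := hU (fun x => c (Finset.univ.image x)) (by
    intro S hS hcS hhom
    apply hc S hS hcS
    obtain ⟨b, hb⟩ := hhom
    have h1 : ∀ A ⊆ S, A.card = s + 2 → c A = b := by
      intro A hA hAc
      have h2 := hb (A.orderEmbOfFin hAc) (A.orderEmbOfFin hAc).strictMono
        (fun i => hA (A.orderEmbOfFin_mem hAc i))
      rw [← h2]
      congr 1
      ext z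
      simp only [mem_image, mem_univ, true_and]
      constructor
      · intro hz
        have : z ∈ Set.range (A.orderEmbOfFin hAc) := by
          rw [Finset.range_orderEmbOfFin]
          exact hz
        exact this
      · rintro ⟨i, rfl⟩
        exact A.orderEmbOfFin_mem hAc i
    intro A hA B hB hAc hBc
    rw [h1 A hA hAc, h1 B hB hBc])
    (fun i j => if hij : i < k ∧ j < k then h ⟨i, hij.1⟩ ⟨j, hij.2⟩ else false)
  refine ⟨fun i => y i, ?_, fun i => hy1 i i.2, ?_⟩
  · intro i j hij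
    exact hy2 i j hij j.2
  · intro x hx
    have h3 := hy3 (fun i => (x i : ℕ)) (fun i j hij => hx hij) (fun i => (x i).2)
    simp only at h3
    rw [h3, dif_pos ⟨(x _).2, (x _).2⟩]

end Pool.Agent.R67.UN
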