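import Pool.Agent.R67.UN4
import Pool.Agent.TH138.NF.Main

/-!
# A four-colouring of triples of full height that omits a pattern of size four
-/

set_option autoImplicit false

namespace Pool.Agent.R67.UN

open Finset
open Pool.Agent.TH138.NF

theorem four_colours (j : ℕ) : ∃ (χ : ℕ → ℕ → Bool) (c : Finset ℕ → Bool × Bool),
    (∀ x y z : ℕ, x < y → y < z → z < 2 ^ 2 ^ j →
      c (Finset.univ.image ![x, y, z]) =
        (χ (min (hd x y) (hd y z)) (max (hd x y) (hd y z)), decide (hd x y < hd y z))) ∧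
    ∀ S ⊆ range (2 ^ 2 ^ j), S.card = 4 * j + 5 → ¬ Homogeneous 3 c S := by
  classical
  obtain ⟨χ, hχ⟩ := base_lower j
  obtain ⟨c, hc⟩ : ∃ c : Finset ℕ → Bool × Bool, Computes (base χ j) (2 ^ 2 ^ j) c :=
    ⟨_, computes_colour (base χ j) (false, false) _⟩
  refine ⟨χ, c, ?_, ?_⟩
  · intro x y z hxy hyz hz
    have hsm : StrictMono ![x, y, z] := by
      rw [Fin.strictMono_iff_lt_succ]
      intro l
      fin_cases l
      · exact hxy
      · exact hyz
    have hlt : ∀ i, ![x, y, z] i < 2 ^ 2 ^ j := by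
      intro i
      fin_cases i
      · exact (hxy.trans hyz).trans hz
      · exact hyz.trans hz
      · exact hz
    rw [← hc _ hsm hlt, run_base χ j _ hsm hlt]
    rfl
  · intro S hS hcard hhom
    exact hχ S hS hcard (hom_of_homogeneous hc hS hhom)

end Pool.Agent.R67.UN
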